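import Pool.Agent.H564.QH.A3
import Pool.Graph.R_seed8.Y705.QT0
import Mathlib.NumberTheory.EulerProduct.Basic

/-!
# Explicit bounds for the Dirichlet series of a newform to the right of its line of convergence
-/

set_option autoImplicit false

open Complex MeasureTheory Filter Topology Set MatrixGroups CongruenceSubgroup
open UpperHalfPlane hiding I

namespace Pool.Agent.H564.QH

/-- `n ↦ n^(-σ)` -/
noncomputable def npow (σ : ℝ) (hσ : σ ≠ 0) : ℕ →*₀ ℝ where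
  toFun n := (n : ℝ) ^ (-σ)
  map_zero' := by
    rw [Nat.cast_zero, Real.zero_rpow]
    exact neg_ne_zero.2 hσ
  map_one' := by simp
  map_mul' m n := by
    push_cast
    rw [Real.mul_rpow (Nat.cast_nonneg m) (Nat.cast_nonneg n)]

lemma zeta_prod {σ : ℝ} (hσ : 1 < σ) :
    HasProd (fun p : Nat.Primes => (1 - ((p : ℕ) : ℝ) ^ (-σ))⁻¹) (∑' n : ℕ, (n : ℝ) ^ (-σ)) := by
  have h1 : Summable (fun n : ℕ => ‖npow σ (by linarith) n‖) := by
    have h2 : Summable fun n : ℕ => (n : ℝ) ^ (-σ) := Real.summable_nat_rpow.2 (by linarith)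
    exact h2.norm
  exact EulerProduct.eulerProduct_completely_multiplicative_hasProd h1

section

variable {N : ℕ} [NeZero N] {f : CuspForm (Gamma0 N : Subgroup (GL (Fin 2) ℝ)) 2} {w : ℝ}

theorem L1_bounds (hf : W388.IsNewf N 2 f w)
    (hgood : ∀ p : ℕ, p.Prime → ¬ p ∣ N → |W388.lamf f p| ≤ 2)
    (hbad : ∀ p : ℕ, p.Prime → p ∣ N → |W388.lamf f p| ≤ 1) {s : ℂ} (hs : 1 < s.re) :
    ‖L1 f s‖ ≤ (1 + 1 / (s.re - 1)) ^ 2 ∧ 1 ≤ ‖L1 f s‖ * (1 + 1 / (s.re - 1)) ^ 2 := by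
  obtain ⟨-, h1⟩ := Pool.Agent.H466.HF.newf_facts hf hs
  have h2 := zeta_prod hs
  set Z : ℝ := ∑' n : ℕ, (n : ℝ) ^ (-s.re) with hZ
  have hZ1 : Z ≤ 1 + 1 / (s.re - 1) := Pool.Agent.Y705.QT0.zeta_le hs
  have hZ0 : 0 ≤ Z := tsum_nonneg fun n => by positivity
  have hy : ∀ p : Nat.Primes, 0 < ((p : ℕ) : ℝ) ^ (-s.re) ∧ ((p : ℕ) : ℝ) ^ (-s.re) < 1 := by
    intro p
    have hp1 : (1 : ℝ) < p := by exact_mod_cast p.2.one_lt
    exact ⟨by positivity, Real.rpow_lt_one_of_one_lt_of_neg hp1 (by linarith)⟩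
  have hfac : ∀ p : Nat.Primes, (1 - ((p : ℕ) : ℝ) ^ (-s.re)) ^ 2 ≤ ‖fac f s p‖ ∧
      ‖fac f s p‖ ≤ (1 + ((p : ℕ) : ℝ) ^ (-s.re)) ^ 2 := by
    intro p
    obtain ⟨hy0, hy1⟩ := hy p
    have hp := p.2
    have hn := norm_pcpow hp s
    have e : ((p : ℕ) : ℂ) ^ (-2 * s) = (((p : ℕ) : ℂ) ^ (-s)) ^ 2 := by
      rw [← Complex.cpow_nat_mul]
      congr 1
      push_cast
      ring
    unfold fac
    split_ifs with h
    · have hb := hbad p hp h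
      have h3 : ‖(W388.lamf f p : ℂ) * ((p : ℕ) : ℂ) ^ (-s)‖ ≤ ((p : ℕ) : ℝ) ^ (-s.re) := by
        rw [norm_mul, Complex.norm_real, Real.norm_eq_abs, hn]
        nlinarith
      have h4 := norm_sub_norm_le (1 : ℂ) ((W388.lamf f p : ℂ) * ((p : ℕ) : ℂ) ^ (-s))
      have h5 := norm_sub_le (1 : ℂ) ((W388.lamf f p : ℂ) * ((p : ℕ) : ℂ) ^ (-s))
      rw [norm_one] at h4 h5
      rw [add_zero]
      constructor <;> nlinarith
    · have hg := hgood p hp h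
      rw [e]
      constructor
      · have h3 := Pool.Agent.Y19.QT.quad_lb _ hg (((p : ℕ) : ℂ) ^ (-s)) (by rw [hn]; exact hy1.le)
        rw [hn] at h3
        exact h3
      · have h3 : ‖(W388.lamf f p : ℂ) * ((p : ℕ) : ℂ) ^ (-s)‖ ≤ 2 * ((p : ℕ) : ℝ) ^ (-s.re) := by
          rw [norm_mul, Complex.norm_real, Real.norm_eq_abs, hn]
          nlinarith
        calc _ ≤ ‖(1 : ℂ)‖ + ‖(W388.lamf f p : ℂ) * ((p : ℕ) : ℂ) ^ (-s)‖ +
              ‖(((p : ℕ) : ℂ) ^ (-s)) ^ 2‖ :=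
              (norm_add_le _ _).trans (add_le_add_left (norm_sub_le _ _) _)
          _ ≤ 1 + 2 * ((p : ℕ) : ℝ) ^ (-s.re) + (((p : ℕ) : ℝ) ^ (-s.re)) ^ 2 := by
              rw [norm_one, norm_pow, hn]
              linarith
          _ = _ := by ring
  have h1n : Tendsto (fun S : Finset Nat.Primes => ‖∏ p ∈ S, (fac f s p)⁻¹‖) atTop
      (𝓝 ‖L1 f s‖) := by
    have h3 : Tendsto (fun S : Finset Nat.Primes => ∏ p ∈ S, (fac f s p)⁻¹) atTop (𝓝 (L1 f s)) := h1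
    exact (continuous_norm.tendsto _).comp h3
  have h2n : Tendsto (fun S : Finset Nat.Primes =>
      (∏ p ∈ S, (1 - ((p : ℕ) : ℝ) ^ (-s.re))⁻¹) ^ 2) atTop (𝓝 (Z ^ 2)) := by
    have h3 : Tendsto (fun S : Finset Nat.Primes =>
      (∏ p ∈ S, (1 - ((p : ℕ) : ℝ) ^ (-s.re))⁻¹)) atTop (𝓝 Z) := h2
    exact h3.pow 2
  have hZ2 : Z ^ 2 ≤ (1 + 1 / (s.re - 1)) ^ 2 := pow_le_pow_left₀ hZ0 hZ1 2
  have hfp : ∀ p : Nat.Primes, 0 < ‖fac f s p‖ := fun p => by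
    have := (hfac p).1
    have := (hy p).2
    have h3 : 0 < (1 - ((p : ℕ) : ℝ) ^ (-s.re)) ^ 2 := by
      have : 0 < 1 - ((p : ℕ) : ℝ) ^ (-s.re) := by linarith
      positivity
    linarith
  constructor
  · refine le_trans ?_ hZ2
    refine le_of_tendsto_of_tendsto' h1n h2n fun S => ?_
    rw [norm_prod, ← Finset.prod_pow]
    refine Finset.prod_le_prod (fun _ _ => norm_nonneg _) fun p _ => ?_
    rw [norm_inv, inv_pow]
    have h3 : 0 < (1 - ((p : ℕ) : ℝ) ^ (-s.re)) ^ 2 := by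
      have := (hy p).2
      have : 0 < 1 - ((p : ℕ) : ℝ) ^ (-s.re) := by linarith
      positivity
    exact inv_anti₀ h3 (hfac p).1
  · refine le_trans ?_ (mul_le_mul_of_nonneg_left hZ2 (norm_nonneg _))
    refine ge_of_tendsto' (h1n.mul h2n) fun S => ?_
    rw [norm_prod, ← Finset.prod_pow, ← Finset.prod_mul_distrib]
    refine Finset.one_le_prod fun p _ => ?_
    obtain ⟨hy0, hy1⟩ := hy p
    have h3 := (hfac p).2
    have h4 : 0 < 1 - ((p : ℕ) : ℝ) ^ (-s.re) := by linarith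
    rw [norm_inv, inv_pow, ← mul_inv, one_le_inv₀ (mul_pos (hfp p) (by positivity))]
    calc ‖fac f s p‖ * (1 - ((p : ℕ) : ℝ) ^ (-s.re)) ^ 2
        ≤ (1 + ((p : ℕ) : ℝ) ^ (-s.re)) ^ 2 * (1 - ((p : ℕ) : ℝ) ^ (-s.re)) ^ 2 := by gcongr
      _ = (1 - (((p : ℕ) : ℝ) ^ (-s.re)) ^ 2) ^ 2 := by ring
      _ ≤ 1 := by
          have h5 : (((p : ℕ) : ℝ) ^ (-s.re)) ^ 2 ≤ 1 := by nlinarith
          have h6 : 0 ≤ (((p : ℕ) : ℝ) ^ (-s.re)) ^ 2 := by positivity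
          nlinarith

end

end Pool.Agent.H564.QH
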