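import Pool.Agent.H564.QH.C1
import Pool.Graph.R_seed8.Y19.QT.Lin
import Pool.Graph.R_seed8.Y180.QT12b2b

/-!
# The critical line for almost all quadratic twists, and small twists
-/

set_option autoImplicit false

open Complex MeasureTheory Set
open Pool.Agent.Y19.QT (Twists Hecke sqf mem_sqf WW WW_le pt_le)
open scoped ENNReal

namespace Pool.Agent.H564.QH

variable {Q : ℕ} {lam : ℕ → ℝ}

/-- `(C)`: powers of `(log X) (2 + |t|)` on the critical line -/
theorem cardC (T : Twists Q lam) (K : ℕ) : ∃ (C : ℝ) (k : ℕ), 0 < C ∧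
    ∀ X : ℕ, 3 ≤ X → ∀ S ⊆ sqf X, (∀ d ∈ S, ∃ t : ℝ,
      Real.exp (k * lm X t) ≤ ‖T.ell d (1 / 2 + t * I)‖) →
      (S.card : ℝ) ≤ C * X / Real.log X ^ K := by
  classical
  obtain ⟨C, A, B, hC, hW⟩ := WW_le T
  set k : ℕ := A + B + K + 2 with hk
  have hpi := Real.pi_gt_three
  refine ⟨24 * 3 ^ A * C, k, by positivity, fun X hX S hS hbad => ?_⟩
  have hX0 : (0 : ℝ) < X := by exact_mod_cast (by omega : 0 < X)
  have hX3 : (3 : ℝ) ≤ X := by exact_mod_cast hX
  have hl1 := one_le_logX hX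
  set L8 : ℝ := Real.log ((8 * X : ℕ) : ℝ) with hL8
  have e8 : L8 = Real.log 8 + Real.log X := by
    rw [hL8]
    push_cast
    rw [Real.log_mul (by norm_num) hX0.ne']
  have h8a : Real.log 8 ≤ 2 * Real.log X := by
    have h3 : 2 * Real.log X = Real.log ((X : ℝ) ^ 2) := by rw [Real.log_pow]; push_cast; ring
    rw [h3]
    apply Real.log_le_log (by norm_num)
    nlinarith
  have h8b : 1 ≤ Real.log 8 := by
    rw [Real.le_log_iff_exp_le (by norm_num)]
    have h := Real.exp_one_lt_d9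
    linarith
  have hL2 : 2 ≤ L8 := by rw [e8]; linarith
  have hL3 : L8 ≤ 3 * Real.log X := by rw [e8]; linarith
  have hL0 : 0 < L8 := by linarith
  have hW' := hW (8 * X) (by omega) hL2
  set L := Real.log X with hLdef
  have hL00 : 0 < L := by linarith
  have hsub : sqf X ⊆ sqf (8 * X) := by
    intro d hd
    rw [mem_sqf] at hd ⊢
    refine ⟨hd.1.trans ?_, hd.2⟩
    push_cast
    have : (0 : ℤ) ≤ X := Int.natCast_nonneg X
    linarith
  have hr1 : 1 / L8 ≤ 1 := by rw [div_le_one hL0]; linarith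
  choose! t ht using hbad
  have hpt : ∀ d ∈ S, ENNReal.ofReal (Real.pi * (1 / L8) ^ 2 * L ^ (2 * k)) ≤
      WW T d (1 / L8) (B + 2) := by
    intro d hd
    have hsq : Squarefree d := (mem_sqf.1 (hS hd)).2
    have h2 := pt_le T hsq (r := 1 / L8) (by positivity) hr1 (B + 2) (t d)
    set e : ℂ := T.ell d (1 / 2 + t d * I) with he
    have ht0 : 0 < (2 + |t d|) ^ (B + 2) := by
      have := abs_nonneg (t d)
      positivity
    have ht1 : (1 : ℝ) ≤ 2 + |t d| := by have := abs_nonneg (t d); linarith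
    have h3 : (L * (2 + |t d|)) ^ k ≤ ‖e‖ := by
      have := ht d hd
      rw [exp_lm hX, ← mul_pow] at this
      exact this
    have h4 : L ^ (2 * k) ≤ ‖e‖ ^ 2 / (2 + |t d|) ^ (B + 2) := by
      rw [le_div_iff₀ ht0]
      calc L ^ (2 * k) * (2 + |t d|) ^ (B + 2)
          ≤ L ^ (2 * k) * (2 + |t d|) ^ (2 * k) := by
            gcongr
            omega
        _ = ((L * (2 + |t d|)) ^ k) ^ 2 := by
            rw [← mul_pow, ← pow_mul]
            congr 1
            ring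
        _ ≤ _ := pow_le_pow_left₀ (by positivity) h3 2
    calc ENNReal.ofReal (Real.pi * (1 / L8) ^ 2 * L ^ (2 * k))
        ≤ ENNReal.ofReal (Real.pi * (1 / L8) ^ 2 * (‖e‖ ^ 2 / (2 + |t d|) ^ (B + 2))) := by
          apply ENNReal.ofReal_le_ofReal
          gcongr
      _ = ENNReal.ofReal (1 / (2 + |t d|) ^ (B + 2)) *
          (ENNReal.ofReal (Real.pi * (1 / L8) ^ 2) * ‖e‖ₑ ^ 2) := by
          rw [← ofReal_norm, ← ENNReal.ofReal_pow (norm_nonneg _),
            ← ENNReal.ofReal_mul (by positivity), ← ENNReal.ofReal_mul (by positivity)]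
          congr 1
          field_simp
      _ ≤ ENNReal.ofReal (1 / (2 + |t d|) ^ (B + 2)) *
          (ENNReal.ofReal ((2 + |t d|) ^ (B + 2)) * WW T d (1 / L8) (B + 2)) := by gcongr
      _ = _ := by
          rw [← mul_assoc, ← ENNReal.ofReal_mul (by positivity), one_div,
            inv_mul_cancel₀ ht0.ne', ENNReal.ofReal_one, one_mul]
  have hsum : ENNReal.ofReal (S.card * (Real.pi * (1 / L8) ^ 2 * L ^ (2 * k))) ≤
      ENNReal.ofReal (C * (8 * X : ℕ) * L8 ^ A) := by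
    calc _ = ∑ _d ∈ S, ENNReal.ofReal (Real.pi * (1 / L8) ^ 2 * L ^ (2 * k)) := by
          rw [Finset.sum_const, nsmul_eq_mul, ENNReal.ofReal_mul (Nat.cast_nonneg _),
            ENNReal.ofReal_natCast]
      _ ≤ ∑ d ∈ S, WW T d (1 / L8) (B + 2) := Finset.sum_le_sum hpt
      _ ≤ ∑ d ∈ sqf (8 * X), WW T d (1 / L8) (B + 2) :=
          Finset.sum_le_sum_of_subset (hS.trans hsub)
      _ ≤ _ := hW'
  have h1 := (ENNReal.ofReal_le_ofReal_iff (by positivity)).1 hsum
  have h2 : 1 / (3 * L ^ 2) ≤ Real.pi * (1 / L8) ^ 2 := by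
    have h3 : 1 / (3 * L) ≤ 1 / L8 := one_div_le_one_div_of_le hL0 hL3
    have h4 : (1 / (3 * L)) ^ 2 ≤ (1 / L8) ^ 2 := pow_le_pow_left₀ (by positivity) h3 2
    have e : (1 / (3 * L)) ^ 2 = 1 / (9 * L ^ 2) := by field_simp; norm_num
    have e2 : 1 / (3 * L ^ 2) = 3 * (1 / (9 * L ^ 2)) := by field_simp; norm_num
    rw [e2, ← e]
    have h5 : 0 ≤ (1 / L8) ^ 2 := by positivity
    nlinarith
  have h3 : (S.card : ℝ) * (1 / (3 * L ^ 2) * L ^ (2 * k)) ≤ C * (8 * X) * (3 * L) ^ A := by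
    calc (S.card : ℝ) * (1 / (3 * L ^ 2) * L ^ (2 * k))
        ≤ S.card * (Real.pi * (1 / L8) ^ 2 * L ^ (2 * k)) := by gcongr
      _ ≤ C * (8 * X : ℕ) * L8 ^ A := h1
      _ ≤ _ := by push_cast; gcongr
  have e2 : L ^ (2 * k) = L ^ A * L ^ K * L ^ 2 * L ^ (2 * k - A - K - 2) := by
    rw [← pow_add, ← pow_add, ← pow_add]
    congr 1
    omega
  have h13 : (1 : ℝ) ≤ L ^ (2 * k - A - K - 2) := one_le_pow₀ hl1
  have h4 : L ^ A * (L ^ K / 3) ≤ 1 / (3 * L ^ 2) * L ^ (2 * k) := by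
    have e4 : 1 / (3 * L ^ 2) * L ^ (2 * k) = L ^ A * (L ^ K / 3) * L ^ (2 * k - A - K - 2) := by
      rw [e2]
      field_simp
    rw [e4]
    exact le_mul_of_one_le_right (by positivity) h13
  have h5 : (S.card : ℝ) * (L ^ A * (L ^ K / 3)) ≤ C * (8 * X) * (3 * L) ^ A :=
    (mul_le_mul_of_nonneg_left h4 (Nat.cast_nonneg _)).trans h3
  have e5 : C * (8 * X) * (3 * L) ^ A = (24 * 3 ^ A * C * X / L ^ K) * (L ^ A * (L ^ K / 3)) := by
    rw [mul_pow]
    field_simp
    ring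
  rw [e5] at h5
  exact le_of_mul_le_mul_right h5 (by positivity)

/-- `(D)`: there are few small twists -/
theorem cardD (K : ℕ) : ∃ C : ℝ, 0 < C ∧
    ∀ X : ℕ, 3 ≤ X → ∀ S ⊆ sqf X, (∀ d ∈ S, |(d : ℝ)| ≤ Real.sqrt X) →
      (S.card : ℝ) ≤ C * X / Real.log X ^ K := by
  refine ⟨3 * (2 ^ K * K.factorial), by positivity, fun X hX S hS hbad => ?_⟩
  have hX0 : (0 : ℝ) < X := by exact_mod_cast (by omega : 0 < X)
  have hX1 : (1 : ℝ) ≤ X := by exact_mod_cast (by omega : 1 ≤ X)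
  have hl1 := one_le_logX hX
  set L := Real.log X with hL
  have hL0 : 0 < L := by linarith
  set m : ℕ := ⌊Real.sqrt X⌋₊ with hm
  have hs1 : 1 ≤ Real.sqrt X := Real.one_le_sqrt.2 hX1
  have h1 : S ⊆ Finset.Icc (-(m : ℤ)) m := by
    intro d hd
    have h2 := hbad d hd
    have h3 : (|d| : ℤ).toNat ≤ m := by
      rw [hm, Nat.le_floor_iff (by positivity)]
      have h4 : (((|d| : ℤ).toNat : ℕ) : ℝ) = |(d : ℝ)| := by
        have h5 : (((|d| : ℤ).toNat : ℕ) : ℤ) = |d| := Int.toNat_of_nonneg (abs_nonneg d)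
        have h6 : ((((|d| : ℤ).toNat : ℕ) : ℤ) : ℝ) = ((|d| : ℤ) : ℝ) := by rw [h5]
        rw [Int.cast_abs] at h6
        exact_mod_cast h6
      rw [h4]
      exact h2
    have h5 : |d| ≤ (m : ℤ) := by
      have := Int.toNat_of_nonneg (abs_nonneg d)
      omega
    rw [Finset.mem_Icc]
    exact abs_le.1 h5
  have h2 : (S.card : ℝ) ≤ 3 * Real.sqrt X := by
    have h3 := Finset.card_le_card h1
    rw [Int.card_Icc] at h3
    have h4 : S.card ≤ 2 * m + 1 := by omega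
    have h5 : (S.card : ℝ) ≤ 2 * m + 1 := by exact_mod_cast h4
    have h6 : (m : ℝ) ≤ Real.sqrt X := Nat.floor_le (by positivity)
    linarith
  have h3 : L ^ K ≤ 2 ^ K * K.factorial * Real.sqrt X := by
    have h4 := Real.pow_div_factorial_le_exp (L / 2) (by positivity) K
    have h5 : Real.exp (L / 2) = Real.sqrt X := by
      rw [Real.sqrt_eq_rpow, Real.rpow_def_of_pos hX0, ← hL]
      congr 1
      ring
    rw [h5, div_le_iff₀ (by positivity), div_pow, div_le_iff₀ (by positivity)] at h4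
    linarith
  have h4 : Real.sqrt X * Real.sqrt X = X := Real.mul_self_sqrt hX0.le
  rw [le_div_iff₀ (by positivity)]
  calc (S.card : ℝ) * L ^ K ≤ (3 * Real.sqrt X) * (2 ^ K * K.factorial * Real.sqrt X) := by gcongr
    _ = 3 * (2 ^ K * K.factorial) * (Real.sqrt X * Real.sqrt X) := by ring
    _ = _ := by rw [h4]

end Pool.Agent.H564.QH
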