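import Pool.Agent.H564.QH.C2
import Pool.Agent.H564.QH.C3
import Pool.Agent.H564.QH.C4

/-!
# Size of the `L`-functions of almost all quadratic twists near the critical line
-/

set_option autoImplicit false

open Complex MeasureTheory Filter Topology Set MatrixGroups CongruenceSubgroup
open UpperHalfPlane hiding I
open Pool.Agent.Y19.QT (Twists Hecke IsFormOf sqf mem_sqf Mol)
open Pool.Agent.H466.HF (LL gE gE_kern LL_series newf_facts cpow_exp)
open Pool.Agent.Y180.QT12b2 (Ep)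
open Pool.Agent.Y474.QTZ6 (YY)

namespace Pool.Agent.H564.QH

/-- Phragmén-Lindelöf in the strip `1/2 ≤ Re s ≤ 3` -/
theorem pl_strip {g : ℂ → ℂ} (hg : Differentiable ℂ g) {C0 : ℝ}
    (hgr : ∀ s : ℂ, 1 / 4 ≤ s.re → s.re ≤ 3 → ‖g s‖ ≤ C0 * Real.exp (Real.pi / 32 * |s.im|))
    {B : ℝ} (k : ℕ) (h1 : ∀ t : ℝ, ‖g (1 / 2 + t * I)‖ ≤ B * (2 + |t|) ^ k)
    (h3 : ∀ s : ℂ, s.re = 3 → ‖g s‖ ≤ B) {s : ℂ} (hs1 : 1 / 2 ≤ s.re) (hs2 : s.re ≤ 3) :
    ‖g s‖ ≤ B * 6 ^ k * (2 + |s.im|) ^ k := by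
  have hB : 0 ≤ B := (norm_nonneg _).trans (h3 3 (by norm_num))
  have hn : ∀ z : ℂ, 0 ≤ z.re → 3 ≤ ‖z + 3‖ := by
    intro z hz
    have h5 := (le_abs_self _).trans (Complex.abs_re_le_norm (z + 3))
    have h6 : (z + 3).re = z.re + 3 := by simp
    rw [h6] at h5
    linarith
  set f : ℂ → ℂ := fun s => g s / (s + 3) ^ k with hf
  have hnf : ∀ z : ℂ, ‖f z‖ = ‖g z‖ / ‖z + 3‖ ^ k := by
    intro z
    rw [hf]
    simp only [norm_div, norm_pow]
  have hcl : closure (Complex.re ⁻¹' Ioo (1 / 2 : ℝ) 3) ⊆ {s : ℂ | 0 < s.re} := by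
    intro s hs
    have h1 : s ∈ Complex.re ⁻¹' Icc (1 / 2 : ℝ) 3 := by
      refine closure_minimal (preimage_mono Ioo_subset_Icc_self) ?_ hs
      exact isClosed_Icc.preimage Complex.continuous_re
    have h2 : (1 / 2 : ℝ) ≤ s.re := h1.1
    show 0 < s.re
    linarith
  have key : ‖f s‖ ≤ B * 2 ^ k := by
    refine PhragmenLindelof.vertical_strip (a := 1 / 2) (b := 3) (f := f) ?_ ?_ ?_ ?_ hs1 hs2
    · refine DifferentiableOn.diffContOnCl fun z hz => ?_
      have hz0 : 0 < z.re := hcl hz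
      have h4 : (z + 3) ^ k ≠ 0 := by
        apply pow_ne_zero
        intro h
        have := hn z hz0.le
        rw [h, norm_zero] at this
        linarith
      exact (DifferentiableAt.div (hg z) (by fun_prop) h4).differentiableWithinAt
    · refine ⟨1, ?_, 1, ?_⟩
      · rw [lt_div_iff₀ (by norm_num)]
        linarith [Real.pi_gt_three]
      · refine Asymptotics.IsBigO.of_bound (|C0|) ?_
        rw [eventually_inf_principal]
        refine Eventually.of_forall fun z hz => ?_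
        have hz1 : 1 / 2 < z.re := hz.1
        have hz2 : z.re < 3 := hz.2
        rw [hnf, Real.norm_of_nonneg (Real.exp_pos _).le]
        have h5 := hgr z (by linarith) hz2.le
        have h6 : ‖g z‖ / ‖z + 3‖ ^ k ≤ ‖g z‖ := by
          apply div_le_self (norm_nonneg _)
          apply one_le_pow₀
          have := hn z (by linarith)
          linarith
        refine h6.trans (h5.trans ?_)
        have h7 : Real.exp (Real.pi / 32 * |z.im|) ≤ Real.exp (1 * Real.exp (1 * |z.im|)) := by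
          apply Real.exp_le_exp.2
          rw [one_mul, one_mul]
          have h8 := Real.add_one_le_exp |z.im|
          have h9 := Real.pi_lt_four
          have h10 := abs_nonneg z.im
          nlinarith
        calc C0 * Real.exp (Real.pi / 32 * |z.im|) ≤ |C0| * Real.exp (Real.pi / 32 * |z.im|) :=
              mul_le_mul_of_nonneg_right (le_abs_self _) (Real.exp_pos _).le
          _ ≤ _ := mul_le_mul_of_nonneg_left h7 (abs_nonneg _)
    · intro z hz
      have h4 : z = 1 / 2 + (z.im : ℂ) * I := by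
        apply Complex.ext
        · simp [hz]
        · simp
      have h5 := h1 z.im
      rw [← h4] at h5
      have h6 : 0 < ‖z + 3‖ := by have := hn z (by rw [hz]; norm_num); linarith
      rw [hnf, div_le_iff₀ (by positivity)]
      refine h5.trans ?_
      rw [mul_assoc, ← mul_pow]
      apply mul_le_mul_of_nonneg_left _ hB
      apply pow_le_pow_left₀ (by positivity)
      have h7 := Complex.abs_im_le_norm (z + 3)
      have h8 : (z + 3).im = z.im := by simp
      rw [h8] at h7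
      have h9 := hn z (by rw [hz]; norm_num)
      linarith
    · intro z hz
      have h6 := hn z (by rw [hz]; norm_num)
      rw [hnf, div_le_iff₀ (by positivity)]
      refine (h3 z hz).trans ?_
      rw [mul_assoc]
      apply le_mul_of_one_le_right hB
      rw [← mul_pow]
      apply one_le_pow₀
      linarith
  have h6 := hn s (by linarith)
  have h7 : 0 < ‖s + 3‖ := by linarith
  rw [hnf, div_le_iff₀ (by positivity)] at key
  refine key.trans ?_
  have h8 : ‖s + 3‖ ≤ 3 * (2 + |s.im|) := by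
    have h9 := Complex.norm_le_abs_re_add_abs_im (s + 3)
    have h10 : (s + 3).im = s.im := by simp
    have h11 : (s + 3).re = s.re + 3 := by simp
    rw [h10, h11, abs_of_nonneg (by linarith)] at h9
    have := abs_nonneg s.im
    linarith
  calc B * 2 ^ k * ‖s + 3‖ ^ k ≤ B * 2 ^ k * (3 * (2 + |s.im|)) ^ k := by gcongr
    _ = B * 6 ^ k * (2 + |s.im|) ^ k := by
        rw [mul_pow, show (6 : ℝ) = 2 * 3 by norm_num, mul_pow]
        ring

variable {Q : ℕ} {lam : ℕ → ℝ}

/-- the properties of a good twist -/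
structure Good (T : Twists Q lam) (X : ℕ) (K3 : ℝ) (kB kC : ℕ) (d : ℤ) : Prop where
  A : ∀ s : ℂ, K3 * lm X s.im / Real.log X ≤ 1 / 8 →
      1 / 2 + 4 * (K3 * lm X s.im / Real.log X) ≤ s.re →
      s.re ≤ 1 + K3 * lm X s.im / Real.log X / 16 →
      ‖T.Lq d s * Mol Q lam (YY X) d s - 1‖ < 1 / 2
  B : ∀ s : ℂ, 1 / 2 + 1 / (16 * Real.log X) ≤ s.re → s.re ≤ 3 / 2 →
      ‖Mol Q lam (YY X) d s‖ < Real.exp (kB * lm X s.im)
  C : ∀ t : ℝ, ‖T.ell d (1 / 2 + t * I)‖ < Real.exp (kC * lm X t)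
  D : Real.sqrt X < |(d : ℝ)|

theorem exists_good (T : Twists Q lam) (K : ℕ) : ∃ (C K3 : ℝ) (kB kC : ℕ), 0 < C ∧ 1 ≤ K3 ∧
    ∀ X : ℕ, 3 ≤ X → ∃ S ⊆ sqf X, (S.card : ℝ) ≤ C * X / Real.log X ^ K ∧
      ∀ d ∈ sqf X, d ∉ S → Good T X K3 kB kC d := by
  classical
  obtain ⟨CA, K3, hCA, hK3, hA⟩ := cardA T K
  obtain ⟨CB, kB, hCB, hB⟩ := cardB T K
  obtain ⟨CC, kC, hCC, hC⟩ := cardC T K
  obtain ⟨CD, hCD, hD⟩ := cardD K
  refine ⟨CA + CB + CC + CD, K3, kB, kC, by positivity, hK3, fun X hX => ?_⟩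
  set SA := (sqf X).filter (fun d => ∃ s : ℂ, K3 * lm X s.im / Real.log X ≤ 1 / 8 ∧
      1 / 2 + 4 * (K3 * lm X s.im / Real.log X) ≤ s.re ∧
      s.re ≤ 1 + K3 * lm X s.im / Real.log X / 16 ∧
      1 / 2 ≤ ‖T.Lq d s * Mol Q lam (YY X) d s - 1‖) with hSA
  set SB := (sqf X).filter (fun d => ∃ s : ℂ, 1 / 2 + 1 / (16 * Real.log X) ≤ s.re ∧
      s.re ≤ 3 / 2 ∧ Real.exp (kB * lm X s.im) ≤ ‖Mol Q lam (YY X) d s‖) with hSB
  set SC := (sqf X).filter (fun d => ∃ t : ℝ,
      Real.exp (kC * lm X t) ≤ ‖T.ell d (1 / 2 + t * I)‖) with hSC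
  set SD := (sqf X).filter (fun d : ℤ => |(d : ℝ)| ≤ Real.sqrt X) with hSD
  have hcA := hA X hX SA (Finset.filter_subset _ _) fun d hd => (Finset.mem_filter.1 hd).2
  have hcB := hB X hX SB (Finset.filter_subset _ _) fun d hd => (Finset.mem_filter.1 hd).2
  have hcC := hC X hX SC (Finset.filter_subset _ _) fun d hd => (Finset.mem_filter.1 hd).2
  have hcD := hD X hX SD (Finset.filter_subset _ _) fun d hd => (Finset.mem_filter.1 hd).2
  refine ⟨((SA ∪ SB) ∪ SC) ∪ SD, ?_, ?_, ?_⟩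
  · exact Finset.union_subset (Finset.union_subset (Finset.union_subset (Finset.filter_subset _ _)
      (Finset.filter_subset _ _)) (Finset.filter_subset _ _)) (Finset.filter_subset _ _)
  · have h1 : (((SA ∪ SB) ∪ SC) ∪ SD).card ≤ SA.card + SB.card + SC.card + SD.card := by
      refine (Finset.card_union_le _ _).trans ?_
      have h2 := Finset.card_union_le (SA ∪ SB) SC
      have h3 := Finset.card_union_le SA SB
      omega
    have h2 : ((((SA ∪ SB) ∪ SC) ∪ SD).card : ℝ) ≤ SA.card + SB.card + SC.card + SD.card := by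
      exact_mod_cast h1
    refine h2.trans ((add_le_add (add_le_add (add_le_add hcA hcB) hcC) hcD).trans (le_of_eq ?_))
    ring
  · intro d hd hdS
    simp only [Finset.mem_union, not_or] at hdS
    obtain ⟨⟨⟨h1, h2⟩, h3⟩, h4⟩ := hdS
    rw [hSA, Finset.mem_filter] at h1
    rw [hSB, Finset.mem_filter] at h2
    rw [hSC, Finset.mem_filter] at h3
    rw [hSD, Finset.mem_filter] at h4
    refine ⟨fun s a1 a2 a3 => ?_, fun s a1 a2 => ?_, fun t => ?_, ?_⟩
    · by_contra h
      push Not at h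
      exact h1 ⟨hd, s, a1, a2, a3, h⟩
    · by_contra h
      push Not at h
      exact h2 ⟨hd, s, a1, a2, h⟩
    · by_contra h
      push Not at h
      exact h3 ⟨hd, t, h⟩
    · by_contra h
      push Not at h
      exact h4 ⟨hd, h⟩

section

variable {N : ℕ} [NeZero N] {f : CuspForm (Gamma0 N : Subgroup (GL (Fin 2) ℝ)) 2} {w : ℝ}

/-- the `L`-function of a good twist near the critical line -/
structure Size (f : CuspForm (Gamma0 N : Subgroup (GL (Fin 2) ℝ)) 2) (X : ℕ) (K3 K4 : ℝ)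
    (Lf : ℂ → ℂ) : Prop where
  diff : Differentiable ℂ Lf
  comp : ∀ s : ℂ, 1 / 4 < s.re → LL (gE f) 0 (s - 1 / 2) = Complex.Gamma (s + 1 / 2) *
    ((2 * Real.pi / Real.sqrt N : ℝ) : ℂ) ^ (-(s + 1 / 2)) * Lf s
  up : ∀ s : ℂ, 1 / 2 ≤ s.re → ‖Lf s‖ ≤ Real.exp (K4 * lm X s.im)
  lo : ∀ s : ℂ, K3 * lm X s.im / Real.log X ≤ 1 / 8 →
    1 / 2 + 4 * (K3 * lm X s.im / Real.log X) ≤ s.re → Real.exp (-(K4 * lm X s.im)) ≤ ‖Lf s‖

theorem size_of_good (T : Twists Q lam) {a b : ℤ}
    (hQ : ∀ p : ℕ, p.Prime → (p : ℤ) ∣ 2 * (4 * a ^ 3 + 27 * b ^ 2) → p ∣ Q)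
    (hlam : ∀ p : ℕ, p.Prime → ¬ p ∣ Q → lam p = Pool.Agent.Y19.QT.ap a b p / Real.sqrt p)
    {d : ℤ} (hd : Squarefree d) (hf : W388.IsNewf N 2 f w) (hff : IsFormOf (a * d ^ 2) (b * d ^ 3) N f)
    (hgood : ∀ p : ℕ, p.Prime → ¬ p ∣ N → |W388.lamf f p| ≤ 2)
    (hbad : ∀ p : ℕ, p.Prime → p ∣ N → |W388.lamf f p| ≤ 1) {X : ℕ} (hX : 3 ≤ X)
    {K3 : ℝ} (hK3 : 1 ≤ K3) {kB kC : ℕ} (G : Good T X K3 kB kC d) :
    ∃ Lf : ℂ → ℂ, Size f X K3 (kB + kC + 2 + 4 * Real.log 33 + 2 * Real.log (3 * T.c ^ 2 * 6 ^ kC)) Lf := by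
  obtain ⟨hNq, κ, hκ1, hκ2, hmel, hell⟩ := unique T hQ hlam hd hf hff hgood hbad
  have hc : 1 ≤ T.c := T.one_le_c
  have hc0 : 0 < T.c := by linarith
  have hκn : 0 < ‖κ‖ := lt_of_lt_of_le (by positivity) hκ1
  have hκ0 : κ ≠ 0 := norm_pos_iff.1 hκn
  have hκi : ‖κ⁻¹‖ ≤ T.c := by
    rw [norm_inv, ← inv_inv T.c]
    exact inv_anti₀ (by positivity) hκ1
  have hκi2 : T.c⁻¹ ≤ ‖κ⁻¹‖ := by
    rw [norm_inv]
    exact inv_anti₀ hκn hκ2
  have h8 := Pool.Agent.Y703.QT8.T8a T d hd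
  have hL := one_le_logX hX
  set L := Real.log X with hLdef
  have hL0 : 0 < L := by linarith
  have hlog33 : 1 ≤ Real.log 33 := by
    rw [Real.le_log_iff_exp_le (by norm_num)]
    have := Real.exp_one_lt_d9
    linarith
  set E : ℝ := 3 * T.c ^ 2 * 6 ^ kC with hE
  have h6k : (1 : ℝ) ≤ 6 ^ kC := one_le_pow₀ (by norm_num)
  have hc2 : 1 ≤ T.c ^ 2 := one_le_pow₀ hc
  have hE3 : 3 * T.c ^ 2 ≤ E := by rw [hE]; nlinarith
  have hE1 : 1 ≤ E := by nlinarith
  have hlE : 0 ≤ Real.log E := Real.log_nonneg hE1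
  have hkB : (0 : ℝ) ≤ kB := Nat.cast_nonneg _
  have hkC : (0 : ℝ) ≤ kC := Nat.cast_nonneg _
  have hlm : ∀ t, 1 / 2 ≤ lm X t := fun t => lm_ge hX t
  have hlmL : ∀ t, Real.log L ≤ lm X t := by
    intro t
    have : 0 ≤ Real.log (2 + |t|) := Real.log_nonneg (by have := abs_nonneg t; linarith)
    unfold lm
    linarith
  have hL1 : ∀ s : ℂ, 1 < s.re → κ⁻¹ * T.ell d s = L1 f s := by
    intro s hs
    rw [hell s hs, ← mul_assoc, inv_mul_cancel₀ hκ0, one_mul]
  refine ⟨fun s => κ⁻¹ * T.ell d s, ⟨h8.1.const_mul _, fun s hs => ?_, fun s hs => ?_,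
    fun s hs1 hs2 => ?_⟩⟩
  · have h1 := hmel s hs
    rw [mellin_ell T hd (by linarith), ← hNq] at h1
    calc LL (gE f) 0 (s - 1 / 2) = κ⁻¹ * (κ * LL (gE f) 0 (s - 1 / 2)) := by
          rw [← mul_assoc, inv_mul_cancel₀ hκ0, one_mul]
      _ = _ := by rw [← h1]; ring
  · -- upper bound
    show ‖κ⁻¹ * T.ell d s‖ ≤ _
    rcases le_total s.re 3 with h3 | h3
    · obtain ⟨C0, hC0⟩ := h8.2.2.2
      have h4 := pl_strip h8.1 hC0 (B := 3 * T.c * L ^ kC) kC (fun t => by
        have h5 := (G.C t).le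
        rw [exp_lm hX, ← hLdef] at h5
        refine h5.trans ?_
        have h6 : 0 ≤ L ^ kC * (2 + |t|) ^ kC := by have := abs_nonneg t; positivity
        have h7 : 1 ≤ 3 * T.c := by linarith
        calc L ^ kC * (2 + |t|) ^ kC = 1 * (L ^ kC * (2 + |t|) ^ kC) := by ring
          _ ≤ 3 * T.c * (L ^ kC * (2 + |t|) ^ kC) := mul_le_mul_of_nonneg_right h7 h6
          _ = _ := by ring) (fun z hz => by
        have h5 := (L1_bounds hf hgood hbad (s := z) (by rw [hz]; norm_num)).1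
        rw [hell z (by rw [hz]; norm_num), norm_mul]
        rw [hz] at h5
        have h6 : ‖L1 f z‖ ≤ 3 := h5.trans (by norm_num)
        have h7 : (1 : ℝ) ≤ L ^ kC := one_le_pow₀ hL
        have h9 : ‖κ‖ * ‖L1 f z‖ ≤ T.c * 3 := mul_le_mul hκ2 h6 (norm_nonneg _) hc0.le
        nlinarith) hs h3
      rw [norm_mul]
      have h5 : ‖κ⁻¹‖ * ‖T.ell d s‖ ≤ T.c * (3 * T.c * L ^ kC * 6 ^ kC * (2 + |s.im|) ^ kC) :=
        mul_le_mul hκi h4 (norm_nonneg _) hc0.le
      refine h5.trans ?_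
      have e1 : T.c * (3 * T.c * L ^ kC * 6 ^ kC * (2 + |s.im|) ^ kC) =
          E * Real.exp (kC * lm X s.im) := by
        rw [exp_lm hX, hE]
        ring
      rw [e1]
      calc E * Real.exp (kC * lm X s.im) = Real.exp (Real.log E + kC * lm X s.im) := by
            rw [Real.exp_add, Real.exp_log (by linarith)]
        _ ≤ _ := by
            apply Real.exp_le_exp.2
            have h6 := hlm s.im
            nlinarith
    · have h4 := (L1_bounds hf hgood hbad (s := s) (by linarith)).1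
      rw [hL1 s (by linarith)]
      refine h4.trans ?_
      have h5 : 1 / (s.re - 1) ≤ 1 / 2 := one_div_le_one_div_of_le (by norm_num) (by linarith)
      have h5' : 0 ≤ 1 / (s.re - 1) := one_div_nonneg.2 (by linarith)
      have h6 : (1 + 1 / (s.re - 1)) ^ 2 ≤ Real.exp 1 := by
        have := Real.exp_one_gt_d9
        nlinarith
      refine h6.trans (Real.exp_le_exp.2 ?_)
      have h7 := hlm s.im
      nlinarith
  · -- lower bound
    show _ ≤ ‖κ⁻¹ * T.ell d s‖
    set μ := lm X s.im with hμ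
    have hμ1 := hlm s.im
    rw [← hμ] at hμ1
    set δ := K3 * μ / L with hδ
    have hδL : 1 / (2 * L) ≤ δ := by
      have hKμ : 1 / 2 ≤ K3 * μ := by nlinarith
      rw [hδ, div_le_div_iff₀ (by positivity) hL0]
      nlinarith
    have hδ0 : 0 < δ := lt_of_lt_of_le (by positivity) hδL
    have h4E : Real.exp (-(2 * Real.log E * μ)) ≤ 1 / E := by
      rw [one_div, ← Real.exp_log (show 0 < E by linarith), ← Real.exp_neg, Real.log_exp]
      apply Real.exp_le_exp.2
      nlinarith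
    rcases le_total s.re (1 + δ / 16) with h3 | h3
    · have a1 := G.A s hs1 hs2 h3
      have a2 := G.B s (by
        have e : 1 / (16 * L) = 1 / (2 * L) / 8 := by field_simp; norm_num
        rw [e]
        linarith) (by linarith)
      rw [← hμ] at a2
      have a3 : 1 / 2 ≤ ‖T.Lq d s‖ * ‖Mol Q lam (YY X) d s‖ := by
        rw [← norm_mul]
        have h4 := norm_sub_norm_le (1 : ℂ) (1 - T.Lq d s * Mol Q lam (YY X) d s)
        rw [sub_sub_cancel, norm_one, norm_sub_rev] at h4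
        linarith
      have a4 : ‖T.Lq d s‖ ≤ ‖T.ell d s‖ * T.c := by
        have e : T.Lq d s = T.ell d s * Ep T d s := rfl
        rw [e, norm_mul]
        have : 0 < lm X s.im := by linarith
        exact mul_le_mul_of_nonneg_left (Ep_up T hd (by linarith)) (norm_nonneg _)
      have a5 : 1 / 2 ≤ (‖T.ell d s‖ * T.c) * Real.exp (kB * μ) :=
        a3.trans (mul_le_mul a4 a2.le (norm_nonneg _) (by positivity))
      have a6 : Real.exp (-(kB * μ)) / (2 * T.c) ≤ ‖T.ell d s‖ := by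
        rw [div_le_iff₀ (by positivity), Real.exp_neg, inv_le_iff_one_le_mul₀ (Real.exp_pos _)]
        linarith
      rw [norm_mul]
      have a7 : T.c⁻¹ * (Real.exp (-(kB * μ)) / (2 * T.c)) ≤ ‖κ⁻¹‖ * ‖T.ell d s‖ :=
        mul_le_mul hκi2 a6 (by positivity) (norm_nonneg _)
      refine le_trans ?_ a7
      have a8 : 1 / E ≤ 1 / (2 * T.c ^ 2) := one_div_le_one_div_of_le (by positivity) (by linarith)
      calc Real.exp (-((kB + kC + 2 + 4 * Real.log 33 + 2 * Real.log E) * μ))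
          ≤ Real.exp (-(2 * Real.log E * μ) + -(kB * μ)) := by
            apply Real.exp_le_exp.2
            nlinarith
        _ = Real.exp (-(2 * Real.log E * μ)) * Real.exp (-(kB * μ)) := Real.exp_add _ _
        _ ≤ (1 / (2 * T.c ^ 2)) * Real.exp (-(kB * μ)) :=
            mul_le_mul_of_nonneg_right (h4E.trans a8) (Real.exp_pos _).le
        _ = _ := by field_simp
    · have h4 : 1 < s.re := by linarith
      have h5 := (L1_bounds hf hgood hbad (s := s) h4).2
      rw [hL1 s h4]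
      have h6 : 1 + 1 / (s.re - 1) ≤ 33 * L := by
        have h7 : 1 / (32 * L) ≤ s.re - 1 := by
          have e : 1 / (32 * L) = 1 / (2 * L) / 16 := by field_simp; norm_num
          rw [e]
          linarith
        have h8 := one_div_le_one_div_of_le (by positivity) h7
        rw [one_div_one_div] at h8
        linarith
      have h6' : 0 ≤ 1 / (s.re - 1) := one_div_nonneg.2 (by linarith)
      have h7 : (1 + 1 / (s.re - 1)) ^ 2 ≤ (33 * L) ^ 2 := pow_le_pow_left₀ (by linarith) h6 2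
      have h8 : 1 ≤ ‖L1 f s‖ * (33 * L) ^ 2 :=
        h5.trans (mul_le_mul_of_nonneg_left h7 (norm_nonneg _))
      have h9 : Real.exp (-(2 * (Real.log 33 + Real.log L))) ≤ ‖L1 f s‖ := by
        have e : 2 * (Real.log 33 + Real.log L) = Real.log ((33 * L) ^ 2) := by
          rw [Real.log_pow, Real.log_mul (by norm_num) hL0.ne']
          push_cast
          ring
        rw [e, Real.exp_neg, Real.exp_log (by positivity), inv_le_iff_one_le_mul₀ (by positivity)]
        exact h8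
      refine le_trans (Real.exp_le_exp.2 ?_) h9
      have h10 := hlmL s.im
      rw [← hμ] at h10
      nlinarith

end

end Pool.Agent.H564.QH
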