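import Mathlib

/-!
# Two completed functions with functional equations of different conductors coincide
-/

set_option autoImplicit false

open Complex Filter Topology Set

namespace Pool.Agent.H564.QH

/-- Let `M1`, `M2` be entire functions with functional equations `s → 1 - s`, whose quotient is
`A^(s+1/2) G(s)` in `Re s > 1/4` with `G` bounded above and below in `Re s ≥ 1/2`.  Then the quotient
is constant. -/
theorem glue (M1 M2 : ℂ → ℂ) (h1 : Differentiable ℂ M1) (w1 w2 : ℂ)
    (hw1 : w1 ^ 2 = 1) (hw2 : w2 ^ 2 = 1)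
    (f1 : ∀ s, M1 (1 - s) = w1 * M1 s) (f2 : ∀ s, M2 (1 - s) = w2 * M2 s)
    (A : ℝ) (hA : 0 < A) (G : ℂ → ℂ) (hG : DifferentiableOn ℂ G {s | 1 / 4 < s.re}) (c C : ℝ)
    (hc : 0 < c) (hlo : ∀ s : ℂ, 1 / 2 ≤ s.re → c ≤ ‖G s‖) (hup : ∀ s : ℂ, 1 / 2 ≤ s.re → ‖G s‖ ≤ C)
    (hM : ∀ s : ℂ, 1 / 4 < s.re → M2 s = (A : ℂ) ^ (s + 1 / 2) * G s * M1 s)
    (hne : ∃ s, M1 s ≠ 0) :
    ∃ κ : ℂ, κ ≠ 0 ∧ ∀ s : ℂ, 1 / 4 < s.re → (A : ℂ) ^ (s + 1 / 2) * G s = κ := by
  set U : Set ℂ := {s | 1 / 4 < s.re} with hU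
  have hUo : IsOpen U := isOpen_lt continuous_const Complex.continuous_re
  have hAc : (A : ℂ) ≠ 0 := by exact_mod_cast hA.ne'
  set P : ℂ → ℂ := fun s => (A : ℂ) ^ (s + 1 / 2) * G s with hP
  have hPow : Differentiable ℂ fun s : ℂ => (A : ℂ) ^ (s + 1 / 2) := fun s =>
    DifferentiableAt.const_cpow (by fun_prop) (Or.inl hAc)
  have hPd : DifferentiableOn ℂ P U := hPow.differentiableOn.mul hG
  have nP : ∀ s : ℂ, ‖P s‖ = A ^ (s.re + 1 / 2) * ‖G s‖ := by
    intro s
    rw [hP]
    simp only [norm_mul]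
    rw [Complex.norm_cpow_eq_rpow_re_of_pos hA]
    simp
  set w : ℂ := w1 * w2 with hw
  have hw1n : ‖w1‖ = 1 := by
    have : ‖w1‖ ^ 2 = 1 := by rw [← norm_pow, hw1, norm_one]
    nlinarith [norm_nonneg w1]
  have hw2n : ‖w2‖ = 1 := by
    have : ‖w2‖ ^ 2 = 1 := by rw [← norm_pow, hw2, norm_one]
    nlinarith [norm_nonneg w2]
  have hwn : ‖w‖ = 1 := by rw [hw, norm_mul, hw1n, hw2n, one_mul]
  have hw0 : w ≠ 0 := by
    intro h
    rw [h, norm_zero] at hwn
    norm_num at hwn
  -- the relation in the strip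
  set V : Set ℂ := {s | 1 / 4 < s.re} ∩ {s | s.re < 3 / 4} with hV
  have hVo : IsOpen V := hUo.inter (isOpen_lt Complex.continuous_re continuous_const)
  have hVc : IsPreconnected V :=
    ((convex_halfSpace_re_gt (1 / 4)).inter (convex_halfSpace_re_lt (3 / 4))).isPreconnected
  have hmem : ∀ s : ℂ, s.re < 3 / 4 → (1 - s) ∈ U := by
    intro s hs
    show 1 / 4 < (1 - s).re
    rw [sub_re, one_re]
    linarith
  have hrel : ∀ s ∈ V, P s = w * P (1 - s) := by
    have ha : AnalyticOnNhd ℂ (fun s => w1 * P (1 - s) - w2 * P s) V := by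
      apply DifferentiableOn.analyticOnNhd _ hVo
      refine DifferentiableOn.sub (DifferentiableOn.const_mul ?_ _)
        (DifferentiableOn.const_mul (hPd.mono fun s hs => hs.1) _)
      exact hPd.comp (by fun_prop) (fun s hs => hmem s hs.2)
    have hb : AnalyticOnNhd ℂ M1 V := h1.differentiableOn.analyticOnNhd hVo
    have hz : ∀ s ∈ V, (fun s => w1 * P (1 - s) - w2 * P s) s * M1 s = 0 := by
      intro s hs
      have e1 := hM s hs.1
      have e2 := hM (1 - s) (hmem s hs.2)
      have e3 : M2 s = P s * M1 s := e1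
      have e4 : M2 (1 - s) = P (1 - s) * M1 (1 - s) := e2
      show (w1 * P (1 - s) - w2 * P s) * M1 s = 0
      rw [f1, f2, e3] at e4
      linear_combination -e4
    rcases AnalyticOnNhd.eq_zero_or_eq_zero_of_mul_eq_zero ha hb hz hVc with h | h
    · intro s hs
      have h3 : w1 * P (1 - s) - w2 * P s = 0 := h s hs
      calc P s = w2 ^ 2 * P s := by rw [hw2, one_mul]
        _ = w2 * (w1 * P (1 - s)) := by rw [sub_eq_zero.mp h3]; ring
        _ = w * P (1 - s) := by rw [hw]; ring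
    · exfalso
      obtain ⟨s0, hs0⟩ := hne
      apply hs0
      have h4 : AnalyticOnNhd ℂ M1 univ := h1.differentiableOn.analyticOnNhd isOpen_univ
      have h5 : (1 / 2 : ℂ) ∈ V := by
        constructor
        · show 1 / 4 < (1 / 2 : ℂ).re
          norm_num
        · show (1 / 2 : ℂ).re < 3 / 4
          norm_num
      have h6 := h4.eqOn_zero_of_preconnected_of_eventuallyEq_zero isPreconnected_univ (mem_univ (1 / 2))
        (Filter.eventually_of_mem (hVo.mem_nhds h5) h)
      exact h6 (mem_univ s0)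
  classical
  set H : ℂ → ℂ := fun s => if 1 / 2 < s.re then P s else w * P (1 - s) with hH
  have hH1 : ∀ s ∈ U, H s = P s := by
    intro s hs
    rw [hH]
    simp only
    split_ifs with h
    · rfl
    · push Not at h
      exact (hrel s ⟨hs, by show s.re < 3 / 4; linarith⟩).symm
  have hww : w * w = 1 := by rw [hw]; linear_combination w2 ^ 2 * hw1 + hw2
  have hH2 : ∀ s : ℂ, s.re < 3 / 4 → H s = w * P (1 - s) := by
    intro s hs
    rw [hH]
    simp only
    split_ifs with h
    · exact hrel s ⟨by show 1 / 4 < s.re; linarith, hs⟩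
    · rfl
  have hHd : Differentiable ℂ H := by
    intro s
    by_cases hs : 1 / 4 < s.re
    · have : H =ᶠ[𝓝 s] P := Filter.eventually_of_mem (hUo.mem_nhds hs) hH1
      exact (hPd.differentiableAt (hUo.mem_nhds hs)).congr_of_eventuallyEq this
    · push Not at hs
      have ho : IsOpen {s : ℂ | s.re < 3 / 4} := isOpen_lt Complex.continuous_re continuous_const
      have hm : s ∈ {s : ℂ | s.re < 3 / 4} := by show s.re < 3 / 4; linarith
      have h3 : H =ᶠ[𝓝 s] fun s => w * P (1 - s) := Filter.eventually_of_mem (ho.mem_nhds hm) hH2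
      refine DifferentiableAt.congr_of_eventuallyEq ?_ h3
      have h4 : DifferentiableAt ℂ P (1 - s) :=
        hPd.differentiableAt (hUo.mem_nhds (hmem s hm))
      have h5 : DifferentiableAt ℂ (fun s : ℂ => 1 - s) s := by fun_prop
      exact (h4.comp s h5).const_mul w
  -- reduction of norms to the right half plane
  have hHn : ∀ s : ℂ, ∃ s' : ℂ, 1 / 2 ≤ s'.re ∧ ‖H s‖ = ‖P s'‖ := by
    intro s
    by_cases hs : 1 / 2 < s.re
    · exact ⟨s, hs.le, by rw [hH1 s (by show 1 / 4 < s.re; linarith)]⟩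
    · push Not at hs
      refine ⟨1 - s, by rw [sub_re, one_re]; linarith, ?_⟩
      rw [hH2 s (by linarith), norm_mul, hwn, one_mul]
  have hHne : ∀ s, H s ≠ 0 := by
    intro s h
    obtain ⟨s', h3, h4⟩ := hHn s
    rw [h, norm_zero, nP] at h4
    have := hlo s' h3
    have h5 : 0 < A ^ (s'.re + 1 / 2) * ‖G s'‖ := mul_pos (Real.rpow_pos_of_pos hA _) (by linarith)
    linarith
  have hconst : ∀ s, H s = H 1 := by
    rcases le_total A 1 with hA1 | hA1
    · intro s
      apply hHd.apply_eq_apply_of_bounded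
      rw [isBounded_iff_forall_norm_le]
      refine ⟨C, ?_⟩
      rintro _ ⟨s, rfl⟩
      obtain ⟨s', h3, h4⟩ := hHn s
      rw [h4, nP]
      have h5 : A ^ (s'.re + 1 / 2) ≤ 1 := Real.rpow_le_one hA.le hA1 (by linarith)
      have h6 := hup s' h3
      have h7 := norm_nonneg (G s')
      nlinarith
    · intro s
      have h3 : Differentiable ℂ fun s => (H s)⁻¹ := fun s => (hHd s).inv (hHne s)
      have h4 : (H s)⁻¹ = (H 1)⁻¹ := by
        apply h3.apply_eq_apply_of_bounded
        rw [isBounded_iff_forall_norm_le]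
        refine ⟨c⁻¹, ?_⟩
        rintro _ ⟨s, rfl⟩
        obtain ⟨s', h3, h4⟩ := hHn s
        simp only [norm_inv]
        rw [h4, nP]
        have h5 : 1 ≤ A ^ (s'.re + 1 / 2) := Real.one_le_rpow hA1 (by linarith)
        have h6 := hlo s' h3
        apply inv_anti₀ hc
        nlinarith
      exact inv_injective h4
  refine ⟨H 1, hHne 1, fun s hs => ?_⟩
  rw [← hconst s, hH1 s hs]

end Pool.Agent.H564.QH
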