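import Pool.Agent.H564.QH.A1
import Pool.Graph.R_seed8.Y19.QT.ZD3
import Pool.Graph.R_seed8.Y19.QT.Fac
import Pool.Agent.H466.HF.EC4

/-!
# The `L`-functions of a family of quadratic twists are those of the newforms of the curves
-/

set_option autoImplicit false

open Complex MeasureTheory Filter Topology Set MatrixGroups CongruenceSubgroup
open UpperHalfPlane hiding I
open Pool.Agent.H306R2.RZ (js)
open Pool.Agent.Y19.QT (Twists Hecke IsFormOf sqf)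
open Pool.Agent.Y705.QT (hL hL_euler hL_summable lf hE_bound ls_diff tsum_eq_ls ap_twist js_prime)
open Pool.Agent.H466.HF (LL gE gE_kern LL_series newf_facts cpow_exp)

namespace Pool.Agent.H564.QH

section

variable {N : ℕ} [NeZero N] {f : CuspForm (Gamma0 N : Subgroup (GL (Fin 2) ℝ)) 2} {w : ℝ}

theorem norm_lamf {N : ℕ} (f : CuspForm (Gamma0 N : Subgroup (GL (Fin 2) ℝ)) 2) (p : ℕ)
    (hp : p.Prime) {B : ℝ} (h : ‖(qExpansion 1 f).coeff p‖ ≤ B * Real.sqrt p) :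
    |W388.lamf f p| ≤ B := by
  have hp0 : (0 : ℝ) < p := by exact_mod_cast hp.pos
  have e : ((p : ℝ) ^ ((((2 : ℤ) : ℝ) - 1) / 2)) = Real.sqrt p := by
    rw [Real.sqrt_eq_rpow]
    norm_num
  unfold W388.lamf
  rw [e, abs_div, abs_of_pos (Real.sqrt_pos.mpr hp0), div_le_iff₀ (Real.sqrt_pos.mpr hp0)]
  exact (Complex.abs_re_le_norm _).trans h

/-- translation of the hypotheses -/
theorem newf_of {a b : ℤ} {N : ℕ} {f : CuspForm (Gamma0 N : Subgroup (GL (Fin 2) ℝ)) 2}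
    (hf : IsFormOf a b N f) : ∃ w : ℝ, W388.IsNewf N 2 f w ∧
    (∀ p : ℕ, p.Prime → ¬ p ∣ N → |W388.lamf f p| ≤ 2) ∧
    (∀ p : ℕ, p.Prime → p ∣ N → |W388.lamf f p| ≤ 1) := by
  obtain ⟨w, hw, hfr⟩ := hf.fricke
  have hN0 : (0 : ℝ) ≤ (N : ℝ) := Nat.cast_nonneg N
  have hsq : ((Real.sqrt N : ℝ) : ℂ) ^ 2 = (N : ℂ) := by
    have h1 : (Real.sqrt N) ^ 2 = (N : ℝ) := Real.sq_sqrt hN0
    exact_mod_cast congrArg (fun x : ℝ => (x : ℂ)) h1
  refine ⟨w, ⟨hf.one, hf.real, hf.mul, ?_, hw, ?_⟩, ?_, ?_⟩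
  · intro p j hp
    have h1 := hf.pow p j hp
    unfold Pool.Agent.Y19.QT.coef at h1
    rw [h1]
    norm_num
  · intro τ τ' h
    rw [hfr τ τ' h]
    congr 1
    have hI : Complex.I ^ 2 = -1 := Complex.I_sq
    have : (((Real.sqrt N : ℝ) : ℂ) * (τ : ℂ) / Complex.I) ^ (2 : ℤ) = -((N : ℂ) * (τ : ℂ) ^ 2) := by
      rw [zpow_ofNat, div_pow, mul_pow, hsq, hI]
      ring
    rw [this]
    ring
  · exact fun p hp hpN => norm_lamf f p hp (hf.good p hp hpN)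
  · intro p hp hpN
    refine norm_lamf f p hp ?_
    have h1 : (1 : ℝ) ≤ Real.sqrt p := by
      rw [Real.one_le_sqrt]
      exact_mod_cast hp.one_le
    rw [one_mul]
    exact (hf.bad p hp hpN).trans h1

/-- inverse Euler factor -/
noncomputable def fac (f : CuspForm (Gamma0 N : Subgroup (GL (Fin 2) ℝ)) 2) (s : ℂ) (p : ℕ) : ℂ :=
  1 - (W388.lamf f p : ℂ) * (p : ℂ) ^ (-s) + (if p ∣ N then 0 else (p : ℂ) ^ (-2 * s))

/-- the Dirichlet series -/
noncomputable def L1 (f : CuspForm (Gamma0 N : Subgroup (GL (Fin 2) ℝ)) 2) (s : ℂ) : ℂ :=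
  ∑' n : ℕ, (W388.lamf f n : ℂ) * (n : ℂ) ^ (-s)

omit [NeZero N] in
lemma norm_pcpow {p : ℕ} (hp : p.Prime) (s : ℂ) : ‖(p : ℂ) ^ (-s)‖ = (p : ℝ) ^ (-s.re) := by
  rw [norm_natCast_cpow_of_pos hp.pos, neg_re]

omit [NeZero N] in
lemma pcpow_le {p : ℕ} (hp : p.Prime) {s : ℂ} (hs : 1 / 2 ≤ s.re) : ‖(p : ℂ) ^ (-s)‖ ≤ 3 / 4 := by
  rw [norm_pcpow hp]
  have h2 : (2 : ℝ) ≤ p := by exact_mod_cast hp.two_le
  calc (p : ℝ) ^ (-s.re) ≤ (p : ℝ) ^ (-(1 / 2) : ℝ) :=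
        Real.rpow_le_rpow_of_exponent_le (by linarith) (by linarith)
    _ ≤ (2 : ℝ) ^ (-(1 / 2) : ℝ) := Real.rpow_le_rpow_of_nonpos two_pos h2 (by norm_num)
    _ = (Real.sqrt 2)⁻¹ := by rw [Real.rpow_neg (by norm_num), Real.sqrt_eq_rpow]
    _ ≤ 3 / 4 := by
        rw [inv_le_comm₀ (by positivity) (by norm_num)]
        rw [Real.le_sqrt (by norm_num) (by norm_num)]
        norm_num

omit [NeZero N] in
lemma fac_lo (hgood : ∀ p : ℕ, p.Prime → ¬ p ∣ N → |W388.lamf f p| ≤ 2)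
    (hbad : ∀ p : ℕ, p.Prime → p ∣ N → |W388.lamf f p| ≤ 1) {p : ℕ} (hp : p.Prime) {s : ℂ}
    (hs : 1 / 2 ≤ s.re) : 1 / 16 ≤ ‖fac f s p‖ := by
  have hy := pcpow_le hp hs
  have hy0 := norm_nonneg ((p : ℂ) ^ (-s))
  have hpc : (p : ℂ) ≠ 0 := by exact_mod_cast hp.ne_zero
  unfold fac
  split_ifs with h
  · have h1 := hbad p hp h
    have h2 : ‖(W388.lamf f p : ℂ) * (p : ℂ) ^ (-s)‖ ≤ 3 / 4 := by
      rw [norm_mul, Complex.norm_real, Real.norm_eq_abs]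
      have := abs_nonneg (W388.lamf f p)
      nlinarith
    have h3 := norm_sub_norm_le (1 : ℂ) ((W388.lamf f p : ℂ) * (p : ℂ) ^ (-s))
    rw [norm_one] at h3
    rw [add_zero]
    linarith
  · have h1 := Pool.Agent.Y19.QT.quad_lb _ (hgood p hp h) ((p : ℂ) ^ (-s)) (by linarith)
    have e : (p : ℂ) ^ (-2 * s) = ((p : ℂ) ^ (-s)) ^ 2 := by
      rw [← Complex.cpow_nat_mul]
      congr 1
      push_cast
      ring
    rw [e]
    refine le_trans ?_ h1
    nlinarith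

omit [NeZero N] in
lemma fac_up (hgood : ∀ p : ℕ, p.Prime → ¬ p ∣ N → |W388.lamf f p| ≤ 2)
    (hbad : ∀ p : ℕ, p.Prime → p ∣ N → |W388.lamf f p| ≤ 1) {p : ℕ} (hp : p.Prime) {s : ℂ}
    (hs : 1 / 2 ≤ s.re) : ‖fac f s p‖ ≤ 4 := by
  have hy := pcpow_le hp hs
  have hy0 := norm_nonneg ((p : ℂ) ^ (-s))
  have hl : |W388.lamf f p| ≤ 2 := by
    by_cases h : p ∣ N
    · exact (hbad p hp h).trans (by norm_num)
    · exact hgood p hp h
  have e : (p : ℂ) ^ (-2 * s) = ((p : ℂ) ^ (-s)) ^ 2 := by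
    rw [← Complex.cpow_nat_mul]
    congr 1
    push_cast
    ring
  have h4 : ‖(if p ∣ N then (0 : ℂ) else (p : ℂ) ^ (-2 * s))‖ ≤ 1 := by
    split_ifs
    · simp
    · rw [e, norm_pow]
      nlinarith
  have h2 : ‖(W388.lamf f p : ℂ) * (p : ℂ) ^ (-s)‖ ≤ 2 := by
    rw [norm_mul, Complex.norm_real, Real.norm_eq_abs]
    have := abs_nonneg (W388.lamf f p)
    nlinarith
  unfold fac
  calc _ ≤ ‖(1 : ℂ)‖ + ‖(W388.lamf f p : ℂ) * (p : ℂ) ^ (-s)‖ +
        ‖(if p ∣ N then (0 : ℂ) else (p : ℂ) ^ (-2 * s))‖ :=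
        (norm_add_le _ _).trans (add_le_add_left (norm_sub_le _ _) _)
    _ ≤ 4 := by rw [norm_one]; linarith

omit [NeZero N] in
lemma fac_diff {p : ℕ} (hp : p.Prime) : Differentiable ℂ fun s => fac f s p := by
  have hpc : (p : ℂ) ≠ 0 := by exact_mod_cast hp.ne_zero
  unfold fac
  have h1 : Differentiable ℂ fun s : ℂ => (p : ℂ) ^ (-s) := fun s =>
    DifferentiableAt.const_cpow (by fun_prop) (Or.inl hpc)
  have h2 : Differentiable ℂ fun s : ℂ => (if p ∣ N then (0 : ℂ) else (p : ℂ) ^ (-2 * s)) := by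
    split_ifs
    · exact differentiable_const _
    · exact fun s => DifferentiableAt.const_cpow (by fun_prop) (Or.inl hpc)
  exact ((h1.const_mul _).const_sub 1).add h2

/-- `L1 P = Lq` -/
theorem L1_mul {Q : ℕ} {lam : ℕ → ℝ} (T : Twists Q lam) {a b : ℤ}
    (hQ : ∀ p : ℕ, p.Prime → (p : ℤ) ∣ 2 * (4 * a ^ 3 + 27 * b ^ 2) → p ∣ Q)
    (hlam : ∀ p : ℕ, p.Prime → ¬ p ∣ Q → lam p = Pool.Agent.Y19.QT.ap a b p / Real.sqrt p)
    {d : ℤ} (hd : Squarefree d) (hf : W388.IsNewf N 2 f w) (hff : IsFormOf (a * d ^ 2) (b * d ^ 3) N f)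
    (hgood : ∀ p : ℕ, p.Prime → ¬ p ∣ N → |W388.lamf f p| ≤ 2)
    (hbad : ∀ p : ℕ, p.Prime → p ∣ N → |W388.lamf f p| ≤ 1) {s : ℂ} (hs : 2 < s.re) :
    L1 f s * ∏ p ∈ (Q * d.natAbs).primeFactors, fac f s p = T.Lq d s := by
  classical
  have H := T.hecke
  have hd0 : d.natAbs ≠ 0 := Int.natAbs_ne_zero.2 hd.ne_zero
  set B : Finset ℕ := (Q * d.natAbs).primeFactors with hB
  have hBp : ∀ p ∈ B, p.Prime := fun p hp => Nat.prime_of_mem_primeFactors hp
  have hmemB : ∀ p : ℕ, p.Prime → (p ∈ B ↔ p ∣ Q ∨ (p : ℤ) ∣ d) := by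
    intro p hp
    rw [hB, Nat.mem_primeFactors, hp.dvd_mul, Int.natCast_dvd]
    constructor
    · exact fun h => h.2.1
    · exact fun h => ⟨hp, h, Nat.mul_ne_zero H.pos.ne' hd0⟩
  have h8 := Pool.Agent.Y703.QT8.T8a T d hd
  have hLq : T.Lq d s = LSeries (hL lam d) s := by
    rw [Pool.Agent.Y180.QT12b2.Lq_eq T hd h8.2.1 hs]
    rfl
  rw [hLq]
  have e1 := hL_euler H d s hs
  obtain ⟨-, e2⟩ := newf_facts hf (s := s) (by linarith)
  have e3 : HasProd (fun p : ℕ => if p.Prime then (fac f s p)⁻¹ else 1) (L1 f s) := by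
    have h1 : Function.mulSupport (fun p : ℕ => if p.Prime then (fac f s p)⁻¹ else 1) ⊆
        {p : ℕ | p.Prime} := by
      intro p hp
      by_contra h
      exact hp (if_neg h)
    have h3 : (fun p : Nat.Primes => (if (p : ℕ).Prime then (fac f s p)⁻¹ else 1)) =
        (fun p : Nat.Primes => (1 - (W388.lamf f p : ℂ) * ((p : ℕ) : ℂ) ^ (-s) +
          (if (p : ℕ) ∣ N then 0 else ((p : ℕ) : ℂ) ^ (-2 * s)))⁻¹) :=
      funext fun p => if_pos p.2
    have h4 : HasProd (fun p : Nat.Primes => (if (p : ℕ).Prime then (fac f s p)⁻¹ else 1))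
        (L1 f s) := by
      rw [h3]
      exact e2
    exact (hasProd_subtype_iff_of_mulSupport_subset h1).1 h4
  have e4 : HasProd (fun p => if p ∈ B then fac f s p else 1) (∏ p ∈ B, fac f s p) := by
    have h4 : HasProd (fun p => if p ∈ B then fac f s p else 1)
        (∏ p ∈ B, if p ∈ B then fac f s p else 1) :=
      hasProd_prod_of_ne_finset_one (fun p hp => if_neg hp)
    rwa [Finset.prod_congr rfl fun p hp => if_pos hp] at h4
  refine (e3.mul e4).unique ?_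
  convert e1 using 1
  funext p
  by_cases hp : p.Prime
  swap
  · rw [if_neg hp, if_neg (fun h => hp (hBp p h)), lf, if_neg (by tauto), one_mul]
  rw [if_pos hp]
  by_cases hpB : p ∈ B
  · rw [if_pos hpB]
    have h1 : fac f s p ≠ 0 := by
      have := fac_lo hgood hbad hp (s := s) (by linarith)
      intro h
      rw [h, norm_zero] at this
      norm_num at this
    rw [inv_mul_cancel₀ h1]
    rcases (hmemB p hp).1 hpB with h | h
    · rw [lf, if_neg (by tauto)]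
    · by_cases hpQ : p ∣ Q
      · rw [lf, if_neg (by tauto)]
      · have : Fact p.Prime := ⟨hp⟩
        have e1 : js d p = 0 := by
          rw [js_prime, (ZMod.intCast_zmod_eq_zero_iff_dvd d p).mpr h]
          simp
        rw [lf, if_pos ⟨hp, hpQ⟩, e1]
        simp
  · rw [if_neg hpB, mul_one]
    have h2 : ¬ (p ∣ Q) ∧ ¬ (p : ℤ) ∣ d := by
      have := (hmemB p hp).not.1 hpB
      tauto
    obtain ⟨hpQ, hpd⟩ := h2
    have hpi : Prime (p : ℤ) := Nat.prime_iff_prime_int.mp hp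
    have hpΔ : ¬ (p : ℤ) ∣ 2 * (4 * a ^ 3 + 27 * b ^ 2) := fun h => hpQ (hQ p hp h)
    have hp2 : p ≠ 2 := by
      rintro rfl
      exact hpΔ (dvd_mul_right _ _)
    have : Fact p.Prime := ⟨hp⟩
    have hpD : ¬ (p : ℤ) ∣ 2 * (4 * (a * d ^ 2) ^ 3 + 27 * (b * d ^ 3) ^ 2) := by
      have e : 2 * (4 * (a * d ^ 2) ^ 3 + 27 * (b * d ^ 3) ^ 2) =
        (2 * (4 * a ^ 3 + 27 * b ^ 2)) * d ^ 6 := by ring
      rw [e]
      intro h
      rcases hpi.dvd_or_dvd h with h | h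
      · exact hpΔ h
      · exact hpd (hpi.dvd_of_dvd_pow h)
    obtain ⟨hpN, hcp⟩ := hff.points p hp hpD
    rw [lf, if_pos ⟨hp, hpQ⟩]
    congr 1
    unfold fac
    rw [if_neg hpN]
    have e1 : (js d p : ℂ) ^ 2 = 1 := by
      have hd0 : (d : ZMod p) ≠ 0 := by
        rwa [Ne, ZMod.intCast_zmod_eq_zero_iff_dvd]
      rw [js_prime]
      have e2 := quadraticChar_sq_one hd0
      exact_mod_cast congrArg (fun z : ℤ => (z : ℂ)) e2
    have hp0 : (0 : ℝ) < p := by exact_mod_cast hp.pos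
    have e2 : W388.lamf f p = js d p * lam p := by
      unfold W388.lamf
      have e : ((p : ℝ) ^ ((((2 : ℤ) : ℝ) - 1) / 2)) = Real.sqrt p := by
        rw [Real.sqrt_eq_rpow]
        norm_num
      have e3 : (qExpansion 1 f).coeff p =
          ((Pool.Agent.Y19.QT.ap (a * d ^ 2) (b * d ^ 3) p : ℤ) : ℂ) := hcp
      rw [e, e3, Complex.intCast_re, ap_twist a b d p hp hp2 hpd, hlam p hp hpQ]
      ring
    have e4 : (p : ℂ) ^ (-2 * s) = ((p : ℂ) ^ (-s)) ^ 2 := by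
      rw [← Complex.cpow_nat_mul]
      congr 1
      push_cast
      ring
    rw [e2, e4, mul_pow, e1]
    push_cast
    ring

end

end Pool.Agent.H564.QH
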