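import Pool.Agent.H564.QH.A2

/-!
# The `L`-functions of a family of quadratic twists are those of the newforms of the curves, II
-/

set_option autoImplicit false

open Complex MeasureTheory Filter Topology Set MatrixGroups CongruenceSubgroup
open UpperHalfPlane hiding I
open Pool.Agent.H306R2.RZ (js)
open Pool.Agent.Y19.QT (Twists Hecke IsFormOf sqf)
open Pool.Agent.Y705.QT (hL hL_euler hL_summable lf hE_bound ls_diff tsum_eq_ls ap_twist js_prime)
open Pool.Agent.H466.HF (LL gE gE_kern LL_series newf_facts cpow_exp)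
open Pool.Agent.Y180.QT12b2 (Ep)

namespace Pool.Agent.H564.QH

section

variable {Q : ℕ} {lam : ℕ → ℝ}

lemma EE (T : Twists Q lam) {d : ℤ} (hd : Squarefree d) {s : ℂ} (hs : 1 / 4 ≤ s.re) :
    LSeries (fun n => (T.e d n : ℂ)) s * LSeries (fun n => (T.e' d n : ℂ)) s = 1 := by
  have sE : LSeriesSummable (fun n => (T.e d n : ℂ)) s := (hE_bound _ _ (T.e_sum d hd) s hs).1
  have sE' : LSeriesSummable (fun n => (T.e' d n : ℂ)) s := (hE_bound _ _ (T.e'_sum d hd) s hs).1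
  rw [← LSeries_convolution' sE sE']
  have h5 : LSeries (LSeries.convolution (fun n => (T.e d n : ℂ)) (fun n => (T.e' d n : ℂ))) s =
      LSeries LSeries.delta s := by
    apply LSeries_congr
    intro n hn
    rw [LSeries.convolution_def]
    show ∑ p ∈ n.divisorsAntidiagonal, (T.e d p.1 : ℂ) * (T.e' d p.2 : ℂ) = LSeries.delta n
    have h6 := T.e_inv d hd n (Nat.one_le_iff_ne_zero.mpr hn)
    have h7 : ((∑ x ∈ n.divisorsAntidiagonal, T.e d x.1 * T.e' d x.2 : ℝ) : ℂ) =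
        ((if n = 1 then 1 else 0 : ℝ) : ℂ) := by rw [h6]
    rw [ofReal_sum] at h7
    simp only [ofReal_mul] at h7
    rw [h7, LSeries.delta]
    split_ifs <;> simp
  rw [h5, LSeries_delta]
  rfl

lemma Ep_eq (T : Twists Q lam) {d : ℤ} (hd : Squarefree d) (s : ℂ) :
    Ep T d s = LSeries (fun n => (T.e' d n : ℂ)) s := by
  unfold Pool.Agent.Y180.QT12b2.Ep
  rw [tsum_eq_ls (fun n => (T.e' d n : ℂ)) (by simp [(T.e_zero d hd).2]) s]

lemma Ep_lo (T : Twists Q lam) {d : ℤ} (hd : Squarefree d) {s : ℂ} (hs : 1 / 4 ≤ s.re) :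
    T.c⁻¹ ≤ ‖Ep T d s‖ := by
  have h1 := EE T hd hs
  have h2 := (hE_bound _ _ (T.e_sum d hd) s hs).2
  have h3 : ‖LSeries (fun n => (T.e d n : ℂ)) s‖ * ‖LSeries (fun n => (T.e' d n : ℂ)) s‖ = 1 := by
    rw [← norm_mul, h1, norm_one]
  rw [Ep_eq T hd]
  have hc : 0 < T.c := lt_of_lt_of_le one_pos T.one_le_c
  rw [inv_le_iff_one_le_mul₀ hc, ← h3, mul_comm]
  exact mul_le_mul_of_nonneg_left h2 (norm_nonneg _)

lemma Ep_up (T : Twists Q lam) {d : ℤ} (hd : Squarefree d) {s : ℂ} (hs : 1 / 4 ≤ s.re) :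
    ‖Ep T d s‖ ≤ T.c := Pool.Agent.Y180.QT12b2.Ep_bound T hd hs

lemma Ep_diff (T : Twists Q lam) {d : ℤ} (hd : Squarefree d) :
    DifferentiableOn ℂ (Ep T d) {s | 1 / 4 < s.re} := by
  have h1 : Ep T d = LSeries (fun n => (T.e' d n : ℂ)) := funext fun s => Ep_eq T hd s
  rw [h1]
  exact ls_diff _ (1 / 4) fun y hy => (hE_bound _ _ (T.e'_sum d hd) (y : ℂ)
    (by rw [ofReal_re]; exact hy.le)).1

lemma q_pos (T : Twists Q lam) {d : ℤ} (hd : Squarefree d) : 0 < T.q d := by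
  have h1 := T.q_lower d hd
  have hc : 0 < T.c := lt_of_lt_of_le one_pos T.one_le_c
  have h2 : (0 : ℝ) < |(d : ℝ)| := abs_pos.2 (by exact_mod_cast hd.ne_zero)
  by_contra h
  push Not at h
  nlinarith

/-- the Mellin transform from `ell` -/
lemma mellin_ell (T : Twists Q lam) {d : ℤ} (hd : Squarefree d) {s : ℂ} (hs : -1 / 2 < s.re) :
    mellin (fun u : ℝ => T.F d (u : ℂ)) (s + 1 / 2) =
      Complex.Gamma (s + 1 / 2) * ((2 * Real.pi / T.q d : ℝ) : ℂ) ^ (-(s + 1 / 2)) * T.ell d s := by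
  have hq := q_pos T hd
  have hpi := Real.pi_pos
  have hc : ((2 * Real.pi / T.q d : ℝ) : ℂ) ≠ 0 := by
    have : 0 < 2 * Real.pi / T.q d := by positivity
    exact_mod_cast this.ne'
  have e : (2 * Real.pi / (T.q d : ℂ)) = ((2 * Real.pi / T.q d : ℝ) : ℂ) := by push_cast; rfl
  have hG : Complex.Gamma (s + 1 / 2) ≠ 0 := Complex.Gamma_ne_zero_of_re_pos (by
    have : (s + 1 / 2).re = s.re + 1 / 2 := by simp
    rw [this]; linarith)
  unfold Twists.ell
  rw [e]
  generalize s + 1 / 2 = s' at *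
  rw [Complex.cpow_neg]
  have h1 : ((2 * Real.pi / T.q d : ℝ) : ℂ) ^ s' ≠ 0 := by
    rw [Complex.cpow_ne_zero_iff]; exact Or.inl hc
  generalize ((2 * Real.pi / T.q d : ℝ) : ℂ) ^ s' = x at *
  field_simp

variable {N : ℕ} [NeZero N] {f : CuspForm (Gamma0 N : Subgroup (GL (Fin 2) ℝ)) 2} {w : ℝ}

/-- functional equation without conjugation -/
lemma LL_neg (hf : W388.IsNewf N 2 f w) (t : ℝ) (z : ℂ) :
    LL (gE f) t (-z) = (w : ℂ) * LL (gE f) t z := by
  unfold LL
  rw [← integral_const_mul]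
  have h1 := integral_neg_eq_self (μ := (volume : Measure ℝ))
    (fun u : ℝ => gE f u * cexp ((t : ℂ) * (u : ℂ) ^ 2 + (-z) * u))
  rw [← h1]
  refine integral_congr_ae (Eventually.of_forall fun u => ?_)
  simp only
  rw [Pool.Agent.H466.HF.gE_neg f hf]
  push_cast
  rw [neg_sq, mul_assoc]
  congr 3
  ring

omit [NeZero N] in
lemma fac_tendsto (p : ℕ) (hp : p.Prime) :
    Tendsto (fun x : ℝ => fac f (x : ℂ) p) atTop (𝓝 1) := by
  have hp1 : (1 : ℝ) < p := by exact_mod_cast hp.one_lt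
  have hp0 : (0 : ℝ) < p := by linarith
  have h1 : Tendsto (fun x : ℝ => (p : ℂ) ^ (-(x : ℂ))) atTop (𝓝 0) := by
    rw [tendsto_zero_iff_norm_tendsto_zero]
    have h2 : (fun x : ℝ => ‖(p : ℂ) ^ (-(x : ℂ))‖) = fun x : ℝ => ((p : ℝ)⁻¹) ^ x := by
      funext x
      rw [norm_pcpow hp, ofReal_re, Real.inv_rpow hp0.le, Real.rpow_neg hp0.le]
    rw [h2]
    exact tendsto_rpow_atTop_of_base_lt_one _ (by have := inv_pos.2 hp0; linarith)
      (inv_lt_one_of_one_lt₀ hp1)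
  have h3 : Tendsto (fun x : ℝ => (if p ∣ N then (0 : ℂ) else (p : ℂ) ^ (-2 * (x : ℂ)))) atTop
      (𝓝 0) := by
    split_ifs
    · exact tendsto_const_nhds
    · have e : (fun x : ℝ => (p : ℂ) ^ (-2 * (x : ℂ))) = fun x : ℝ => ((p : ℂ) ^ (-(x : ℂ))) ^ 2 := by
        funext x
        rw [← Complex.cpow_nat_mul]
        congr 1
        push_cast
        ring
      rw [e]
      have := h1.pow 2
      simpa using this
  unfold fac
  have h4 := ((h1.const_mul (W388.lamf f p : ℂ)).const_sub 1).add h3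
  simpa using h4

/-- **Multiplicity one.** the completed function of the family is, up to a constant factor, that of
the newform, and the conductors agree -/
theorem unique (T : Twists Q lam) {a b : ℤ}
    (hQ : ∀ p : ℕ, p.Prime → (p : ℤ) ∣ 2 * (4 * a ^ 3 + 27 * b ^ 2) → p ∣ Q)
    (hlam : ∀ p : ℕ, p.Prime → ¬ p ∣ Q → lam p = Pool.Agent.Y19.QT.ap a b p / Real.sqrt p)
    {d : ℤ} (hd : Squarefree d) (hf : W388.IsNewf N 2 f w) (hff : IsFormOf (a * d ^ 2) (b * d ^ 3) N f)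
    (hgood : ∀ p : ℕ, p.Prime → ¬ p ∣ N → |W388.lamf f p| ≤ 2)
    (hbad : ∀ p : ℕ, p.Prime → p ∣ N → |W388.lamf f p| ≤ 1) :
    Real.sqrt N = T.q d ∧ ∃ κ : ℂ, T.c⁻¹ ≤ ‖κ‖ ∧ ‖κ‖ ≤ T.c ∧
      (∀ s : ℂ, 1 / 4 < s.re → mellin (fun u : ℝ => T.F d (u : ℂ)) (s + 1 / 2) =
        κ * LL (gE f) 0 (s - 1 / 2)) ∧
      ∀ s : ℂ, 1 < s.re → T.ell d s = κ * L1 f s := by
  classical
  set B : Finset ℕ := (Q * d.natAbs).primeFactors with hB
  have hBp : ∀ p ∈ B, p.Prime := fun p hp => Nat.prime_of_mem_primeFactors hp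
  set P : ℂ → ℂ := fun s => ∏ p ∈ B, fac f s p with hP
  have hq := q_pos T hd
  have hsq : 0 < Real.sqrt N := Pool.Agent.H466.HF.sqN_pos' (N := N)
  have hpi := Real.pi_pos
  have hc : 0 < T.c := lt_of_lt_of_le one_pos T.one_le_c
  set A : ℝ := T.q d / Real.sqrt N with hA
  have hA0 : 0 < A := by positivity
  have hAc : (A : ℂ) ≠ 0 := by exact_mod_cast hA0.ne'
  set U : Set ℂ := {s | 1 / 4 < s.re} with hU
  have hUo : IsOpen U := isOpen_lt continuous_const Complex.continuous_re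
  have hUc : IsPreconnected U := (convex_halfSpace_re_gt (1 / 4)).isPreconnected
  have hPd : Differentiable ℂ P := by
    rw [hP]
    apply Differentiable.fun_finsetProd
    intro p hp
    exact fac_diff (hBp p hp)
  have hEne : ∀ s ∈ U, Ep T d s ≠ 0 := fun s hs => Pool.Agent.Y19.QT.Ep_ne T hd (le_of_lt hs)
  obtain ⟨A0, c0, k⟩ := gE_kern f hf
  have hLLd := k.differentiable 0
  have hM1d : Differentiable ℂ fun s : ℂ => LL (gE f) 0 (s - 1 / 2) := hLLd.comp (by fun_prop)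
  have hLq : ∀ s, T.Lq d s = T.ell d s * Ep T d s := fun s => rfl
  have h8 := Pool.Agent.Y703.QT8.T8a T d hd
  have hPow : Differentiable ℂ fun s : ℂ => (A : ℂ) ^ (s + 1 / 2) := fun s =>
    DifferentiableAt.const_cpow (by fun_prop) (Or.inl hAc)
  -- identity in a far half plane
  have key : ∀ s : ℂ, 2 < s.re → mellin (fun u : ℝ => T.F d (u : ℂ)) (s + 1 / 2) * Ep T d s =
      (A : ℂ) ^ (s + 1 / 2) * P s * LL (gE f) 0 (s - 1 / 2) := by
    intro s hs
    have e1 := L1_mul T hQ hlam hd hf hff hgood hbad hs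
    rw [hLq] at e1
    have e2 := LL_series hf (s := s) (by linarith)
    have e3 := mellin_ell T hd (s := s) (by linarith)
    rw [e3, e2]
    change _ = (A : ℂ) ^ (s + 1 / 2) * P s * (Gamma (s + 1 / 2) *
      ((2 * Real.pi / Real.sqrt N : ℝ) : ℂ) ^ (-(s + 1 / 2)) * L1 f s)
    have e4 : (A : ℂ) ^ (s + 1 / 2) * ((2 * Real.pi / Real.sqrt N : ℝ) : ℂ) ^ (-(s + 1 / 2)) =
        ((2 * Real.pi / T.q d : ℝ) : ℂ) ^ (-(s + 1 / 2)) := by
      rw [cpow_exp hA0, cpow_exp (by positivity : 0 < 2 * Real.pi / Real.sqrt N),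
        cpow_exp (by positivity : 0 < 2 * Real.pi / T.q d), ← Complex.exp_add, hA,
        Real.log_div hq.ne' hsq.ne', Real.log_div (by positivity) hsq.ne',
        Real.log_div (by positivity) hq.ne']
      congr 1
      push_cast
      ring
    calc Gamma (s + 1 / 2) * ((2 * Real.pi / T.q d : ℝ) : ℂ) ^ (-(s + 1 / 2)) * T.ell d s * Ep T d s
        = Gamma (s + 1 / 2) * ((2 * Real.pi / T.q d : ℝ) : ℂ) ^ (-(s + 1 / 2)) *
          (T.ell d s * Ep T d s) := by ring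
      _ = _ := by rw [← e1, ← e4]; ring
  have hM2d : DifferentiableOn ℂ (fun s : ℂ => mellin (fun u : ℝ => T.F d (u : ℂ)) (s + 1 / 2)) U := by
    have h1 : DifferentiableOn ℂ (fun s : ℂ => Complex.Gamma (s + 1 / 2) *
        ((2 * Real.pi / T.q d : ℝ) : ℂ) ^ (-(s + 1 / 2)) * T.ell d s) U := by
      intro s hs
      have hs' : 1 / 4 < s.re := hs
      have hG : DifferentiableAt ℂ Complex.Gamma (s + 1 / 2) := by
        apply Complex.differentiableAt_Gamma
        intro m h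
        have : (s + 1 / 2).re = -(m : ℝ) := by rw [h]; simp
        have e : (s + 1 / 2).re = s.re + 1 / 2 := by simp
        have hm : (0 : ℝ) ≤ m := Nat.cast_nonneg m
        linarith
      have h2 : DifferentiableAt ℂ (fun s : ℂ => Complex.Gamma (s + 1 / 2)) s :=
        hG.comp s (by fun_prop)
      have h3 : DifferentiableAt ℂ (fun s : ℂ => ((2 * Real.pi / T.q d : ℝ) : ℂ) ^ (-(s + 1 / 2))) s := by
        apply DifferentiableAt.const_cpow (by fun_prop)
        left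
        have : 0 < 2 * Real.pi / T.q d := by positivity
        exact_mod_cast this.ne'
      exact ((h2.mul h3).mul (h8.1 s)).differentiableWithinAt
    refine h1.congr fun s hs => ?_
    have hs' : 1 / 4 < s.re := hs
    exact mellin_ell T hd (by linarith)
  have key2 : ∀ s : ℂ, 1 / 4 < s.re → mellin (fun u : ℝ => T.F d (u : ℂ)) (s + 1 / 2) * Ep T d s =
      (A : ℂ) ^ (s + 1 / 2) * P s * LL (gE f) 0 (s - 1 / 2) := by
    have hA1 : AnalyticOnNhd ℂ (fun s : ℂ => mellin (fun u : ℝ => T.F d (u : ℂ)) (s + 1 / 2) *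
        Ep T d s) U := (hM2d.mul (Ep_diff T hd)).analyticOnNhd hUo
    have hA2 : AnalyticOnNhd ℂ (fun s : ℂ => (A : ℂ) ^ (s + 1 / 2) * P s * LL (gE f) 0 (s - 1 / 2)) U :=
      ((hPow.mul hPd).mul hM1d).differentiableOn.analyticOnNhd hUo
    have hVo : IsOpen {s : ℂ | 2 < s.re} := isOpen_lt continuous_const Complex.continuous_re
    have h20 : (20 : ℂ) ∈ U := by
      show 1 / 4 < (20 : ℂ).re
      norm_num
    exact fun s hs => hA1.eqOn_of_preconnected_of_eventuallyEq hA2 hUc h20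
      (Filter.eventually_of_mem (hVo.mem_nhds (by
        show 2 < (20 : ℂ).re
        norm_num)) key) hs
  -- glueing
  set n := B.card with hn
  have hPlo : ∀ s : ℂ, 1 / 2 ≤ s.re → (1 / 16 : ℝ) ^ n ≤ ‖P s‖ := by
    intro s hs
    rw [hP]
    simp only [norm_prod]
    rw [hn, ← Finset.prod_const]
    exact Finset.prod_le_prod (fun _ _ => by norm_num) fun p hp => fac_lo hgood hbad (hBp p hp) hs
  have hPup : ∀ s : ℂ, 1 / 2 ≤ s.re → ‖P s‖ ≤ (4 : ℝ) ^ n := by
    intro s hs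
    rw [hP]
    simp only [norm_prod]
    rw [hn, ← Finset.prod_const]
    exact Finset.prod_le_prod (fun _ _ => norm_nonneg _) fun p hp => fac_up hgood hbad (hBp p hp) hs
  have hw2 : ((T.w d : ℝ) : ℂ) ^ 2 = 1 := by
    have := T.w_sq d hd
    exact_mod_cast congrArg (fun x : ℝ => (x : ℂ)) this
  have hw1 : ((w : ℝ) : ℂ) ^ 2 = 1 := by
    rcases hf.sign with h | h <;> rw [h] <;> simp
  have hne : ∃ s : ℂ, LL (gE f) 0 (s - 1 / 2) ≠ 0 := by
    have hH := W388.heckeSeq_lamf hf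
    have hLS : ∀ s : ℂ, L1 f s = LSeries (fun n => (W388.lamf f n : ℂ)) s := fun s =>
      tsum_eq_ls (fun n => (W388.lamf f n : ℂ)) (by simp [hH.zero]) s
    have hsum : LSeriesSummable (fun n => (W388.lamf f n : ℂ)) (2 : ℂ) := by
      have h1 := (newf_facts hf (s := (2 : ℂ)) (by norm_num)).1.of_norm
      refine h1.congr fun n => ?_
      rcases eq_or_ne n 0 with h | h
      · rw [h, LSeries.term_zero, hH.zero]
        simp
      · rw [LSeries.term_of_ne_zero h, Complex.cpow_neg, div_eq_mul_inv]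
    have hab : LSeries.abscissaOfAbsConv (fun n => (W388.lamf f n : ℂ)) < ⊤ :=
      lt_of_le_of_lt hsum.abscissaOfAbsConv_le (EReal.coe_lt_top _)
    have ht := LSeries.tendsto_atTop hab
    have ht1 : Tendsto (fun x : ℝ => ‖LSeries (fun n => (W388.lamf f n : ℂ)) (x : ℂ)‖) atTop
        (𝓝 1) := by
      have := ht.norm
      simpa [hH.one] using this
    obtain ⟨x, hx1, hx2⟩ := ((ht1.eventually (lt_mem_nhds (show (0 : ℝ) < 1 by norm_num))).and
      (eventually_gt_atTop (1 : ℝ))).exists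
    have hxr : (1 : ℝ) < ((x : ℝ) : ℂ).re := by rw [ofReal_re]; exact hx2
    refine ⟨(x : ℂ), ?_⟩
    rw [LL_series hf hxr]
    have hG : Complex.Gamma ((x : ℂ) + 1 / 2) ≠ 0 := Complex.Gamma_ne_zero_of_re_pos (by
      have : ((x : ℂ) + 1 / 2).re = x + 1 / 2 := by simp
      rw [this]; linarith)
    have hp : (((2 * Real.pi / Real.sqrt N : ℝ) : ℂ)) ^ (-((x : ℂ) + 1 / 2)) ≠ 0 := by
      rw [Complex.cpow_ne_zero_iff]
      left
      have : 0 < 2 * Real.pi / Real.sqrt N := by positivity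
      exact_mod_cast this.ne'
    refine mul_ne_zero (mul_ne_zero hG hp) ?_
    have h3 : L1 f (x : ℂ) ≠ 0 := by
      rw [hLS]
      exact norm_pos_iff.1 hx1
    exact h3
  obtain ⟨κ, hκ0, hκ⟩ := glue (fun s => LL (gE f) 0 (s - 1 / 2))
    (fun s => mellin (fun u : ℝ => T.F d (u : ℂ)) (s + 1 / 2)) hM1d (w : ℂ) (T.w d : ℂ) hw1 hw2
    (by
      intro s
      have e : (1 - s - 1 / 2 : ℂ) = -(s - 1 / 2) := by ring
      rw [e, LL_neg hf])
    (by
      intro s
      have e : (1 - s + 1 / 2 : ℂ) = 2 - (s + 1 / 2) := by ring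
      rw [e, Pool.Agent.Y19.QT.mellin_fe T hd])
    A hA0 (fun s => P s * (Ep T d s)⁻¹)
    (hPd.differentiableOn.mul ((Ep_diff T hd).inv hEne))
    ((1 / 16 : ℝ) ^ n * T.c⁻¹) ((4 : ℝ) ^ n * T.c) (by positivity)
    (by
      intro s hs
      rw [norm_mul, norm_inv]
      have h1 := Ep_up T hd (s := s) (by linarith)
      have h2 : 0 < ‖Ep T d s‖ := norm_pos_iff.2 (hEne s (by show 1 / 4 < s.re; linarith))
      exact mul_le_mul (hPlo s hs) (inv_anti₀ h2 h1) (by positivity) (norm_nonneg _))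
    (by
      intro s hs
      rw [norm_mul, norm_inv]
      have h1 := Ep_lo T hd (s := s) (by linarith)
      have h3 : ‖Ep T d s‖⁻¹ ≤ T.c := by
        rw [← inv_inv T.c]
        exact inv_anti₀ (by positivity) h1
      exact mul_le_mul (hPup s hs) h3 (by positivity) (by positivity))
    (by
      intro s hs
      have h1 := key2 s hs
      have h2 := hEne s hs
      calc mellin (fun u : ℝ => T.F d (u : ℂ)) (s + 1 / 2)
          = (mellin (fun u : ℝ => T.F d (u : ℂ)) (s + 1 / 2) * Ep T d s) * (Ep T d s)⁻¹ := by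
            rw [mul_assoc, mul_inv_cancel₀ h2, mul_one]
        _ = _ := by rw [h1]; ring)
    hne
  have hκn : 0 < ‖κ‖ := norm_pos_iff.2 hκ0
  have hκ' : ∀ s : ℂ, 1 / 4 < s.re → (A : ℂ) ^ (s + 1 / 2) * P s = κ * Ep T d s := by
    intro s hs
    have h1 := hκ s hs
    have h2 := hEne s hs
    rw [← h1]
    field_simp
  have hPt : Tendsto (fun x : ℝ => ‖P (x : ℂ)‖) atTop (𝓝 1) := by
    have h1 : Tendsto (fun x : ℝ => P (x : ℂ)) atTop (𝓝 1) := by
      have h2 : Tendsto (fun x : ℝ => ∏ p ∈ B, fac f (x : ℂ) p) atTop (𝓝 (∏ p ∈ B, (1 : ℂ))) :=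
        tendsto_finsetProd _ fun p hp => fac_tendsto p (hBp p hp)
      simpa using h2
    simpa using h1.norm
  have hnorm : ∀ x : ℝ, 1 / 4 < x → A ^ (x + 1 / 2) * ‖P (x : ℂ)‖ = ‖κ‖ * ‖Ep T d (x : ℂ)‖ := by
    intro x hx
    have h1 := hκ' (x : ℂ) (by rw [ofReal_re]; exact hx)
    have h2 := congrArg norm h1
    rw [norm_mul, norm_mul, Complex.norm_cpow_eq_rpow_re_of_pos hA0] at h2
    have e : ((x : ℂ) + 1 / 2).re = x + 1 / 2 := by simp
    rw [e] at h2
    exact h2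
  have hev : ∀ᶠ x : ℝ in atTop, 1 / 4 < x ∧ 1 / 2 < ‖P (x : ℂ)‖ ∧ ‖P (x : ℂ)‖ < 2 :=
    (eventually_gt_atTop (1 / 4 : ℝ)).and ((hPt.eventually (lt_mem_nhds (by norm_num))).and
      (hPt.eventually (gt_mem_nhds (by norm_num))))
  have hA1 : A = 1 := by
    rcases lt_trichotomy A 1 with h | h | h
    · exfalso
      have h1 : Tendsto (fun x : ℝ => A ^ x) atTop (𝓝 0) :=
        tendsto_rpow_atTop_of_base_lt_one _ (by linarith) h
      have h2 : ∀ᶠ x : ℝ in atTop, A ^ x < ‖κ‖ * T.c⁻¹ / 2 / A ^ (1 / 2 : ℝ) :=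
        h1.eventually (gt_mem_nhds (by positivity))
      obtain ⟨x, ⟨hx1, hx2, hx3⟩, hx4⟩ := (hev.and h2).exists
      have h3 := hnorm x hx1
      have h4 := Ep_lo T hd (s := (x : ℂ)) (by rw [ofReal_re]; exact hx1.le)
      rw [lt_div_iff₀ (by positivity), ← Real.rpow_add hA0] at hx4
      have h5 : ‖κ‖ * T.c⁻¹ ≤ ‖κ‖ * ‖Ep T d (x : ℂ)‖ := mul_le_mul_of_nonneg_left h4 hκn.le
      have h6 : 0 < A ^ (x + 1 / 2) := Real.rpow_pos_of_pos hA0 _
      nlinarith
    · exact h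
    · exfalso
      have h1 : Tendsto (fun x : ℝ => A ^ x) atTop atTop := tendsto_rpow_atTop_of_base_gt_one _ h
      have h2 : ∀ᶠ x : ℝ in atTop, 2 * (‖κ‖ * T.c) / A ^ (1 / 2 : ℝ) < A ^ x :=
        h1.eventually (eventually_gt_atTop _)
      obtain ⟨x, ⟨hx1, hx2, hx3⟩, hx4⟩ := (hev.and h2).exists
      have h3 := hnorm x hx1
      have h4 := Ep_up T hd (s := (x : ℂ)) (by rw [ofReal_re]; exact hx1.le)
      rw [div_lt_iff₀ (by positivity), ← Real.rpow_add hA0] at hx4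
      have h5 : ‖κ‖ * ‖Ep T d (x : ℂ)‖ ≤ ‖κ‖ * T.c := mul_le_mul_of_nonneg_left h4 hκn.le
      have h6 : 0 < A ^ (x + 1 / 2) := Real.rpow_pos_of_pos hA0 _
      nlinarith
  have hone : ∀ s : ℂ, (A : ℂ) ^ s = 1 := by
    intro s
    rw [hA1]
    simp
  refine ⟨?_, κ, ?_, ?_, ?_, ?_⟩
  · rw [hA, div_eq_one_iff_eq hsq.ne'] at hA1
    exact hA1.symm
  · -- `c⁻¹ ≤ ‖κ‖`
    have h1 : (1 : ℝ) ≤ ‖κ‖ * T.c := by
      refine le_of_tendsto hPt ?_
      filter_upwards [hev] with x hx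
      have h3 := hnorm x hx.1
      rw [hA1, Real.one_rpow, one_mul] at h3
      rw [h3]
      exact mul_le_mul_of_nonneg_left (Ep_up T hd (by rw [ofReal_re]; exact hx.1.le)) hκn.le
    rw [inv_le_iff_one_le_mul₀ hc]
    exact h1
  · have h1 : ‖κ‖ * T.c⁻¹ ≤ 1 := by
      refine ge_of_tendsto hPt ?_
      filter_upwards [hev] with x hx
      have h3 := hnorm x hx.1
      rw [hA1, Real.one_rpow, one_mul] at h3
      rw [h3]
      exact mul_le_mul_of_nonneg_left (Ep_lo T hd (by rw [ofReal_re]; exact hx.1.le)) hκn.le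
    rwa [← div_eq_mul_inv, div_le_one hc] at h1
  · intro s hs
    have h1 := key2 s hs
    have h2 := hEne s hs
    have h3 := hκ' s hs
    rw [h3] at h1
    apply mul_right_cancel₀ h2
    rw [h1]
    ring
  · intro s hs
    have hs' : 1 / 4 < s.re := by linarith
    have h1 := key2 s hs'
    have h2 := hEne s hs'
    have h3 := hκ' s hs'
    rw [h3, mellin_ell T hd (by linarith), LL_series hf hs] at h1
    have h4 : Real.sqrt N = T.q d := by
      rw [hA, div_eq_one_iff_eq hsq.ne'] at hA1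
      exact hA1.symm
    rw [h4] at h1
    have hG : Complex.Gamma (s + 1 / 2) ≠ 0 := Complex.Gamma_ne_zero_of_re_pos (by
      have : (s + 1 / 2).re = s.re + 1 / 2 := by simp
      rw [this]; linarith)
    have hp : (((2 * Real.pi / T.q d : ℝ) : ℂ)) ^ (-(s + 1 / 2)) ≠ 0 := by
      rw [Complex.cpow_ne_zero_iff]
      left
      have : 0 < 2 * Real.pi / T.q d := by positivity
      exact_mod_cast this.ne'
    have h5 : Gamma (s + 1 / 2) * (((2 * Real.pi / T.q d : ℝ) : ℂ)) ^ (-(s + 1 / 2)) * Ep T d s ≠ 0 :=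
      mul_ne_zero (mul_ne_zero hG hp) h2
    apply mul_left_cancel₀ h5
    change _ = Gamma (s + 1 / 2) * (((2 * Real.pi / T.q d : ℝ) : ℂ)) ^ (-(s + 1 / 2)) * Ep T d s *
      (κ * ∑' n : ℕ, (W388.lamf f n : ℂ) * (n : ℂ) ^ (-s))
    linear_combination h1

end

end Pool.Agent.H564.QH
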