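import Pool.Agent.H466.HF.EC4
import Pool.Graph.R_seed8.H370R2.Local

/-!
# A local law for the heat flow of an `L`-function which has moderate size near a point
-/

set_option autoImplicit false

open Complex MeasureTheory Filter Topology Set
open scoped ComplexConjugate

namespace Pool.Agent.H564.QH

open H353.E H353.F Pool.Agent.H466.HF

variable {C : ℝ} {Sg : ℝ → ℝ} {γ D Λ L : ℂ → ℂ}

lemma gam_mono (gp : GP C Sg γ D) {y a b : ℝ} (ha : 1 ≤ a) (hab : a ≤ b)
    (hpos : ∀ x : ℝ, a ≤ x → x ≤ b → 0 ≤ (D ((x : ℂ) + y * I)).re) :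
    ‖γ ((a : ℂ) + y * I)‖ ≤ ‖γ ((b : ℂ) + y * I)‖ := by
  have h := H353.E.seg_le gp (s := (b : ℂ) + y * I) (v := ((a - b : ℝ) : ℂ)) (A := 0)
    (fun t ht => ?_) (fun t ht => ?_)
  · have e : (b : ℂ) + y * I + ((a - b : ℝ) : ℂ) = (a : ℂ) + y * I := by push_cast; ring
    rw [e, Real.exp_zero, mul_one] at h
    exact h
  · have : ((b : ℂ) + y * I + (t : ℂ) * ((a - b : ℝ) : ℂ)).re = b + t * (a - b) := by simp
    rw [this]
    nlinarith [ht.1, ht.2]
  · have e : ((b : ℂ) + y * I + (t : ℂ) * ((a - b : ℝ) : ℂ)) = ((b + t * (a - b) : ℝ) : ℂ) + y * I := by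
      push_cast; ring
    rw [e, mul_comm, re_ofReal_mul]
    have h1 := hpos (b + t * (a - b)) (by nlinarith [ht.1, ht.2]) (by nlinarith [ht.1, ht.2])
    nlinarith

/-- local size of an `L`-function -/
structure LocS (L : ℂ → ℂ) (y v1 M0 : ℝ) : Prop where
  diff : Differentiable ℂ L
  pos : 0 < v1
  one : 1 ≤ M0
  lo : ∀ s : ℂ, 1 / 2 + 3 / 4 * v1 ≤ s.re → |s.im - y| ≤ v1 / 4 → Real.exp (-M0) ≤ ‖L s‖
  up : ∀ s : ℂ, 1 / 2 ≤ s.re → |s.im - y| ≤ v1 / 4 → ‖L s‖ ≤ Real.exp M0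

lemma LocS.ball {y v1 M0 : ℝ} (_S : LocS L y v1 M0) {c z : ℂ} (hc : 1 / 2 + v1 ≤ c.re)
    (hy : c.im = y) (hz : z ∈ Metric.closedBall c (v1 / 4)) :
    1 / 2 + 3 / 4 * v1 ≤ z.re ∧ |z.im - y| ≤ v1 / 4 := by
  rw [Metric.mem_closedBall, dist_eq_norm] at hz
  have h3 := (abs_re_le_norm (z - c)).trans hz
  have h4 := (abs_im_le_norm (z - c)).trans hz
  rw [sub_re] at h3
  rw [sub_im, hy] at h4
  have := (abs_le.1 h3).1
  exact ⟨by linarith, h4⟩

lemma LocS.logDeriv_le {y v1 M0 : ℝ} (S : LocS L y v1 M0) {c z : ℂ} (hc : 1 / 2 + v1 ≤ c.re)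
    (hy : c.im = y) (hz : z ∈ Metric.closedBall c (v1 / 16)) :
    ‖logDeriv L z‖ ≤ 96 * M0 / v1 := by
  have hv := S.pos
  have hM := S.one
  have h1 := H370.Loc.logDeriv_zero_free (g := L) (c := c) (r := v1 / 4) (r1 := v1 / 8)
    (r2 := v1 / 16) (B := 2 * M0) (by linarith) (by linarith) (by linarith) (by linarith)
    (fun z _ => S.diff.analyticAt z) (fun z hz h => by
      obtain ⟨h2, h3⟩ := S.ball hc hy hz
      have h4 := S.lo z h2 h3
      rw [h, norm_zero] at h4
      exact absurd h4 (not_le.2 (Real.exp_pos _))) (fun z hz => by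
      obtain ⟨h2, h3⟩ := S.ball hc hy hz
      have h4 := S.up z (by linarith) h3
      have h5 := S.lo c (by linarith) (by rw [hy, sub_self, abs_zero]; linarith)
      calc ‖L z‖ ≤ Real.exp M0 := h4
        _ = Real.exp (2 * M0) * Real.exp (-M0) := by rw [← Real.exp_add]; congr 1; ring
        _ ≤ _ := mul_le_mul_of_nonneg_left h5 (Real.exp_pos _).le) hz
  refine h1.trans ?_
  have e : 2 * (2 * M0 + 1) * (v1 / 8) / (v1 / 4 - v1 / 8) / (v1 / 8 - v1 / 16) =
      32 * (2 * M0 + 1) / v1 := by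
    have h2 : v1 / 4 - v1 / 8 = v1 / 8 := by ring
    have h3 : v1 / 8 - v1 / 16 = v1 / 16 := by ring
    rw [h2, h3]
    field_simp
    ring
  rw [e]
  apply div_le_div_of_nonneg_right _ hv.le
  linarith

lemma LocS.ne {y v1 M0 : ℝ} (S : LocS L y v1 M0) {c : ℂ} (hc : 1 / 2 + v1 ≤ c.re)
    (hy : c.im = y) : L c ≠ 0 := by
  intro h
  have hv := S.pos
  have h4 := S.lo c (by linarith) (by rw [hy, sub_self, abs_zero]; linarith)
  rw [h, norm_zero] at h4
  exact absurd h4 (not_le.2 (Real.exp_pos _))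

lemma LocS.diff_log {y v1 M0 : ℝ} (S : LocS L y v1 M0) {c z : ℂ} (hc : 1 / 2 + v1 ≤ c.re)
    (hy : c.im = y) (hz : z ∈ Metric.closedBall c (v1 / 4)) : DifferentiableAt ℂ (logDeriv L) z := by
  have h0 : L z ≠ 0 := by
    intro h
    obtain ⟨h2, h3⟩ := S.ball hc hy hz
    have h4 := S.lo z h2 h3
    rw [h, norm_zero] at h4
    exact absurd h4 (not_le.2 (Real.exp_pos _))
  have h1 : AnalyticAt ℂ (logDeriv L) z :=
    (S.diff.analyticAt z).deriv.div (S.diff.analyticAt z) h0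
  exact h1.differentiableAt

lemma LocS.deriv_le {y v1 M0 : ℝ} (S : LocS L y v1 M0) {c : ℂ} (hc : 1 / 2 + v1 ≤ c.re)
    (hy : c.im = y) : ‖deriv (logDeriv L) c‖ ≤ 1536 * M0 / v1 ^ 2 := by
  have hv := S.pos
  have h1 := Complex.norm_deriv_le_of_forall_mem_sphere_norm_le (f := logDeriv L) (c := c)
    (R := v1 / 16) (C := 96 * M0 / v1) (by linarith)
    (DifferentiableOn.diffContOnCl fun z hz => by
      have h2 : z ∈ Metric.closedBall c (v1 / 16) := Metric.closure_ball_subset_closedBall hz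
      exact (S.diff_log hc hy (Metric.closedBall_subset_closedBall (by linarith) h2)).differentiableWithinAt)
    (fun z hz => S.logDeriv_le hc hy (Metric.sphere_subset_closedBall hz))
  refine h1.trans (le_of_eq ?_)
  field_simp
  ring

/-- the logarithmic derivative along the line -/
noncomputable def pq (D L : ℂ → ℂ) (y v : ℝ) : ℂ := D (pt y v + 1 / 2) + logDeriv L (pt y v)

lemma core_loc (gp : GP C Sg γ D) (hΛ : Continuous Λ)
    (hΛL : ∀ s : ℂ, 1 / 2 ≤ s.re → Λ s = γ (s + 1 / 2) * L s) {y v1 M0 : ℝ} (S : LocS L y v1 M0)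
    (hpos : ∀ x : ℝ, 1 ≤ x → x ≤ 1 + v1 → 0 ≤ (D ((x : ℂ) + y * I)).re) :
    Core (fl Λ y) (pq D L y) v1 (C + 1536 * M0 / v1 ^ 2) (C + 96 * M0 / v1)
      (Real.exp (2 * M0)) := by
  have hv := S.pos
  have hM := S.one
  have hC := gp.C_nonneg
  have hre2 : ∀ v : ℝ, (pt y v + 1 / 2).re = 1 + v := fun v => by
    rw [add_re, pt_re]; norm_num; ring
  have hmem : ∀ v : ℝ, pt y v ∈ Metric.closedBall (pt y v) (v1 / 16) := fun v =>
    Metric.mem_closedBall_self (by linarith)
  refine ⟨?_, fun v hv' => ?_, fun v w hv' hw' => ?_, fun v hv' => ?_, fun v h0 h1 => ?_, ?_, hv,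
    by positivity, by positivity⟩
  · unfold fl
    have h1 : Continuous fun v : ℝ => pt y v := by unfold Pool.Agent.H466.HF.pt; fun_prop
    exact hΛ.comp h1
  · -- derivative
    have hc : 1 / 2 + v1 ≤ (pt y v).re := by rw [pt_re]; linarith
    have hne := S.ne hc (pt_im y v)
    have h1 : HasDerivAt (fun s : ℂ => γ (s + 1 / 2) * L s)
        (γ (pt y v + 1 / 2) * D (pt y v + 1 / 2) * L (pt y v) +
          γ (pt y v + 1 / 2) * deriv L (pt y v)) (pt y v) := by
      have h2 := gp.der (pt y v + 1 / 2) (by rw [hre2]; linarith)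
      have h3 : HasDerivAt (fun s : ℂ => γ (s + 1 / 2)) (γ (pt y v + 1 / 2) * D (pt y v + 1 / 2))
          (pt y v) := by
        have h4 := h2.comp (pt y v) ((hasDerivAt_id (pt y v)).add_const (1 / 2))
        rw [mul_one] at h4
        exact h4
      exact h3.mul (S.diff (pt y v)).hasDerivAt
    have h2 : Λ =ᶠ[𝓝 (pt y v)] fun s : ℂ => γ (s + 1 / 2) * L s := by
      have ho : IsOpen {s : ℂ | 1 / 2 < s.re} := isOpen_lt continuous_const Complex.continuous_re
      refine Filter.eventually_of_mem (ho.mem_nhds ?_) fun s hs => hΛL s (le_of_lt hs)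
      show 1 / 2 < (pt y v).re
      linarith
    have h3 := h1.congr_of_eventuallyEq h2
    have h4 := h3.comp v (pt_hasDerivAt y v)
    rw [mul_one] at h4
    refine h4.congr_deriv ?_
    unfold fl pq
    rw [hΛL (pt y v) (by linarith), logDeriv_apply]
    field_simp
  · -- Lipschitz
    have h1 := gp.lipD (ρ := 1) le_rfl (s := pt y v + 1 / 2) (t := pt y w + 1 / 2)
      (by rw [hre2]; linarith) (by rw [hre2]; linarith)
    have h2 : ‖logDeriv L (pt y v) - logDeriv L (pt y w)‖ ≤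
        1536 * M0 / v1 ^ 2 * ‖pt y v - pt y w‖ := by
      have hconv : Convex ℝ ({z : ℂ | 1 / 2 + v1 ≤ z.re} ∩ {z : ℂ | z.im = y}) :=
        (convex_halfSpace_re_ge (1 / 2 + v1)).inter
          (convex_hyperplane ((Complex.imLm : ℂ →ₗ[ℝ] ℝ)).isLinear y)
      refine hconv.norm_image_sub_le_of_norm_hasDerivWithin_le (f := logDeriv L)
        (f' := deriv (logDeriv L)) (fun z hz => ?_) (fun z hz => ?_) ?_ ?_
      · exact (S.diff_log hz.1 hz.2 (Metric.mem_closedBall_self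
          (by linarith))).hasDerivAt.hasDerivWithinAt
      · exact S.deriv_le hz.1 hz.2
      · exact ⟨by show 1 / 2 + v1 ≤ (pt y w).re; rw [pt_re]; linarith, pt_im y w⟩
      · exact ⟨by show 1 / 2 + v1 ≤ (pt y v).re; rw [pt_re]; linarith, pt_im y v⟩
    have h3 : pt y v - pt y w = ((v - w : ℝ) : ℂ) := by unfold Pool.Agent.H466.HF.pt; push_cast; ring
    have h3' : pt y v + 1 / 2 - (pt y w + 1 / 2) = ((v - w : ℝ) : ℂ) := by
      rw [← h3]; ring
    rw [h3', Complex.norm_real, Real.norm_eq_abs, div_one] at h1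
    rw [h3, Complex.norm_real, Real.norm_eq_abs] at h2
    have h4 : pq D L y v - pq D L y w = (D (pt y v + 1 / 2) - D (pt y w + 1 / 2)) +
        (logDeriv L (pt y v) - logDeriv L (pt y w)) := by unfold pq; ring
    rw [h4, add_mul]
    exact (norm_add_le _ _).trans (add_le_add h1 h2)
  · -- imaginary part
    have h1 := gp.im (pt y v + 1 / 2) (by rw [hre2]; linarith)
    have h2 := S.logDeriv_le (c := pt y v) (by rw [pt_re]; linarith) (pt_im y v) (hmem v)
    unfold pq
    rw [add_im]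
    exact (abs_add_le _ _).trans (add_le_add h1 ((Complex.abs_im_le_norm _).trans h2))
  · -- left
    have e : ∀ v : ℝ, pt y v + 1 / 2 = ((1 + v : ℝ) : ℂ) + y * I := fun v => by
      unfold Pool.Agent.H466.HF.pt; push_cast; ring
    have h2 : ‖γ (pt y v + 1 / 2)‖ ≤ ‖γ (pt y v1 + 1 / 2)‖ := by
      rw [e, e]
      exact gam_mono gp (by linarith) (by linarith) fun x hx1 hx2 => hpos x (by linarith) (by linarith)
    have h3 := S.up (pt y v) (by rw [pt_re]; linarith) (by rw [pt_im, sub_self, abs_zero]; linarith)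
    have h4 := S.lo (pt y v1) (by rw [pt_re]; linarith)
      (by rw [pt_im, sub_self, abs_zero]; linarith)
    unfold fl
    rw [hΛL (pt y v) (by rw [pt_re]; linarith), hΛL (pt y v1) (by rw [pt_re]; linarith), norm_mul,
      norm_mul]
    calc ‖γ (pt y v + 1 / 2)‖ * ‖L (pt y v)‖ ≤ ‖γ (pt y v1 + 1 / 2)‖ * Real.exp M0 :=
          mul_le_mul h2 h3 (norm_nonneg _) (norm_nonneg _)
      _ = Real.exp (2 * M0) * (‖γ (pt y v1 + 1 / 2)‖ * Real.exp (-M0)) := by
          have e2 : Real.exp M0 = Real.exp (2 * M0) * Real.exp (-M0) := by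
            rw [← Real.exp_add]; congr 1; ring
          rw [e2]
          ring
      _ ≤ _ := by gcongr
  · unfold fl
    have hc : 1 / 2 + v1 ≤ (pt y v1).re := by rw [pt_re]
    rw [hΛL (pt y v1) (by linarith)]
    exact mul_ne_zero (gp.ne _ (by rw [hre2]; linarith)) (S.ne hc (pt_im y v1))

end Pool.Agent.H564.QH
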