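import Pool.Agent.H564.QH.B1

/-!
# A local law for the heat flow of an `L`-function which has moderate size near a point, II
-/

set_option autoImplicit false

open Complex MeasureTheory Filter Topology Set
open scoped ComplexConjugate

namespace Pool.Agent.H564.QH

open H353.E H353.F Pool.Agent.H466.HF

variable {C : ℝ} {Sg : ℝ → ℝ} {γ D Λ L : ℂ → ℂ}

lemma pq_re_ge (gp : GP C Sg γ D) {y v1 M0 : ℝ} (S : LocS L y v1 M0) (hv1 : v1 ≤ 1 / 2) :
    (D (3 / 2 + y * I)).re - C - 96 * M0 / v1 ≤ (pq D L y v1).re := by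
  have hv := S.pos
  have hC := gp.C_nonneg
  have hre2 : (Pool.Agent.H466.HF.pt y v1 + 1 / 2).re = 1 + v1 := by
    rw [add_re, pt_re]; norm_num; ring
  have h2 := S.logDeriv_le (c := Pool.Agent.H466.HF.pt y v1) (by rw [pt_re]) (pt_im y v1)
    (Metric.mem_closedBall_self (by linarith))
  have h2' := (abs_le.mp ((Complex.abs_re_le_norm _).trans h2)).1
  have h3 : (3 / 2 + y * I : ℂ).re = 3 / 2 := by simp
  have h1 := gp.lipD (ρ := 1) le_rfl (s := Pool.Agent.H466.HF.pt y v1 + 1 / 2) (t := 3 / 2 + y * I)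
    (by rw [hre2]; linarith) (by rw [h3]; norm_num)
  have h4 : Pool.Agent.H466.HF.pt y v1 + 1 / 2 - (3 / 2 + y * I) = ((v1 - 1 / 2 : ℝ) : ℂ) := by
    unfold Pool.Agent.H466.HF.pt; push_cast; ring
  rw [h4, Complex.norm_real, Real.norm_eq_abs, div_one] at h1
  have h1' := (abs_le.mp ((Complex.abs_re_le_norm _).trans h1)).1
  rw [sub_re] at h1'
  have h5 : |v1 - 1 / 2| ≤ 1 := by
    rw [abs_le]
    constructor <;> linarith
  have h6 : C * |v1 - 1 / 2| ≤ C * 1 := mul_le_mul_of_nonneg_left h5 hC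
  unfold pq
  rw [add_re]
  linarith

/-- the numerical conditions -/
lemma num_loc (gp : GP C Sg γ D) {C0 y l ℓ M0 : ℝ} (hC1 : 1 ≤ C) (hC0 : 0 ≤ C0)
    (hl : 0 < l) (hℓ : 10000 * (C ^ 2 + C0 + 1) ≤ ℓ) (hlℓ : l * ℓ ≤ 2)
    (hD : ℓ / 2 - C0 ≤ (D (3 / 2 + y * I)).re) (S : LocS L y (l * ℓ / 4) M0)
    (hT : 10 ^ 8 * M0 ^ 2 ≤ l * ℓ ^ 2) :
    Num (pq D L y) (l * ℓ / 4) (C + 1536 * M0 / (l * ℓ / 4) ^ 2) (C + 96 * M0 / (l * ℓ / 4))
      (Real.exp (2 * M0)) l (Real.exp (-1)) (l * ℓ / 4) := by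
  have hM := S.one
  have hv := S.pos
  have hC2 : 1 ≤ C ^ 2 := one_le_pow₀ hC1
  have hℓ1 : 10000 ≤ ℓ := by nlinarith
  have hℓ0 : 0 < ℓ := by linarith
  have hCℓ : 10000 * C ≤ ℓ := by nlinarith
  set T : ℝ := Real.sqrt l * ℓ with hTdef
  have hsl : 0 < Real.sqrt l := Real.sqrt_pos.2 hl
  have hsl2 : Real.sqrt l * Real.sqrt l = l := Real.mul_self_sqrt hl.le
  have hT2 : T ^ 2 = l * ℓ ^ 2 := by
    rw [hTdef, mul_pow, sq (Real.sqrt l), hsl2]
  have hT0 : 0 < T := by positivity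
  have hTM : 10 ^ 4 * M0 ≤ T := by
    have h1 : (10 ^ 4 * M0) ^ 2 ≤ T ^ 2 := by rw [hT2]; linarith
    exact (pow_le_pow_iff_left₀ (by positivity) hT0.le two_ne_zero).1 h1
  have hT4 : 10 ^ 4 ≤ T := by linarith
  have hv1T : l * ℓ / 4 = Real.sqrt l * T / 4 := by
    rw [hTdef, ← mul_assoc, hsl2]
  have he1 : (36 : ℝ) / 100 ≤ Real.exp (-1) := by
    have h1 := Real.exp_one_lt_d9
    rw [Real.exp_neg]
    rw [le_inv_comm₀ (by norm_num) (Real.exp_pos _)]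
    linarith
  have he2 : Real.exp (-1) ≤ 1 := by
    rw [Real.exp_le_one_iff]; norm_num
  have hexp1 : Real.exp 1 ≤ 3 := by have := Real.exp_one_lt_d9; linarith
  -- `96 M0 / v1`
  have hQ : 96 * M0 / (l * ℓ / 4) ≤ ℓ / 1000 := by
    rw [div_le_iff₀ hv]
    have : ℓ / 1000 * (l * ℓ / 4) = l * ℓ ^ 2 / 4000 := by ring
    rw [this]
    nlinarith
  have hρ : 3 * ℓ / 8 ≤ (pq D L y (l * ℓ / 4)).re := by
    have h1 := pq_re_ge gp S (by linarith)
    have h2 : C0 ≤ ℓ / 10000 := by nlinarith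
    linarith
  set ρ := (pq D L y (l * ℓ / 4)).re with hρd
  -- `λ M`
  have hlM : l * (C + 1536 * M0 / (l * ℓ / 4) ^ 2) ≤ 1 / 1000 := by
    have e : l * (C + 1536 * M0 / (l * ℓ / 4) ^ 2) = l * C + 24576 * M0 / (l * ℓ ^ 2) := by
      field_simp
      ring
    rw [e]
    have h1 : l * C ≤ 2 / 10000 := by
      have : l * C * 10000 ≤ l * ℓ := by nlinarith
      linarith
    have h2 : 24576 * M0 / (l * ℓ ^ 2) ≤ 3 / 10000 := by
      rw [div_le_iff₀ (by positivity)]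
      nlinarith
    linarith
  have hlogq : Real.log (8 / Real.exp (-1)) ≤ 4 := by
    have e : 8 / Real.exp (-1) = 8 * Real.exp 1 := by
      rw [Real.exp_neg, div_inv_eq_mul]
    rw [e, Real.log_mul (by norm_num) (Real.exp_pos _).ne', Real.log_exp]
    have h8 : Real.log 8 ≤ 3 := by
      have : Real.log 8 = 3 * Real.log 2 := by
        rw [show (8 : ℝ) = 2 ^ 3 by norm_num, Real.log_pow]
        norm_num
      have := Real.log_two_lt_d9
      linarith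
    linarith
  refine
    { lam0 := hl
      q0 := Real.exp_pos _
      q1 := ?_
      a := ?_
      b := ?_
      c := ?_
      e0 := hv
      e1 := le_rfl
      d := ?_
      e := ?_
      f := ?_
      g := ?_ }
  · apply Real.exp_le_exp.2
    have h1 : l * (C + 96 * M0 / (l * ℓ / 4)) ^ 2 ≤
        2 * (l * C ^ 2) + 294912 * M0 ^ 2 / (l * ℓ ^ 2) := by
      have h2 : (C + 96 * M0 / (l * ℓ / 4)) ^ 2 ≤ 2 * C ^ 2 + 2 * (96 * M0 / (l * ℓ / 4)) ^ 2 := by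
        nlinarith [sq_nonneg (C - 96 * M0 / (l * ℓ / 4))]
      calc l * (C + 96 * M0 / (l * ℓ / 4)) ^ 2
          ≤ l * (2 * C ^ 2 + 2 * (96 * M0 / (l * ℓ / 4)) ^ 2) := mul_le_mul_of_nonneg_left h2 hl.le
        _ = _ := by field_simp; ring
    have h2 : l * C ^ 2 ≤ 2 / 10000 := by
      have : 10000 * C ^ 2 ≤ ℓ := by nlinarith
      have : l * C ^ 2 * 10000 ≤ l * ℓ := by nlinarith
      linarith
    have h3 : 294912 * M0 ^ 2 / (l * ℓ ^ 2) ≤ 3 / 1000 := by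
      rw [div_le_iff₀ (by positivity)]
      nlinarith
    linarith
  · linarith
  · have h1 : (l * ℓ / 4) ^ 2 / (32 * l) = l * ℓ ^ 2 / 512 := by field_simp; ring
    have h2 : 4 ≤ (l * ℓ / 4) ^ 2 / (32 * l) := by
      rw [h1, ← hT2]
      nlinarith
    have h3 : Real.exp (-((l * ℓ / 4) ^ 2 / (32 * l))) ≤ Real.exp (-4) :=
      Real.exp_le_exp.2 (by linarith)
    have h4 : Real.exp (-4) ≤ 6 / 100 := by
      rw [Real.exp_neg, inv_le_comm₀ (Real.exp_pos _) (by norm_num)]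
      have h5 : Real.exp 4 = Real.exp 1 ^ 4 := by rw [← Real.exp_nat_mul]; norm_num
      rw [h5]
      have h6 := Real.exp_one_gt_d9
      have h7 : (2.7 : ℝ) ^ 4 ≤ Real.exp 1 ^ 4 := pow_le_pow_left₀ (by norm_num) (by linarith) 4
      norm_num at h7 ⊢
      linarith
    linarith
  · have h1 : l * Real.log (8 / Real.exp (-1)) ≤ l * 4 := mul_le_mul_of_nonneg_left hlogq hl.le
    have h2 : (l * ℓ / 4) * (l * ℓ / 4 / 4) = l * (T ^ 2 / 64) := by rw [hT2]; ring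
    rw [h2]
    have h3 : (4 : ℝ) ≤ T ^ 2 / 64 := by nlinarith
    exact h1.trans (mul_le_mul_of_nonneg_left h3 hl.le)
  · have h1 : 2 * l * (3 * ℓ / 8) ≤ 2 * l * ρ := mul_le_mul_of_nonneg_left hρ (by linarith)
    linarith
  · nlinarith
  · have h1 : 2 * l * ρ * (l * ℓ / 4) / (16 * l) = ρ * (l * ℓ / 4) / 8 := by field_simp; ring
    have h2 : 3 * T ^ 2 / 256 ≤ ρ * (l * ℓ / 4) / 8 := by
      rw [hT2]
      have : (3 * ℓ / 8) * (l * ℓ / 4) ≤ ρ * (l * ℓ / 4) := mul_le_mul_of_nonneg_right hρ hv.le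
      nlinarith
    rw [h1]
    have h3 : Real.exp (-(ρ * (l * ℓ / 4) / 8)) ≤ Real.exp (-(3 * T ^ 2 / 256)) :=
      Real.exp_le_exp.2 (by linarith)
    have h4 : 2 * T ≤ Real.exp (2 * T) := by
      have := Real.add_one_le_exp (2 * T)
      linarith
    have h5 : 2 * T * (Real.exp (2 * M0) * Real.exp (-(3 * T ^ 2 / 256))) ≤ Real.exp (-1) := by
      calc 2 * T * (Real.exp (2 * M0) * Real.exp (-(3 * T ^ 2 / 256)))
          ≤ Real.exp (2 * T) * (Real.exp (2 * M0) * Real.exp (-(3 * T ^ 2 / 256))) :=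
            mul_le_mul_of_nonneg_right h4 (by positivity)
        _ = Real.exp (2 * T + (2 * M0 + -(3 * T ^ 2 / 256))) := by
            rw [← Real.exp_add, ← Real.exp_add]
        _ ≤ _ := Real.exp_le_exp.2 (by nlinarith)
    calc 8 * (l * ℓ / 4 * Real.exp (2 * M0) * Real.exp (-(ρ * (l * ℓ / 4) / 8)))
        ≤ 8 * (l * ℓ / 4 * Real.exp (2 * M0) * Real.exp (-(3 * T ^ 2 / 256))) := by gcongr
      _ = Real.sqrt l * (2 * T * (Real.exp (2 * M0) * Real.exp (-(3 * T ^ 2 / 256)))) := by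
          rw [hv1T]
          ring
      _ ≤ Real.sqrt l * Real.exp (-1) := mul_le_mul_of_nonneg_left h5 hsl.le
      _ = _ := mul_comm _ _
  · have h1 : 20 ≤ T / 4 * Real.exp (-1) := by nlinarith
    calc 20 * Real.sqrt l ≤ (T / 4 * Real.exp (-1)) * Real.sqrt l :=
          mul_le_mul_of_nonneg_right h1 hsl.le
      _ = _ := by rw [hv1T]; ring

/-- **Local law.** -/
theorem fine_law (gp : GP C Sg γ D) (hΛ : Continuous Λ)
    (hΛL : ∀ s : ℂ, 1 / 2 ≤ s.re → Λ s = γ (s + 1 / 2) * L s)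
    {ε : ℂ} (hε : ‖ε‖ = 1) (hfe : ∀ s : ℂ, Λ s = ε * conj (Λ (1 - conj s)))
    {C0 l ℓ M0 : ℝ} (hC1 : 1 ≤ C) (hC0 : 0 ≤ C0)
    (hl : 0 < l) (hℓ : 10000 * (C ^ 2 + C0 + 1) ≤ ℓ) (hlℓ : l * ℓ ≤ 2)
    (hd : Differentiable ℂ (heat Λ l)) {s : ℂ}
    (hD : ℓ / 2 - C0 ≤ (D (3 / 2 + s.im * I)).re) (S : LocS L s.im (l * ℓ / 4) M0)
    (hT : 10 ^ 8 * M0 ^ 2 ≤ l * ℓ ^ 2) (hz : heat Λ l s = 0) :
    s.re = 1 / 2 ∧ deriv (heat Λ l) s ≠ 0 := by
  have N := num_loc gp hC1 hC0 hl hℓ hlℓ hD S hT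
  have hv := S.pos
  have hC2 : 1 ≤ C ^ 2 := one_le_pow₀ hC1
  have hcore := core_loc gp hΛ hΛL S (fun x hx1 hx2 => by
    have h3 : (3 / 2 + (s.im : ℂ) * I : ℂ).re = 3 / 2 := by simp
    have h5 : ((x : ℂ) + (s.im : ℂ) * I).re = x := by simp
    have h1 := gp.lipD (ρ := 1) le_rfl (s := (x : ℂ) + (s.im : ℂ) * I) (t := 3 / 2 + (s.im : ℂ) * I)
      (by rw [h5]; exact hx1) (by rw [h3]; norm_num)
    have h4 : (x : ℂ) + (s.im : ℂ) * I - (3 / 2 + (s.im : ℂ) * I) = ((x - 3 / 2 : ℝ) : ℂ) := by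
      push_cast; ring
    rw [h4, Complex.norm_real, Real.norm_eq_abs, div_one] at h1
    have h1' := (abs_le.mp ((Complex.abs_re_le_norm _).trans h1)).1
    rw [sub_re] at h1'
    have h6 : |x - 3 / 2| ≤ 1 := by
      rw [abs_le]
      constructor <;> linarith
    have h7 : C * |x - 3 / 2| ≤ C * 1 := mul_le_mul_of_nonneg_left h6 gp.C_nonneg
    nlinarith)
  have hf := fl_neg hfe s.im
  have hs : s = Pool.Agent.H466.HF.pt s.im (s.re - 1 / 2) := by
    apply Complex.ext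
    · rw [pt_re]; ring
    · rw [pt_im]
  have hre : s.re = 1 / 2 := by
    by_contra hne
    have hx : s.re - 1 / 2 ≠ 0 := sub_ne_zero.mpr hne
    have h4 := N.ne_zero hcore hε hf hx
    rw [hs, heat_pt hl] at hz
    have h5 : ((Real.exp (-(s.re - 1 / 2) ^ 2 / (4 * l)) : ℝ) : ℂ) ≠ 0 := by
      rw [Ne, ofReal_eq_zero]
      exact (Real.exp_pos _).ne'
    exact h4 ((mul_eq_zero.mp hz).resolve_left h5)
  refine ⟨hre, ?_⟩
  have hs0 : s = Pool.Agent.H466.HF.pt s.im 0 := by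
    rw [hre, sub_self] at hs
    exact hs
  set y := s.im with hy
  have hz0 : ∫ v, jj (fl Λ y) l 0 v = 0 := by
    rw [hs0, heat_pt hl] at hz
    simpa using hz
  have hd1 : HasDerivAt (fun x : ℝ => heat Λ l (Pool.Agent.H466.HF.pt y x))
      (deriv (heat Λ l) (Pool.Agent.H466.HF.pt y 0)) 0 := by
    have h4 := (hd (Pool.Agent.H466.HF.pt y 0)).hasDerivAt
    have h5 := h4.comp (0 : ℝ) (pt_hasDerivAt y 0)
    rw [mul_one] at h5
    exact h5
  have hd2 : HasDerivAt (fun x : ℝ => ((Real.exp (x ^ 2 / (4 * l)) : ℝ) : ℂ)) 0 0 := by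
    have h4 : HasDerivAt (fun x : ℝ => x ^ 2 / (4 * l)) 0 0 := by
      have := ((hasDerivAt_pow 2 (0 : ℝ)).div_const (4 * l))
      simpa using this
    have h5 := (h4.exp).ofReal_comp
    simpa using h5
  have hd3 := hd2.mul hd1
  have e : (fun x : ℝ => ∫ v, jj (fl Λ y) l x v) =
      (fun x : ℝ => ((Real.exp (x ^ 2 / (4 * l)) : ℝ) : ℂ)) *
        fun x : ℝ => heat Λ l (Pool.Agent.H466.HF.pt y x) := by
    funext x
    rw [Pi.mul_apply, heat_pt hl, ← mul_assoc, ← ofReal_mul, ← Real.exp_add]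
    have : x ^ 2 / (4 * l) + -x ^ 2 / (4 * l) = 0 := by ring
    rw [this]
    simp
  rw [← e] at hd3
  have h6 := N.simple hcore hε hf hd3 hz0
  intro h7
  apply h6
  rw [← hs0, h7]
  simp

end Pool.Agent.H564.QH
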