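import Pool.Graph.R_seed8.Y203.QTZ6a

/-!
# Counting the members of a family of functions that are large somewhere in a rectangle
-/

set_option autoImplicit false

open Complex MeasureTheory Set

namespace Pool.Agent.H564.QH

lemma vol_rect {a b c e : ℝ} (hab : a ≤ b) (hce : c ≤ e) :
    (volume (Icc a b ×ℂ Icc c e)).toReal = (b - a) * (e - c) := by
  have h1 : (Icc a b ×ℂ Icc c e) = Complex.measurableEquivRealProd ⁻¹' (Icc a b ×ˢ Icc c e) := by
    ext z
    simp [Complex.mem_reProdIm]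
    tauto
  rw [h1, Complex.volume_preserving_equiv_real_prod.measure_preimage_equiv, Measure.volume_eq_prod,
    Measure.prod_prod, Real.volume_Icc, Real.volume_Icc, ENNReal.toReal_mul,
    ENNReal.toReal_ofReal (by linarith), ENNReal.toReal_ofReal (by linarith)]

/-- the sub mean value inequality, counted -/
theorem box_card (D : Finset ℤ) (f : ℤ → ℂ → ℂ)
    (hf : ∀ d ∈ D, DifferentiableOn ℂ (f d) {s | 1 / 4 < s.re}) {a b y r M τ : ℝ} (ha : 1 / 2 ≤ a)
    (hab : a ≤ b) (hr : 0 < r) (hr1 : r ≤ 1 / 16)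
    (hM : ∀ s : ℂ, a ≤ s.re → s.re ≤ b → |s.im - y| ≤ 2 → ∑ d ∈ D, ‖f d s‖ ≤ M)
    (S : Finset ℤ) (hS : S ⊆ D) (hbad : ∀ d ∈ S, ∃ s : ℂ, a + r ≤ s.re ∧ s.re ≤ b - r ∧
      |s.im - y| ≤ 1 ∧ τ ≤ ‖f d s‖) :
    S.card * (Real.pi * r ^ 2 * τ) ≤ M * (4 * (b - a)) := by
  have hpi := Real.pi_pos
  set R : Set ℂ := Icc a b ×ℂ Icc (y - 2) (y + 2) with hR
  have hRc : IsCompact R := isCompact_Icc.reProdIm isCompact_Icc
  have hRm : MeasurableSet R := hRc.measurableSet
  have hRU : R ⊆ {s | 1 / 4 < s.re} := by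
    intro s hs
    rw [hR, Complex.mem_reProdIm] at hs
    have := hs.1.1
    show 1 / 4 < s.re
    linarith
  have hint : ∀ d ∈ D, IntegrableOn (fun s => ‖f d s‖) R := fun d hd =>
    (((hf d hd).continuousOn.mono hRU).norm).integrableOn_compact hRc
  have h1 : ∀ d ∈ S, Real.pi * r ^ 2 * τ ≤ ∫ s in R, ‖f d s‖ := by
    intro d hd
    obtain ⟨s, hs1, hs2, hs3, hs4⟩ := hbad d hd
    have h2 := Pool.Agent.Y203.QTZ6a.Z6a (f d) s r hr ((hf d (hS hd)).mono (by
      intro z hz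
      rw [Metric.mem_ball, dist_eq_norm] at hz
      have h3 := (abs_re_le_norm (z - s)).trans hz.le
      rw [sub_re] at h3
      have := (abs_le.1 h3).1
      show 1 / 4 < z.re
      linarith))
    have hsub : Metric.ball s r ⊆ R := by
      intro z hz
      rw [Metric.mem_ball, dist_eq_norm] at hz
      have h3 := (abs_re_le_norm (z - s)).trans hz.le
      have h4 := (abs_im_le_norm (z - s)).trans hz.le
      rw [sub_re] at h3
      rw [sub_im] at h4
      obtain ⟨h5, h6⟩ := abs_le.1 h3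
      obtain ⟨h7, h8⟩ := abs_le.1 h4
      obtain ⟨h9, h10⟩ := abs_le.1 hs3
      rw [hR, Complex.mem_reProdIm]
      exact ⟨⟨by linarith, by linarith⟩, ⟨by linarith, by linarith⟩⟩
    calc Real.pi * r ^ 2 * τ ≤ Real.pi * r ^ 2 * ‖f d s‖ := by gcongr
      _ ≤ ∫ z in Metric.ball s r, ‖f d z‖ := h2
      _ ≤ ∫ z in R, ‖f d z‖ := setIntegral_mono_set (hint d (hS hd))
          (Filter.Eventually.of_forall fun _ => norm_nonneg _) hsub.eventuallyLE
  calc S.card * (Real.pi * r ^ 2 * τ) = ∑ _d ∈ S, Real.pi * r ^ 2 * τ := by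
        rw [Finset.sum_const, nsmul_eq_mul]
    _ ≤ ∑ d ∈ S, ∫ s in R, ‖f d s‖ := Finset.sum_le_sum h1
    _ ≤ ∑ d ∈ D, ∫ s in R, ‖f d s‖ := Finset.sum_le_sum_of_subset_of_nonneg hS fun _ _ _ =>
        integral_nonneg fun _ => norm_nonneg _
    _ = ∫ s in R, ∑ d ∈ D, ‖f d s‖ := (integral_finsetSum _ hint).symm
    _ ≤ ∫ _s in R, M := by
        refine setIntegral_mono_on (integrable_finsetSum _ hint)
          (integrableOn_const hRc.measure_lt_top.ne) hRm fun s hs => ?_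
        rw [hR, Complex.mem_reProdIm] at hs
        refine hM s hs.1.1 hs.1.2 ?_
        rw [abs_le]
        exact ⟨by linarith [hs.2.1], by linarith [hs.2.2]⟩
    _ = M * (4 * (b - a)) := by
        rw [setIntegral_const, smul_eq_mul, measureReal_def, hR, vol_rect hab (by linarith)]
        ring

/-- the sum of the weights -/
noncomputable def Sg : ℝ := ∑' n : ℤ, ((2 + |(n : ℝ)|) ^ 2)⁻¹

lemma Sg_summable : Summable fun n : ℤ => ((2 + |(n : ℝ)|) ^ 2)⁻¹ := by
  have h1 : Summable fun n : ℤ => 1 / (n : ℝ) ^ 2 := Real.summable_one_div_int_pow.2 (by norm_num)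
  have h2 : Summable fun n : ℤ => if n = 0 then (1 : ℝ) else 0 :=
    summable_of_ne_finset_zero (s := {0}) fun n hn => if_neg (by simpa using hn)
  refine Summable.of_nonneg_of_le (fun n => by positivity) (fun n => ?_) (h1.add h2)
  by_cases hn : n = 0
  · subst hn
    norm_num
  · rw [if_neg hn, add_zero, one_div]
    have hn' : (n : ℝ) ≠ 0 := by exact_mod_cast hn
    apply inv_anti₀ (by positivity)
    rw [← sq_abs (n : ℝ)]
    apply pow_le_pow_left₀ (abs_nonneg _)
    linarith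

lemma Sg_nonneg : 0 ≤ Sg := tsum_nonneg fun n => by positivity

theorem card_le_fibers (S : Finset ℤ) (g : ℤ → ℤ) (W : ℝ) (hW : 0 ≤ W)
    (h : ∀ n : ℤ, ((S.filter (fun d => g d = n)).card : ℝ) ≤ W * ((2 + |(n : ℝ)|) ^ 2)⁻¹) :
    (S.card : ℝ) ≤ W * Sg := by
  classical
  rw [Finset.card_eq_sum_card_image g S]
  push_cast
  calc ∑ n ∈ S.image g, ((S.filter (fun d => g d = n)).card : ℝ)
      ≤ ∑ n ∈ S.image g, W * ((2 + |(n : ℝ)|) ^ 2)⁻¹ := Finset.sum_le_sum fun n _ => h n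
    _ = W * ∑ n ∈ S.image g, ((2 + |(n : ℝ)|) ^ 2)⁻¹ := by rw [Finset.mul_sum]
    _ ≤ W * Sg := mul_le_mul_of_nonneg_left
        (Sg_summable.sum_le_tsum _ fun _ _ => by positivity) hW

/-- the logarithmic scale at height `t` -/
noncomputable def lm (X : ℕ) (t : ℝ) : ℝ := Real.log (Real.log X) + Real.log (2 + |t|)

lemma one_le_logX {X : ℕ} (hX : 3 ≤ X) : 1 ≤ Real.log X := by
  rw [Real.le_log_iff_exp_le (by positivity)]
  have h := Real.exp_one_lt_d9
  have : (3 : ℝ) ≤ X := by exact_mod_cast hX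
  linarith

lemma lm_ge {X : ℕ} (hX : 3 ≤ X) (t : ℝ) : 1 / 2 ≤ lm X t := by
  have h1 := Real.log_nonneg (one_le_logX hX)
  have h2 : Real.log 2 ≤ Real.log (2 + |t|) :=
    Real.log_le_log (by norm_num) (by linarith [abs_nonneg t])
  have h3 := Real.log_two_gt_d9
  unfold lm
  linarith

lemma lm_near {X : ℕ} (hX : 3 ≤ X) {t u : ℝ} (h : |t - u| ≤ 1) : lm X t ≤ 2 * lm X u := by
  have h0 := Real.log_nonneg (one_le_logX hX)
  have h1 : |t| ≤ |u| + 1 := by
    have := abs_sub_abs_le_abs_sub t u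
    linarith
  have h2 : Real.log (2 + |t|) ≤ Real.log (2 * (2 + |u|)) :=
    Real.log_le_log (by have := abs_nonneg t; linarith) (by have := abs_nonneg u; linarith)
  rw [Real.log_mul (by norm_num) (by have := abs_nonneg u; positivity)] at h2
  have h3 : Real.log 2 ≤ Real.log (2 + |u|) :=
    Real.log_le_log (by norm_num) (by linarith [abs_nonneg u])
  unfold lm
  linarith

lemma exp_lm {X : ℕ} (hX : 3 ≤ X) (t : ℝ) (k : ℕ) :
    Real.exp (k * lm X t) = Real.log X ^ k * (2 + |t|) ^ k := by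
  have h0 : 0 < Real.log X := by linarith [one_le_logX hX]
  have h1 : 0 < 2 + |t| := by have := abs_nonneg t; linarith
  unfold lm
  rw [← Real.log_mul h0.ne' h1.ne', ← Real.log_pow, Real.exp_log (by positivity), mul_pow]

end Pool.Agent.H564.QH
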