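import Pool.Agent.H564.QH.C1
import Pool.Graph.R_seed8.Y474.QTHZ6a
import Pool.Graph.R_seed8.Y19.QT.ZD

/-!
# The mollified `L`-functions of almost all quadratic twists are close to `1` off the critical line
-/

set_option autoImplicit false

open Complex MeasureTheory Set
open Pool.Agent.Y19.QT (Twists Hecke sqf mem_sqf Mol)
open Pool.Agent.Y474.QTZ6 (YY)

namespace Pool.Agent.H564.QH

variable {Q : ℕ} {lam : ℕ → ℝ}

/-- `(A)`: `|L_q M - 1| ≤ 1/2` in the windows -/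
theorem cardA (T : Twists Q lam) (K : ℕ) : ∃ (C K3 : ℝ), 0 < C ∧ 1 ≤ K3 ∧
    ∀ X : ℕ, 3 ≤ X → ∀ S ⊆ sqf X, (∀ d ∈ S, ∃ s : ℂ, K3 * lm X s.im / Real.log X ≤ 1 / 8 ∧
      1 / 2 + 4 * (K3 * lm X s.im / Real.log X) ≤ s.re ∧
      s.re ≤ 1 + K3 * lm X s.im / Real.log X / 16 ∧
      1 / 2 ≤ ‖T.Lq d s * Mol Q lam (YY X) d s - 1‖) →
      (S.card : ℝ) ≤ C * X / Real.log X ^ K := by
  classical
  obtain ⟨C, A, B, hC, hmean⟩ := Pool.Agent.Y474.QTHZ6.mean_boxH T (Pool.Agent.Y369.QTZ1.Z1 T)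
    (Pool.Agent.Y203.QTZ2.Z2 Q lam T.hecke) (Pool.Agent.Y19.QT.HZ3 T)
  set k : ℕ := A + B + K + 4 with hk
  set K1 : ℝ := 4 * k with hK1
  have hk4 : (4 : ℝ) ≤ k := by
    have : 4 ≤ k := by omega
    exact_mod_cast this
  refine ⟨6 * C * Sg + 1, 4 * K1, by have := Sg_nonneg; positivity, by rw [hK1]; linarith,
    fun X hX S hS hbad => ?_⟩
  have hL := one_le_logX hX
  set L := Real.log X with hLdef
  have hL0 : 0 < L := by linarith
  have hX0 : (0 : ℝ) < X := by exact_mod_cast (by omega : 0 < X)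
  have hpi := Real.pi_gt_three
  choose! s hs1 hs2 hs3 hs4 using hbad
  have hn : ∀ d : ℤ, |(s d).im - (round (s d).im : ℝ)| ≤ 1 := fun d =>
    (abs_sub_round _).trans (by norm_num)
  have key := card_le_fibers S (fun d => round (s d).im) (6 * C * X / L ^ K) (by positivity) ?_
  · refine key.trans ?_
    have h1 : 6 * C * X / L ^ K * Sg = 6 * C * Sg * X / L ^ K := by ring
    rw [h1]
    apply div_le_div_of_nonneg_right _ (by positivity)
    apply mul_le_mul_of_nonneg_right _ hX0.le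
    linarith
  intro n
  set Sn := S.filter (fun d => round (s d).im = n) with hSn
  rcases Sn.eq_empty_or_nonempty with hemp | ⟨d0, hd0⟩
  · rw [hemp]
    simp only [Finset.card_empty, Nat.cast_zero]
    positivity
  set μ : ℝ := lm X n with hμ
  set δ : ℝ := K1 * μ / L with hδ
  have hμ1 : 1 / 2 ≤ μ := lm_ge hX _
  have hK1p : 16 ≤ K1 := by rw [hK1]; linarith
  -- comparison of the scales
  have hcmp : ∀ d ∈ Sn, δ ≤ (4 * K1 * lm X (s d).im / L) / 2 ∧
      (4 * K1 * lm X (s d).im / L) / 16 ≤ δ / 2 ∧ |(s d).im - (n : ℝ)| ≤ 1 := by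
    intro d hd
    rw [hSn, Finset.mem_filter] at hd
    have h1 := hn d
    rw [hd.2] at h1
    have h2 := lm_near hX h1
    have h3 : |(n : ℝ) - (s d).im| ≤ 1 := by rw [abs_sub_comm]; exact h1
    have h4 := lm_near hX h3
    refine ⟨?_, ?_, h1⟩
    · rw [hδ, div_div, div_le_div_iff₀ hL0 (by positivity)]
      have : K1 * μ ≤ K1 * (2 * lm X (s d).im) := mul_le_mul_of_nonneg_left h4 (by linarith)
      nlinarith
    · rw [hδ, div_div, div_div, div_le_div_iff₀ (by positivity) (by positivity)]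
      have : K1 * lm X (s d).im ≤ K1 * (2 * μ) := mul_le_mul_of_nonneg_left h2 (by linarith)
      nlinarith
  have hSub : Sn ⊆ S := Finset.filter_subset _ _
  have hδ16 : δ ≤ 1 / 16 := by
    have h1 := (hcmp d0 hd0).1
    have h2 := hs1 d0 (hSub hd0)
    linarith
  have hδL : 8 / L ≤ δ := by
    rw [hδ, div_le_div_iff_of_pos_right hL0]
    nlinarith
  have hδL1 : 1 / L ≤ δ := by
    refine le_trans ?_ hδL
    apply div_le_div_of_nonneg_right _ hL0.le
    norm_num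
  have hδ0 : 0 < δ := lt_of_lt_of_le (by positivity) hδL
  have hd : ∀ d ∈ sqf X, DifferentiableOn ℂ
      (fun s => T.Lq d s * Mol Q lam (YY X) d s - 1) {s | 1 / 4 < s.re} := by
    intro d hd
    have hsq := (mem_sqf.1 hd).2
    have h1 : DifferentiableOn ℂ (T.Lq d) {s | 1 / 4 < s.re} := by
      have h2 : T.Lq d = fun s => T.ell d s * Pool.Agent.Y180.QT12b2.Ep T d s := rfl
      rw [h2]
      refine (Pool.Agent.Y703.QT8.T8a T d hsq).1.differentiableOn.mul ?_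
      have h3 : Pool.Agent.Y180.QT12b2.Ep T d = LSeries (fun n => (T.e' d n : ℂ)) := by
        funext s
        unfold Pool.Agent.Y180.QT12b2.Ep
        rw [Pool.Agent.Y705.QT.tsum_eq_ls (fun n => (T.e' d n : ℂ)) (by simp [(T.e_zero d hsq).2]) s]
      rw [h3]
      exact Pool.Agent.Y705.QT.ls_diff _ (1 / 4) fun y hy =>
        (Pool.Agent.Y705.QT.hE_bound _ _ (T.e'_sum d hsq) (y : ℂ) (by rw [ofReal_re]; exact hy.le)).1
    exact (h1.mul (Pool.Agent.Y180.QT12b2.Mol_diff Q lam (YY X) d).differentiableOn).sub_const 1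
  have hpow : (X : ℝ) ^ (1 - δ / 4) = X / (L ^ k * (2 + |(n : ℝ)|) ^ k) := by
    rw [Real.rpow_sub hX0, Real.rpow_one]
    congr 1
    rw [← exp_lm hX, Real.rpow_def_of_pos hX0, ← hLdef, hδ]
    congr 1
    rw [hK1, ← hμ]
    field_simp
  have h1 := box_card (sqf X) (fun d s => T.Lq d s * Mol Q lam (YY X) d s - 1) hd
    (a := 1 / 2 + 3 * δ) (b := 1 + δ) (y := n) (r := δ / 2)
    (M := C * (1 + (|(n : ℝ)| + 1)) ^ B * (X : ℝ) ^ (1 - δ / 4) * L ^ A) (τ := 1 / 2)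
    (by linarith) (by linarith) (by positivity) (by linarith)
    (fun s h1 h2 h3 => hmean X δ (|(n : ℝ)| + 1) s hX hδL1 (by linarith)
      (by positivity) h1 h2 (by
        have h4 : |s.im| ≤ |s.im - n| + |(n : ℝ)| := by
          calc |s.im| = |(s.im - n) + n| := by ring_nf
            _ ≤ _ := abs_add_le _ _
        linarith))
    Sn (hSub.trans hS) (fun d hd => by
      obtain ⟨h4, h5, h6⟩ := hcmp d hd
      have h7 := hs2 d (hSub hd)
      have h8 := hs3 d (hSub hd)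
      exact ⟨s d, by linarith, by linarith, h6, hs4 d (hSub hd)⟩)
  rw [hpow] at h1
  have hn2 : (1 : ℝ) ≤ 2 + |(n : ℝ)| := by have := abs_nonneg (n : ℝ); linarith
  have hn0 : (0 : ℝ) < 2 + |(n : ℝ)| := by linarith
  -- the bound for `M`
  have hM : C * (1 + (|(n : ℝ)| + 1)) ^ B * (X / (L ^ k * (2 + |(n : ℝ)|) ^ k)) * L ^ A ≤
      C * X / (L ^ (K + 2) * (2 + |(n : ℝ)|) ^ 2) := by
    have e1 : 1 + (|(n : ℝ)| + 1) = 2 + |(n : ℝ)| := by ring
    rw [e1]
    have e2 : L ^ k = L ^ A * (L ^ (K + 2) * L ^ (B + 2)) := by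
      rw [← pow_add, ← pow_add, hk]
      congr 1
      ring
    have e3 : (2 + |(n : ℝ)|) ^ k = (2 + |(n : ℝ)|) ^ B * ((2 + |(n : ℝ)|) ^ 2 *
        (2 + |(n : ℝ)|) ^ (A + K + 2)) := by
      rw [← pow_add, ← pow_add, hk]
      congr 1
      ring
    have e4 : C * (2 + |(n : ℝ)|) ^ B * (X / (L ^ k * (2 + |(n : ℝ)|) ^ k)) * L ^ A =
        C * X / (L ^ (K + 2) * (2 + |(n : ℝ)|) ^ 2) *
          (1 / (L ^ (B + 2) * (2 + |(n : ℝ)|) ^ (A + K + 2))) := by
      rw [e2, e3]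
      field_simp
    rw [e4]
    have h5 : 1 / (L ^ (B + 2) * (2 + |(n : ℝ)|) ^ (A + K + 2)) ≤ 1 := by
      rw [div_le_one (by positivity)]
      have h6 : (1 : ℝ) ≤ L ^ (B + 2) := one_le_pow₀ hL
      have h7 : (1 : ℝ) ≤ (2 + |(n : ℝ)|) ^ (A + K + 2) := one_le_pow₀ hn2
      nlinarith
    exact mul_le_of_le_one_right (by positivity) h5
  have h9 : (Sn.card : ℝ) * (Real.pi * (δ / 2) ^ 2 * (1 / 2)) ≤
      C * X / (L ^ (K + 2) * (2 + |(n : ℝ)|) ^ 2) * 2 := by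
    refine h1.trans ?_
    apply mul_le_mul hM _ (by nlinarith) (by positivity)
    linarith
  have h10 : (1 / L) ^ 2 * (1 / 3) ≤ Real.pi * (δ / 2) ^ 2 * (1 / 2) := by
    have h11 : (1 / L) ^ 2 ≤ δ ^ 2 := pow_le_pow_left₀ (by positivity) hδL1 2
    nlinarith
  have h12 : (Sn.card : ℝ) * ((1 / L) ^ 2 * (1 / 3)) ≤
      C * X / (L ^ (K + 2) * (2 + |(n : ℝ)|) ^ 2) * 2 :=
    (mul_le_mul_of_nonneg_left h10 (Nat.cast_nonneg _)).trans h9
  have e5 : C * X / (L ^ (K + 2) * (2 + |(n : ℝ)|) ^ 2) * 2 =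
      (6 * C * X / L ^ K * ((2 + |(n : ℝ)|) ^ 2)⁻¹) * ((1 / L) ^ 2 * (1 / 3)) := by
    rw [pow_add]
    field_simp
    ring
  rw [e5] at h12
  exact le_of_mul_le_mul_right h12 (by positivity)

/-- `(B)`: the mollifier is at most a power of `(log X) (2 + |t|)` in the windows -/
theorem cardB (T : Twists Q lam) (K : ℕ) : ∃ (C : ℝ) (k : ℕ), 0 < C ∧
    ∀ X : ℕ, 3 ≤ X → ∀ S ⊆ sqf X, (∀ d ∈ S, ∃ s : ℂ, 1 / 2 + 1 / (16 * Real.log X) ≤ s.re ∧
      s.re ≤ 3 / 2 ∧ Real.exp (k * lm X s.im) ≤ ‖Mol Q lam (YY X) d s‖) →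
      (S.card : ℝ) ≤ C * X / Real.log X ^ K := by
  classical
  obtain ⟨C, A, hC, hmean⟩ := Pool.Agent.Y141.QT12c2.T12c2 Q lam T.hecke
  set k : ℕ := A + K + 4 with hk
  refine ⟨600 * C * Sg + 1, k, by have := Sg_nonneg; positivity, fun X hX S hS hbad => ?_⟩
  have hL := one_le_logX hX
  set L := Real.log X with hLdef
  have hL0 : 0 < L := by linarith
  have hX1 : (1 : ℝ) ≤ X := by exact_mod_cast (by omega : 1 ≤ X)
  have hX0 : (0 : ℝ) < X := by linarith
  have hpi := Real.pi_gt_three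
  have hY1 : 1 ≤ YY X := by
    unfold Pool.Agent.Y474.QTZ6.YY
    rw [Nat.one_le_floor_iff]
    exact Real.one_le_rpow hX1 (by norm_num)
  have hY4 : ((YY X : ℕ) : ℝ) ^ 4 ≤ X := by
    have h1 : ((YY X : ℕ) : ℝ) ≤ (X : ℝ) ^ (1 / 4 : ℝ) := by
      unfold Pool.Agent.Y474.QTZ6.YY
      exact Nat.floor_le (by positivity)
    calc ((YY X : ℕ) : ℝ) ^ 4 ≤ ((X : ℝ) ^ (1 / 4 : ℝ)) ^ 4 :=
          pow_le_pow_left₀ (Nat.cast_nonneg _) h1 4
      _ = X := by
          rw [← Real.rpow_natCast, ← Real.rpow_mul hX0.le]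
          norm_num
  choose! s hs1 hs2 hs3 using hbad
  have hn : ∀ d : ℤ, |(s d).im - (round (s d).im : ℝ)| ≤ 1 := fun d =>
    (abs_sub_round _).trans (by norm_num)
  have key := card_le_fibers S (fun d => round (s d).im) (600 * C * X / L ^ K) (by positivity) ?_
  · refine key.trans ?_
    have h1 : 600 * C * X / L ^ K * Sg = 600 * C * Sg * X / L ^ K := by ring
    rw [h1]
    apply div_le_div_of_nonneg_right _ (by positivity)
    apply mul_le_mul_of_nonneg_right _ hX0.le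
    linarith
  intro n
  set Sn := S.filter (fun d => round (s d).im = n) with hSn
  have hSub : Sn ⊆ S := Finset.filter_subset _ _
  have hn2 : (1 : ℝ) ≤ 2 + |(n : ℝ)| := by have := abs_nonneg (n : ℝ); linarith
  have hn0 : (0 : ℝ) < 2 + |(n : ℝ)| := by linarith
  have h16 : 1 / (16 * L) ≤ 1 / 16 := by
    rw [div_le_div_iff₀ (by positivity) (by norm_num)]
    linarith
  have h1 := box_card (sqf X) (fun d s => Mol Q lam (YY X) d s ^ 2)
    (fun d _ => ((Pool.Agent.Y180.QT12b2.Mol_diff Q lam (YY X) d).pow 2).differentiableOn)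
    (a := 1 / 2) (b := 2) (y := n) (r := 1 / (16 * L)) (M := C * X * L ^ A)
    (τ := L ^ k * (2 + |(n : ℝ)|) ^ k) le_rfl (by norm_num) (by positivity) h16
    (fun s h1 h2 h3 => by
      have h4 := hmean X (YY X) s hX hY1 hY4 (by linarith)
      have h5 : max 0 (1 / 2 - s.re) = 0 := max_eq_left (by linarith)
      rw [h5, mul_zero, Real.rpow_zero, mul_one] at h4
      simpa only [norm_pow] using h4)
    Sn (hSub.trans hS) (fun d hd => by
      have h4 := hs1 d (hSub hd)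
      have h5 := hs2 d (hSub hd)
      have h6 := hs3 d (hSub hd)
      rw [hSn, Finset.mem_filter] at hd
      have h7 := hn d
      rw [hd.2] at h7
      have h8 : |(n : ℝ) - (s d).im| ≤ 1 := by rw [abs_sub_comm]; exact h7
      have h9 := lm_near hX h8
      refine ⟨s d, by linarith, by linarith, h7, ?_⟩
      rw [norm_pow, ← exp_lm hX]
      calc Real.exp (k * lm X n) ≤ Real.exp (k * (2 * lm X (s d).im)) := by
            apply Real.exp_le_exp.2
            exact mul_le_mul_of_nonneg_left h9 (Nat.cast_nonneg k)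
        _ = Real.exp (k * lm X (s d).im) ^ 2 := by
            rw [← Real.exp_nat_mul]
            congr 1
            push_cast
            ring
        _ ≤ _ := pow_le_pow_left₀ (Real.exp_pos _).le h6 2)
  have h10 : 1 / (100 * L ^ 2) ≤ Real.pi * (1 / (16 * L)) ^ 2 := by
    have e : Real.pi * (1 / (16 * L)) ^ 2 = Real.pi / 256 / L ^ 2 := by field_simp; norm_num
    have e2 : 1 / (100 * L ^ 2) = 1 / 100 / L ^ 2 := by field_simp
    rw [e, e2]
    apply div_le_div_of_nonneg_right _ (by positivity)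
    linarith
  have h11 : (Sn.card : ℝ) * (1 / (100 * L ^ 2) * (L ^ k * (2 + |(n : ℝ)|) ^ k)) ≤
      C * X * L ^ A * 6 := by
    refine le_trans ?_ (h1.trans (le_of_eq (by ring)))
    gcongr
  have e2 : L ^ k = L ^ A * L ^ K * L ^ 2 * L ^ 2 := by
    rw [← pow_add, ← pow_add, ← pow_add, hk]
  have e3 : (2 + |(n : ℝ)|) ^ k = (2 + |(n : ℝ)|) ^ 2 * (2 + |(n : ℝ)|) ^ (A + K + 2) := by
    rw [← pow_add, hk]
    congr 1
    ring
  have h12 : (1 : ℝ) ≤ L ^ 2 := one_le_pow₀ hL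
  have h13 : (1 : ℝ) ≤ (2 + |(n : ℝ)|) ^ (A + K + 2) := one_le_pow₀ hn2
  have h14 : L ^ A * (L ^ K * (2 + |(n : ℝ)|) ^ 2 / 100) ≤
      1 / (100 * L ^ 2) * (L ^ k * (2 + |(n : ℝ)|) ^ k) := by
    have e4 : 1 / (100 * L ^ 2) * (L ^ k * (2 + |(n : ℝ)|) ^ k) =
        L ^ A * (L ^ K * (2 + |(n : ℝ)|) ^ 2 / 100) * (L ^ 2 * (2 + |(n : ℝ)|) ^ (A + K + 2)) := by
      rw [e2, e3]
      field_simp
    rw [e4]
    have h15 : 1 ≤ L ^ 2 * (2 + |(n : ℝ)|) ^ (A + K + 2) := by nlinarith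
    exact le_mul_of_one_le_right (by positivity) h15
  have h16 : (Sn.card : ℝ) * (L ^ A * (L ^ K * (2 + |(n : ℝ)|) ^ 2 / 100)) ≤ C * X * L ^ A * 6 :=
    (mul_le_mul_of_nonneg_left h14 (Nat.cast_nonneg _)).trans h11
  have e5 : C * X * L ^ A * 6 = (600 * C * X / L ^ K * ((2 + |(n : ℝ)|) ^ 2)⁻¹) *
      (L ^ A * (L ^ K * (2 + |(n : ℝ)|) ^ 2 / 100)) := by
    field_simp
    ring
  rw [e5] at h16
  exact le_of_mul_le_mul_right h16 (by positivity)

end Pool.Agent.H564.QH
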