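import Pool.Agent.H564.QH.B2
import Pool.Agent.H564.QH.A3

/-!
# The local law for newforms of weight 2
-/

set_option autoImplicit false

open Complex MeasureTheory Filter Topology Set MatrixGroups CongruenceSubgroup
open UpperHalfPlane hiding I
open scoped ComplexConjugate

namespace Pool.Agent.H564.QH

open H353.E H353.F Pool.Agent.H466.HF

/-- the shifts -/
noncomputable def mu1 (j : Fin 2) : ℂ := if j = 0 then 0 else -1

lemma gp_const {C : ℝ} {Sg : ℝ → ℝ} {γ D : ℂ → ℂ} (gp : GP C Sg γ D) {c : ℂ} (hc : c ≠ 0) :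
    GP C Sg (fun z => c * γ z) D :=
  ⟨fun s hs => ((gp.der s hs).const_mul c).congr_deriv (by ring),
    fun s hs => mul_ne_zero hc (gp.ne s hs), gp.dD, gp.im, gp.re, gp.gr⟩

lemma mu1_re (j : Fin 2) : (mu1 j).re ≤ 1 / 2 := by
  unfold mu1
  split_ifs
  · simp
  · simp; norm_num

lemma gp1 {N : ℝ} (hN : 1 ≤ N) : GP 12 (fun K => 4 * Real.exp (2 * |K| + 10))
    (fun z => (1 / 2 : ℂ) * gaf N mu1 z) (gaD N mu1) := by
  have h := gaf_GP (m := 2) (by norm_num) hN mu1_re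
  have e : (6 * ((2 : ℕ) : ℝ)) = 12 := by norm_num
  rw [e] at h
  exact gp_const h (by norm_num)

lemma prod_mu1 (t : ℝ) : (1 + |t|) ^ 2 ≤ ∏ j, (1 + ‖(t : ℂ) * I - mu1 j‖) := by
  rw [Fin.prod_univ_two, sq]
  have h : ∀ j, 1 + |t| ≤ 1 + ‖(t : ℂ) * I - mu1 j‖ := by
    intro j
    have h1 := Complex.abs_im_le_norm ((t : ℂ) * I - mu1 j)
    have h2 : ((t : ℂ) * I - mu1 j).im = t := by
      unfold mu1
      split_ifs <;> simp
    rw [h2] at h1
    linarith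
  have := abs_nonneg t
  exact mul_le_mul (h 0) (h 1) (by linarith) (by positivity)

lemma D1_ge {N : ℝ} (hN : 1 ≤ N) (t : ℝ) :
    Real.log (N * (1 + |t|) ^ 2) / 2 - 12 ≤ (gaD N mu1 (3 / 2 + t * I)).re := by
  have h := gaD_re_ge (m := 2) hN mu1_re t
  have hN0 : 0 < N := by linarith
  have ht := abs_nonneg t
  have h1 : Real.log (N * (1 + |t|) ^ 2) ≤ Real.log (N * ∏ j, (1 + ‖(t : ℂ) * I - mu1 j‖)) :=
    Real.log_le_log (by positivity) (mul_le_mul_of_nonneg_left (prod_mu1 t) hN0.le)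
  have e : (6 * ((2 : ℕ) : ℝ)) = 12 := by norm_num
  rw [e] at h
  linarith

section

variable {N : ℕ} [NeZero N] {f : CuspForm (Gamma0 N : Subgroup (GL (Fin 2) ℝ)) 2} {w : ℝ}

lemma one_le_N : (1 : ℝ) ≤ N := by exact_mod_cast Nat.one_le_iff_ne_zero.mpr (NeZero.ne N)

lemma gaf1_eq (z : ℂ) : (1 / 2 : ℂ) * gaf (N : ℝ) mu1 z =
    Complex.Gamma z * ((2 * Real.pi / Real.sqrt N : ℝ) : ℂ) ^ (-z) := by
  have hN1 := one_le_N (N := N)
  have hN0 : (0 : ℝ) < N := by linarith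
  have hR := sqN_pos' (N := N)
  have hpi := Real.pi_pos
  have e2 : z - mu1 0 = z := by simp [mu1]
  have e3 : z - mu1 1 = z + 1 := by simp [mu1]
  unfold gaf
  rw [Fin.prod_univ_two, e2, e3, Gammaℝ_mul_Gammaℝ_add_one, Gammaℂ_def]
  have e4 : (2 * (Real.pi : ℂ)) = ((2 * Real.pi : ℝ) : ℂ) := by push_cast; ring
  rw [e4, cpow_exp (by positivity : (0:ℝ) < 2 * Real.pi), cpow_exp hN0,
    cpow_exp (by positivity : 0 < 2 * Real.pi / Real.sqrt N)]
  have e5 : Real.log (2 * Real.pi / Real.sqrt N) = Real.log (2 * Real.pi) - Real.log N / 2 := by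
    rw [Real.log_div (by positivity) hR.ne', Real.log_sqrt hN0.le]
  rw [e5]
  have e6 : cexp (z / 2 * ((Real.log N : ℝ) : ℂ)) * cexp (-z * ((Real.log (2 * Real.pi) : ℝ) : ℂ)) =
      cexp (-z * ((Real.log (2 * Real.pi) - Real.log N / 2 : ℝ) : ℂ)) := by
    rw [← Complex.exp_add]
    congr 1
    push_cast
    ring
  rw [← e6]
  ring

lemma heat_LL (hf : W388.IsNewf N 2 f w) {l : ℝ} (hl : 0 < l) (s : ℂ) :
    heat (fun s => LL (gE f) 0 (s - 1 / 2)) l s =
      (Real.sqrt (Real.pi * (4 * l)) : ℂ) * LL (gE f) l (s - 1 / 2) := by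
  obtain ⟨A, c, k⟩ := gE_kern f hf
  rw [← k.heat_eq hl (s - 1 / 2)]
  unfold heat
  refine integral_congr_ae (Eventually.of_forall fun v => ?_)
  simp only
  have e : s + v - 1 / 2 = s - 1 / 2 + v := by ring
  rw [e]

/-- translation of simplicity -/
lemma deriv_shift {g : ℂ → ℂ} (hg : Differentiable ℂ g) (c : ℂ) (z : ℂ) :
    deriv (fun s => c * g (s - 1 / 2)) (z + 1 / 2) = c * deriv g z := by
  have e : z + 1 / 2 - 1 / 2 = z := by ring
  have h9 : HasDerivAt g (deriv g z) (z + 1 / 2 - 1 / 2) := by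
    rw [e]
    exact (hg z).hasDerivAt
  have h10 := h9.comp (z + 1 / 2) ((hasDerivAt_id (z + 1 / 2)).sub_const (1 / 2))
  rw [mul_one] at h10
  exact (h10.const_mul c).deriv

/-- **the local law for newforms** -/
theorem newf_local (hf : W388.IsNewf N 2 f w) {Lf : ℂ → ℂ}
    (hcomp : ∀ s : ℂ, 1 / 4 < s.re → LL (gE f) 0 (s - 1 / 2) = Complex.Gamma (s + 1 / 2) *
      ((2 * Real.pi / Real.sqrt N : ℝ) : ℂ) ^ (-(s + 1 / 2)) * Lf s)
    {l : ℝ} (hl : 0 < l) {z : ℂ} {ℓ M0 : ℝ} (hℓd : ℓ = Real.log (N * (1 + |z.im|) ^ 2))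
    (hℓ : 1570000 ≤ ℓ) (hlℓ : l * ℓ ≤ 2) (S : LocS Lf z.im (l * ℓ / 4) M0)
    (hT : 10 ^ 8 * M0 ^ 2 ≤ l * ℓ ^ 2) (hz : LL (gE f) l z = 0) :
    z.re = 0 ∧ deriv (LL (gE f) l) z ≠ 0 := by
  obtain ⟨A, c, k⟩ := gE_kern f hf
  have hw1 : ‖(w : ℂ)‖ = 1 := by
    rcases hf.sign with h | h <;> rw [h] <;> simp
  have hd0 := k.differentiable 0
  have hd := k.differentiable l
  have hc0 : ((Real.sqrt (Real.pi * (4 * l)) : ℝ) : ℂ) ≠ 0 := by
    rw [Ne, ofReal_eq_zero]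
    have := Real.pi_pos
    positivity
  have hheat : heat (fun s => LL (gE f) 0 (s - 1 / 2)) l =
      fun s => (Real.sqrt (Real.pi * (4 * l)) : ℂ) * LL (gE f) l (s - 1 / 2) :=
    funext fun s => heat_LL hf hl s
  have him : (z + 1 / 2 : ℂ).im = z.im := by simp
  have hre : (z + 1 / 2 : ℂ).re = z.re + 1 / 2 := by simp
  have hsh : Differentiable ℂ fun s : ℂ => LL (gE f) l (s - 1 / 2) := hd.comp (by fun_prop)
  have hsh0 : Differentiable ℂ fun s : ℂ => LL (gE f) 0 (s - 1 / 2) := hd0.comp (by fun_prop)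
  have h := fine_law (gp1 (one_le_N (N := N))) (Λ := fun s => LL (gE f) 0 (s - 1 / 2)) (L := Lf)
    hsh0.continuous
    (fun s hs => by
      rw [hcomp s (by linarith), gaf1_eq])
    (ε := (w : ℂ)) hw1
    (fun s => by
      have e : (1 - conj s) - 1 / 2 = -conj (s - 1 / 2) := by
        rw [map_sub, map_div₀, map_one, map_ofNat]
        ring
      rw [e]
      exact LL_fe hf 0 (s - 1 / 2))
    (C0 := 12) (l := l) (ℓ := ℓ) (M0 := M0) (by norm_num) (by norm_num) hl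
    (by norm_num; linarith) hlℓ
    (by rw [hheat]; exact hsh.const_mul _)
    (s := z + 1 / 2) (by rw [him, hℓd]; exact D1_ge one_le_N _) (by rw [him]; exact S) hT
    (by
      rw [hheat]
      have : z + 1 / 2 - 1 / 2 = z := by ring
      simp only
      rw [this, hz, mul_zero])
  rw [hheat, deriv_shift hd, hre] at h
  exact ⟨by linarith [h.1], right_ne_zero_of_mul h.2⟩

end

end Pool.Agent.H564.QH
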