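import Pool.Agent.H564.QH.D1
import Pool.Agent.H487.NZ.XDatum

/-!
# The flow of a newform of weight 2 in the two normalisations
-/

set_option autoImplicit false

open Complex MeasureTheory Filter Topology Set MatrixGroups CongruenceSubgroup
open UpperHalfPlane hiding I
open scoped ComplexConjugate

namespace Pool.Agent.H564.QH

open Pool.Agent.H487 Pool.Agent.H466.HF

section

variable {N : ℕ} [NeZero N] {f : CuspForm (Gamma0 N : Subgroup (GL (Fin 2) ℝ)) 2} {w : ℝ}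

/-- the constant of normalisation -/
noncomputable def kn (N : ℕ) : ℂ := 2 * cexp ((-1 / 4) * ((Real.log N : ℝ) : ℂ))

lemma kn_ne (N : ℕ) : kn N ≠ 0 := mul_ne_zero two_ne_zero (Complex.exp_ne_zero _)

lemma xi_eq : NB.xi (N : ℝ) (LamD f) = fun z => kn N * LL (gE f) 0 (z - 1 / 2) := by
  have hN0 : (0 : ℝ) < N := by have := one_le_N (N := N); linarith
  funext z
  unfold NB.xi LamD kn
  rw [cpow_exp hN0, cpow_exp hN0]
  have e : cexp (z / 2 * ((Real.log N : ℝ) : ℂ)) * cexp ((-1 / 4 - z / 2) * ((Real.log N : ℝ) : ℂ)) =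
      cexp ((-1 / 4) * ((Real.log N : ℝ) : ℂ)) := by
    rw [← Complex.exp_add]
    congr 1
    ring
  rw [← e]
  ring

lemma flow_eq (hf : W388.IsNewf N 2 f w)
    (hgood : ∀ p : ℕ, p.Prime → ¬ p ∣ N → |W388.lamf f p| ≤ 2)
    (hbad : ∀ p : ℕ, p.Prime → p ∣ N → |W388.lamf f p| ≤ 1) {t : ℝ} (ht : 0 < t) :
    NB.flow t (NB.xi (N : ℝ) (LamD f)) = fun s => kn N * LL (gE f) t (s - 1 / 2) := by
  have d := datum_newf hf hgood hbad
  have C0 := NB.datum_cl (by norm_num : 1 ≤ 2) (θ := 0) le_rfl (by norm_num) d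
  have hpi := Real.pi_pos
  rw [← NB.heat_eq_flow C0.diff C0.type0 ht]
  funext s
  have h1 := heat_LL hf ht s
  unfold NB.heat
  rw [xi_eq]
  unfold Pool.Agent.H466.HF.heat at h1
  have h2 : ∫ x : ℝ, (kn N * LL (gE f) 0 (s + x - 1 / 2)) * ((Real.exp (-(x ^ 2 / (4 * t))) : ℝ) : ℂ) =
      kn N * ((Real.sqrt (Real.pi * (4 * t)) : ℂ) * LL (gE f) t (s - 1 / 2)) := by
    rw [← h1, ← integral_const_mul]
    refine integral_congr_ae (Eventually.of_forall fun v => ?_)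
    simp only
    rw [neg_div]
    ring
  simp only
  rw [h2]
  have h3 : Real.sqrt (4 * Real.pi * t) = Real.sqrt (Real.pi * (4 * t)) := by
    congr 1; ring
  rw [h3]
  have h4 : 0 < Real.sqrt (Real.pi * (4 * t)) := Real.sqrt_pos.2 (by positivity)
  have h5 : ((1 / Real.sqrt (Real.pi * (4 * t)) : ℝ) : ℂ) * ((Real.sqrt (Real.pi * (4 * t)) : ℝ) : ℂ) = 1 := by
    rw [← ofReal_mul, one_div, inv_mul_cancel₀ h4.ne', ofReal_one]
  calc ((1 / Real.sqrt (Real.pi * (4 * t)) : ℝ) : ℂ) *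
        (kn N * ((Real.sqrt (Real.pi * (4 * t)) : ℂ) * LL (gE f) t (s - 1 / 2)))
      = (((1 / Real.sqrt (Real.pi * (4 * t)) : ℝ) : ℂ) * ((Real.sqrt (Real.pi * (4 * t)) : ℝ) : ℂ)) *
        (kn N * LL (gE f) t (s - 1 / 2)) := by ring
    _ = _ := by rw [h5, one_mul]

lemma cond_ge (y : ℝ) : (N : ℝ) * (1 + |y|) ^ 2 ≤ NB.cond (N : ℝ) mu2 y := by
  unfold NB.cond
  exact mul_le_mul_of_nonneg_left (prod_mu y) (Nat.cast_nonneg N)

/-- the local law with a zero free region -/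
theorem coarse_one {η : ℝ} (hη : 0 < η) : ∃ A t₁ : ℝ, 0 < A ∧ 0 < t₁ ∧
    ∀ (N : ℕ) [NeZero N] (f : CuspForm (Gamma0 N : Subgroup (GL (Fin 2) ℝ)) 2) (w : ℝ),
    W388.IsNewf N 2 f w → (∀ p : ℕ, p.Prime → ¬ p ∣ N → |W388.lamf f p| ≤ 2) →
    (∀ p : ℕ, p.Prime → p ∣ N → |W388.lamf f p| ≤ 1) →
    ∀ (y t b : ℝ), 0 < t → t ≤ t₁ → 0 ≤ b → 2 * b + η ≤ t * Real.log (N * (1 + |y|) ^ 2) →
    (∀ z : ℂ, b < z.re → |z.im - y| ≤ A → LL (gE f) 0 z ≠ 0) →
    ∀ z : ℂ, z.im = y → LL (gE f) t z = 0 → z.re = 0 ∧ deriv (LL (gE f) t) z ≠ 0 := by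
  obtain ⟨A, t₁, hA, ht₁, H⟩ := NZ.datum_conv 2 (by norm_num) (θ := 0) le_rfl (by norm_num) hη
  refine ⟨A, t₁, hA, ht₁, fun N _ f w hf hgood hbad y t b ht htt hb hbt hfree z hzy hz => ?_⟩
  have d := datum_newf hf hgood hbad
  obtain ⟨A', c', k⟩ := gE_kern f hf
  have hN0 : (0 : ℝ) < N := by have := one_le_N (N := N); linarith
  have hy := abs_nonneg y
  have him : (z + 1 / 2 : ℂ).im = z.im := by simp
  have hre : (z + 1 / 2 : ℂ).re = z.re + 1 / 2 := by simp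
  have e : z + 1 / 2 - 1 / 2 = z := by ring
  have h := H (N : ℝ) mu2 (al f) (w : ℂ) (LamD f) d y t b ht htt hb
    (hbt.trans (mul_le_mul_of_nonneg_left (Real.log_le_log (by positivity) (cond_ge y)) ht.le))
    (fun z hz1 hz2 hz3 => by
      rw [xi_eq] at hz3
      have h1 := (mul_eq_zero.1 hz3).resolve_left (kn_ne N)
      have h2 : (z - 1 / 2 : ℂ).re = z.re - 1 / 2 := by simp
      have h3 : (z - 1 / 2 : ℂ).im = z.im := by simp
      exact hfree (z - 1 / 2) (by rw [h2]; linarith) (by rw [h3]; exact hz2) h1)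
    (z + 1 / 2) (by rw [him, hzy])
    (by
      rw [flow_eq hf hgood hbad ht]
      simp only
      rw [e, hz, mul_zero])
  rw [flow_eq hf hgood hbad ht, deriv_shift (k.differentiable t), hre] at h
  exact ⟨by linarith [h.1], right_ne_zero_of_mul h.2⟩

/-- monotonicity -/
theorem mono_one (hf : W388.IsNewf N 2 f w)
    (hgood : ∀ p : ℕ, p.Prime → ¬ p ∣ N → |W388.lamf f p| ≤ 2)
    (hbad : ∀ p : ℕ, p.Prime → p ∣ N → |W388.lamf f p| ≤ 1) {t t' : ℝ} (ht : 0 < t) (htt : t ≤ t')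
    (h : ∀ z : ℂ, LL (gE f) t z = 0 → z.re = 0) : ∀ z : ℂ, LL (gE f) t' z = 0 → z.re = 0 := by
  have d := datum_newf hf hgood hbad
  have h1 := NB.datum_mono (by norm_num : 1 ≤ 2) (θ := 0) le_rfl (by norm_num) d ht.le htt (by
    intro s hs
    rw [flow_eq hf hgood hbad ht] at hs
    have h2 := h _ ((mul_eq_zero.1 hs).resolve_left (kn_ne N))
    have h3 : (s - 1 / 2 : ℂ).re = s.re - 1 / 2 := by simp
    rw [h3] at h2
    linarith)
  intro z hz
  have e : z + 1 / 2 - 1 / 2 = z := by ring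
  have h2 := h1 (z + 1 / 2) (by
    rw [flow_eq hf hgood hbad (lt_of_lt_of_le ht htt)]
    simp only
    rw [e, hz, mul_zero])
  have hre : (z + 1 / 2 : ℂ).re = z.re + 1 / 2 := by simp
  rw [hre] at h2
  linarith

end

end Pool.Agent.H564.QH
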