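import Pool.Agent.H564.QH.D3
import Pool.Agent.H564.QH.C5

/-!
# The heat flow of almost all quadratic twists: heights up to a power of the conductor, and all heights
-/

set_option autoImplicit false

open Complex MeasureTheory Filter Topology Set MatrixGroups CongruenceSubgroup
open UpperHalfPlane hiding I
open Pool.Agent.Y19.QT (Twists Hecke IsFormOf sqf mem_sqf Mol)
open Pool.Agent.Y180.QT12b2 (Ep)

namespace Pool.Agent.H564.QH

open Pool.Agent.H466.HF

variable {Q : ℕ} {lam : ℕ → ℝ}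

/-- a power of the logarithm is less than a small power -/
lemma log_pow_le (A : ℕ) {e : ℝ} (he : 0 < e) : ∃ C : ℝ, 1 ≤ C ∧ ∀ X : ℕ, 3 ≤ X →
    Real.log X ^ A ≤ C * (X : ℝ) ^ e := by
  refine ⟨max 1 (A.factorial / e ^ A), le_max_left _ _, fun X hX => ?_⟩
  have hX0 : (0 : ℝ) < X := by exact_mod_cast (by omega : 0 < X)
  have hL := one_le_logX hX
  have h4 := Real.pow_div_factorial_le_exp (e * Real.log X) (by positivity) A
  have h5 : Real.exp (e * Real.log X) = (X : ℝ) ^ e := by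
    rw [Real.rpow_def_of_pos hX0, mul_comm]
  rw [h5, div_le_iff₀ (by positivity), mul_pow] at h4
  have h6 : Real.log X ^ A ≤ A.factorial / e ^ A * (X : ℝ) ^ e := by
    rw [div_mul_eq_mul_div, le_div_iff₀ (by positivity)]
    linarith
  refine h6.trans ?_
  gcongr
  exact le_max_right _ _

/-- **zero free regions** for almost all twists, with a power saving -/
theorem zero_free (T : Twists Q lam) {b : ℝ} (hb : 0 < b) (A : ℝ) (hA : 0 ≤ A) : ∃ (C c κ : ℝ),
    0 < C ∧ 0 < c ∧ c ≤ 1 / 2 ∧ 0 < κ ∧ κ ≤ 1 ∧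
    ∀ X : ℕ, 3 ≤ X → ∃ S ⊆ sqf X, (S.card : ℝ) ≤ C * (X : ℝ) ^ (1 - c) ∧
      ∀ d ∈ sqf X, d ∉ S → Real.sqrt X < |(d : ℝ)| ∧
        ∀ s : ℂ, 1 / 2 + b ≤ s.re → |s.im| ≤ (X : ℝ) ^ κ + A → T.Lq d s ≠ 0 := by
  classical
  obtain ⟨C, c0, A0, B, hC, hc0, h⟩ := Pool.Agent.Y19.QT.HZ6 T
  set e : ℝ := min (c0 * b) 1 with he
  have he0 : 0 < e := lt_min (by positivity) one_pos
  have he1 : e ≤ 1 := min_le_right _ _
  have he2 : e ≤ c0 * b := min_le_left _ _
  set κ : ℝ := e / (4 * (B + 1)) with hκ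
  have hB1 : (0 : ℝ) ≤ B := Nat.cast_nonneg B
  have hκ0 : 0 < κ := by positivity
  have hκB : κ * B ≤ e / 4 := by
    rw [hκ, div_mul_eq_mul_div, div_le_div_iff₀ (by positivity) (by norm_num)]
    nlinarith
  have hκ1 : κ ≤ 1 := by
    rw [hκ, div_le_one (by positivity)]
    linarith
  obtain ⟨C1, hC1, hlog⟩ := log_pow_le A0 (show 0 < e / 4 by positivity)
  refine ⟨C * (2 + A) ^ B * C1 + 3, e / 2, κ, by positivity, by positivity, by linarith, hκ0, hκ1,
    fun X hX => ?_⟩
  have hX1 : (1 : ℝ) ≤ X := by exact_mod_cast (by omega : 1 ≤ X)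
  have hX0 : (0 : ℝ) < X := by linarith
  set U : ℝ := (X : ℝ) ^ κ + A with hU
  have hXκ : 1 ≤ (X : ℝ) ^ κ := Real.one_le_rpow hX1 hκ0.le
  have hU0 : 0 ≤ U := by rw [hU]; linarith
  set S1 := (sqf X).filter (fun d => ∃ s : ℂ, 1 / 2 + b ≤ s.re ∧ |s.im| ≤ U ∧ T.Lq d s = 0) with hS1
  set S2 := (sqf X).filter (fun d : ℤ => |(d : ℝ)| ≤ Real.sqrt X) with hS2
  refine ⟨S1 ∪ S2, Finset.union_subset (Finset.filter_subset _ _) (Finset.filter_subset _ _), ?_, ?_⟩
  · -- cardinality
    have hex : ∀ d : ℤ, ∃ s : ℂ, d ∈ S1 → 1 / 2 + b ≤ s.re ∧ |s.im| ≤ U ∧ T.Lq d s = 0 := by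
      intro d
      by_cases hd : d ∈ S1
      · obtain ⟨s, hs⟩ := (Finset.mem_filter.1 hd).2
        exact ⟨s, fun _ => hs⟩
      · exact ⟨0, fun h => absurd h hd⟩
    choose s hs using hex
    have h1 := h X (1 / 2 + b) U (fun d => if d ∈ S1 then {s d} else ∅) hX (by linarith) hU0 (by
      intro d hd ρ hρ
      by_cases hd1 : d ∈ S1
      · rw [if_pos hd1, Finset.mem_singleton] at hρ
        subst hρ
        obtain ⟨a1, a2, a3⟩ := hs d hd1
        exact ⟨a3, a1, a2⟩
      · rw [if_neg hd1] at hρ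
        exact absurd hρ (Finset.notMem_empty _))
    have h2 : (S1.card : ℝ) ≤ ∑ d ∈ sqf X, ∑ ρ ∈ (if d ∈ S1 then {s d} else (∅ : Finset ℂ)),
        ((analyticOrderAt (T.Lq d) ρ).toNat : ℝ) := by
      calc (S1.card : ℝ) = ∑ _d ∈ S1, (1 : ℝ) := by rw [Finset.sum_const, nsmul_eq_mul, mul_one]
        _ ≤ ∑ d ∈ S1, ∑ ρ ∈ (if d ∈ S1 then {s d} else (∅ : Finset ℂ)),
            ((analyticOrderAt (T.Lq d) ρ).toNat : ℝ) := by
            refine Finset.sum_le_sum fun d hd => ?_
            rw [if_pos hd, Finset.sum_singleton]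
            obtain ⟨a1, a2, a3⟩ := hs d hd
            have hsq := (mem_sqf.1 (Finset.mem_filter.1 hd).1).2
            have h3 := Pool.Agent.Y19.QT.order_Lq_ne_top T hsq a3 (by linarith)
            have h4 : analyticOrderAt (T.Lq d) (s d) ≠ 0 := by
              intro h5
              have h6 : AnalyticAt ℂ (T.Lq d) (s d) := by
                have hmem : {s : ℂ | 1 / 4 < s.re} ∈ 𝓝 (s d) :=
                  (isOpen_lt continuous_const Complex.continuous_re).mem_nhds (by
                    show 1 / 4 < (s d).re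
                    linarith)
                exact (Pool.Agent.Y703.QT12.Lq_diff T hsq).analyticAt hmem
              exact (h6.analyticOrderAt_eq_zero.1 h5) a3
            have h5 : (analyticOrderAt (T.Lq d) (s d)).toNat ≠ 0 := by
              intro h6
              rcases ENat.toNat_eq_zero.1 h6 with h7 | h7
              · exact h4 h7
              · exact h3 h7
            have h6 : 1 ≤ (analyticOrderAt (T.Lq d) (s d)).toNat := Nat.one_le_iff_ne_zero.2 h5
            exact_mod_cast h6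
        _ ≤ _ := Finset.sum_le_sum_of_subset_of_nonneg (Finset.filter_subset _ _)
            fun d _ _ => Finset.sum_nonneg fun _ _ => Nat.cast_nonneg _
    have h3 : (S1.card : ℝ) ≤ C * (2 + A) ^ B * C1 * (X : ℝ) ^ (1 - e / 2) := by
      refine (h2.trans h1).trans ?_
      have a1 : (1 + U) ^ B ≤ (2 + A) ^ B * (X : ℝ) ^ (e / 4) := by
        have a2 : 1 + U ≤ (2 + A) * (X : ℝ) ^ κ := by
          rw [hU]
          nlinarith
        calc (1 + U) ^ B ≤ ((2 + A) * (X : ℝ) ^ κ) ^ B := pow_le_pow_left₀ (by linarith) a2 B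
          _ = (2 + A) ^ B * (X : ℝ) ^ (κ * B) := by
              rw [mul_pow, ← Real.rpow_natCast ((X : ℝ) ^ κ), ← Real.rpow_mul hX0.le]
          _ ≤ _ := by
              gcongr
      have a3 : (X : ℝ) ^ (1 - c0 * (1 / 2 + b - 1 / 2)) ≤ (X : ℝ) ^ (1 - e) := by
        apply Real.rpow_le_rpow_of_exponent_le hX1
        have : c0 * (1 / 2 + b - 1 / 2) = c0 * b := by ring
        rw [this]
        linarith
      have a4 := hlog X hX
      have a5 : (X : ℝ) ^ (1 - e / 2) = (X : ℝ) ^ (e / 4) * (X : ℝ) ^ (1 - e) * (X : ℝ) ^ (e / 4) := by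
        rw [← Real.rpow_add hX0, ← Real.rpow_add hX0]
        congr 1
        ring
      have hLp : 0 ≤ Real.log X := by linarith [one_le_logX hX]
      calc C * (1 + U) ^ B * (X : ℝ) ^ (1 - c0 * (1 / 2 + b - 1 / 2)) * Real.log X ^ A0
          ≤ C * ((2 + A) ^ B * (X : ℝ) ^ (e / 4)) * (X : ℝ) ^ (1 - e) * (C1 * (X : ℝ) ^ (e / 4)) := by
            gcongr
        _ = _ := by rw [a5]; ring
    have h4 : (S2.card : ℝ) ≤ 3 * (X : ℝ) ^ (1 - e / 2) := by
      set m : ℕ := ⌊Real.sqrt X⌋₊ with hm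
      have hs1 : 1 ≤ Real.sqrt X := Real.one_le_sqrt.2 hX1
      have h1 : S2 ⊆ Finset.Icc (-(m : ℤ)) m := by
        intro d hd
        have h2 := (Finset.mem_filter.1 hd).2
        have h3 : (|d| : ℤ).toNat ≤ m := by
          rw [hm, Nat.le_floor_iff (by positivity)]
          have h4 : (((|d| : ℤ).toNat : ℕ) : ℝ) = |(d : ℝ)| := by
            have h5 : (((|d| : ℤ).toNat : ℕ) : ℤ) = |d| := Int.toNat_of_nonneg (abs_nonneg d)
            have h6 : ((((|d| : ℤ).toNat : ℕ) : ℤ) : ℝ) = ((|d| : ℤ) : ℝ) := by rw [h5]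
            rw [Int.cast_abs] at h6
            exact_mod_cast h6
          rw [h4]
          exact h2
        have h5 : |d| ≤ (m : ℤ) := by
          have := Int.toNat_of_nonneg (abs_nonneg d)
          omega
        rw [Finset.mem_Icc]
        exact abs_le.1 h5
      have h3 := Finset.card_le_card h1
      rw [Int.card_Icc] at h3
      have h4 : S2.card ≤ 2 * m + 1 := by omega
      have h5 : (S2.card : ℝ) ≤ 2 * m + 1 := by exact_mod_cast h4
      have h6 : (m : ℝ) ≤ Real.sqrt X := Nat.floor_le (by positivity)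
      have h7 : Real.sqrt X ≤ (X : ℝ) ^ (1 - e / 2) := by
        rw [Real.sqrt_eq_rpow]
        exact Real.rpow_le_rpow_of_exponent_le hX1 (by linarith)
      linarith
    have h5 : (((S1 ∪ S2).card : ℕ) : ℝ) ≤ S1.card + S2.card := by
      exact_mod_cast Finset.card_union_le S1 S2
    calc (((S1 ∪ S2).card : ℕ) : ℝ) ≤ S1.card + S2.card := h5
      _ ≤ C * (2 + A) ^ B * C1 * (X : ℝ) ^ (1 - e / 2) + 3 * (X : ℝ) ^ (1 - e / 2) := add_le_add h3 h4
      _ = _ := by ring
  · intro d hd hdS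
    simp only [Finset.mem_union, not_or] at hdS
    obtain ⟨h1, h2⟩ := hdS
    rw [hS1, Finset.mem_filter] at h1
    rw [hS2, Finset.mem_filter] at h2
    refine ⟨?_, fun s hs1 hs2 hs3 => h1 ⟨hd, s, hs1, hs2, hs3⟩⟩
    by_contra hcon
    push Not at hcon
    exact h2 ⟨hd, hcon⟩

end Pool.Agent.H564.QH
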