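import Pool.Agent.H564.QH.D4

/-!
# The heat flow of almost all quadratic twists: heights up to a power of the conductor, and all heights
-/

set_option autoImplicit false

open Complex MeasureTheory Filter Topology Set MatrixGroups CongruenceSubgroup
open UpperHalfPlane hiding I
open Pool.Agent.Y19.QT (Twists Hecke IsFormOf sqf mem_sqf Mol)
open Pool.Agent.Y180.QT12b2 (Ep)

namespace Pool.Agent.H564.QH

open Pool.Agent.H466.HF

variable {Q : ℕ} {lam : ℕ → ℝ}

/-- the completed function of the newform does not vanish where `Lq` does not -/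
lemma LL_ne (T : Twists Q lam) {a b : ℤ}
    (hQ : ∀ p : ℕ, p.Prime → (p : ℤ) ∣ 2 * (4 * a ^ 3 + 27 * b ^ 2) → p ∣ Q)
    (hlam : ∀ p : ℕ, p.Prime → ¬ p ∣ Q → lam p = Pool.Agent.Y19.QT.ap a b p / Real.sqrt p)
    {d : ℤ} (hd : Squarefree d) {N : ℕ} [NeZero N]
    {f : CuspForm (Gamma0 N : Subgroup (GL (Fin 2) ℝ)) 2} {w : ℝ}
    (hf : W388.IsNewf N 2 f w) (hff : IsFormOf (a * d ^ 2) (b * d ^ 3) N f)
    (hgood : ∀ p : ℕ, p.Prime → ¬ p ∣ N → |W388.lamf f p| ≤ 2)
    (hbad : ∀ p : ℕ, p.Prime → p ∣ N → |W388.lamf f p| ≤ 1) {z : ℂ} (hz : -1 / 4 < z.re)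
    (h : T.Lq d (z + 1 / 2) ≠ 0) : LL (gE f) 0 z ≠ 0 := by
  obtain ⟨hNq, κ, hκ1, hκ2, hmel, hell⟩ := unique T hQ hlam hd hf hff hgood hbad
  intro h0
  apply h
  have hre : (z + 1 / 2 : ℂ).re = z.re + 1 / 2 := by simp
  have h1 := hmel (z + 1 / 2) (by rw [hre]; linarith)
  have e : z + 1 / 2 - 1 / 2 = z := by ring
  rw [e, h0, mul_zero, mellin_ell T hd (by rw [hre]; linarith)] at h1
  have hG : Complex.Gamma (z + 1 / 2 + 1 / 2) ≠ 0 := Complex.Gamma_ne_zero_of_re_pos (by
    have : (z + 1 / 2 + 1 / 2).re = z.re + 1 := by simp; ring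
    rw [this]; linarith)
  have hq := q_pos T hd
  have hpi := Real.pi_pos
  have hp : (((2 * Real.pi / T.q d : ℝ) : ℂ)) ^ (-(z + 1 / 2 + 1 / 2)) ≠ 0 := by
    rw [Complex.cpow_ne_zero_iff]
    left
    have : 0 < 2 * Real.pi / T.q d := by positivity
    exact_mod_cast this.ne'
  have h2 := (mul_eq_zero.1 h1).resolve_left (mul_ne_zero hG hp)
  have e2 : T.Lq d (z + 1 / 2) = T.ell d (z + 1 / 2) * Ep T d (z + 1 / 2) := rfl
  rw [e2, h2, zero_mul]

/-- **coarse laws for almost all quadratic twists**, with a power saving in the exceptional set -/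
theorem coarse_all (T : Twists Q lam) {a b : ℤ}
    (hQ : ∀ p : ℕ, p.Prime → (p : ℤ) ∣ 2 * (4 * a ^ 3 + 27 * b ^ 2) → p ∣ Q)
    (hlam : ∀ p : ℕ, p.Prime → ¬ p ∣ Q → lam p = Pool.Agent.Y19.QT.ap a b p / Real.sqrt p)
    (N : ℤ → ℕ) (f : ∀ d : ℤ, CuspForm (Gamma0 (N d) : Subgroup (GL (Fin 2) ℝ)) 2)
    (hf : ∀ d : ℤ, d ≠ 0 → IsFormOf (a * d ^ 2) (b * d ^ 3) (N d) (f d)) {η : ℝ} (hη : 0 < η) :
    ∃ C c : ℝ, 0 < c ∧ ∀ X : ℕ, 3 ≤ X → ∃ S ⊆ sqf X, (S.card : ℝ) ≤ C * (X : ℝ) ^ (1 - c) ∧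
      ∀ d ∈ sqf X, d ∉ S →
        (∀ (l : ℝ) (z : ℂ), η / Real.log X ≤ l → l ≤ 1 → |z.im| ≤ (X : ℝ) ^ c →
          LL (gE (f d)) l z = 0 → z.re = 0 ∧ deriv (LL (gE (f d)) l) z ≠ 0) ∧
        (∀ (l : ℝ) (z : ℂ), (1 - c) / Real.log (N d) ≤ l → LL (gE (f d)) l z = 0 → z.re = 0) := by
  classical
  set e : ℝ := min η 1 / 8 with he
  have he0 : 0 < e := by rw [he]; positivity
  have he1 : e ≤ 1 / 8 := by rw [he]; linarith [min_le_right η 1]
  have heη : 8 * e ≤ η := by rw [he]; linarith [min_le_left η 1]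
  obtain ⟨A, t₁, hA, ht₁, H1⟩ := coarse_one he0
  obtain ⟨C, c, κ, hC, hc, hc2, hκ, hκ1, HZ⟩ := zero_free T he0 A hA.le
  obtain ⟨Q1, H2⟩ := newf_heat (η := 1) (K := 1) one_pos le_rfl
  obtain ⟨Q2, H3⟩ := newf_heat (η := κ / 6) (K := 1) (by positivity) le_rfl
  have hTc : 1 ≤ T.c := T.one_le_c
  have hTc0 : 0 < T.c := by linarith
  have hlT : 0 ≤ Real.log T.c := Real.log_nonneg hTc
  set c' : ℝ := min c (κ / 6) with hc'
  have hc'0 : 0 < c' := lt_min hc (by positivity)
  have hc'c : c' ≤ c := min_le_left _ _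
  have hc'κ : c' ≤ κ / 6 := min_le_right _ _
  set L1 : ℝ := 4 * Real.log T.c + 1 + 2 * |Q1| + 2 * |Q2| + 4 / t₁ + 4 with hL1
  have hL1a : 4 * Real.log T.c + 1 ≤ L1 := by
    rw [hL1]; have := abs_nonneg Q1; have := abs_nonneg Q2
    have : 0 < 4 / t₁ := by positivity
    linarith
  have hL1b : 2 * Q1 ≤ L1 := by
    rw [hL1]; have := le_abs_self Q1; have := abs_nonneg Q1; have := abs_nonneg Q2
    have : 0 < 4 / t₁ := by positivity
    linarith
  have hL1c : 2 * Q2 ≤ L1 := by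
    rw [hL1]; have := le_abs_self Q2; have := abs_nonneg Q1; have := abs_nonneg Q2
    have : 0 < 4 / t₁ := by positivity
    linarith
  have hL1d : 4 / t₁ + 4 ≤ L1 := by
    rw [hL1]; have := abs_nonneg Q1; have := abs_nonneg Q2
    linarith
  refine ⟨max C (3 * Real.exp (L1)), c', hc'0, fun X hX => ?_⟩
  have hX1 : (1 : ℝ) ≤ X := by exact_mod_cast (by omega : 1 ≤ X)
  have hX0 : (0 : ℝ) < X := by linarith
  have hL := one_le_logX hX
  set L := Real.log X with hLd
  have hLp : 0 < L := by linarith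
  have hXc : (X : ℝ) ^ (1 - c) ≤ (X : ℝ) ^ (1 - c') :=
    Real.rpow_le_rpow_of_exponent_le hX1 (by linarith)
  by_cases hbig : L1 ≤ L
  · obtain ⟨S, hS1, hS2, hS3⟩ := HZ X hX
    refine ⟨S, hS1, hS2.trans ?_, fun d hd hdS => ?_⟩
    · exact mul_le_mul (le_max_left _ _) hXc (by positivity) (by positivity)
    have hsq : Squarefree d := (mem_sqf.1 hd).2
    obtain ⟨hdX, hfree⟩ := hS3 d hd hdS
    have hff := hf d hsq.ne_zero
    obtain ⟨w, hnf, hgood, hbad⟩ := newf_of hff
    have : NeZero (N d) := ⟨hff.pos.ne'⟩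
    have hNq := (unique T hQ hlam hsq hnf hff hgood hbad).1
    have hq := q_pos T hsq
    have hN1 := one_le_N (N := N d)
    have hN0 : (0 : ℝ) < N d := by linarith
    have hlN : Real.log (N d) = 2 * Real.log (T.q d) := by
      rw [← hNq, Real.log_sqrt (Nat.cast_nonneg _)]
      ring
    have hNlo : L / 2 ≤ Real.log (N d) := by
      have h2 : Real.sqrt X ≤ T.c * T.q d := hdX.le.trans (T.q_lower d hsq)
      have h3 : Real.log (Real.sqrt X) ≤ Real.log (T.c * T.q d) :=
        Real.log_le_log (Real.sqrt_pos.2 hX0) h2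
      rw [Real.log_sqrt hX0.le, Real.log_mul hTc0.ne' hq.ne'] at h3
      rw [hlN]
      linarith
    have hNup : Real.log (N d) ≤ 3 * L := by
      have h2 : |(d : ℝ)| ≤ X := by exact_mod_cast (mem_sqf.1 hd).1
      have h3 : T.q d ≤ T.c * X := (T.q_upper d hsq).trans (mul_le_mul_of_nonneg_left h2 hTc0.le)
      have h4 := Real.log_le_log hq h3
      rw [Real.log_mul hTc0.ne' hX0.ne'] at h4
      rw [hlN]
      linarith
    set ℓN := Real.log (N d) with hℓN
    have hℓN0 : 0 < ℓN := by linarith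
    have hmono : ∀ y : ℝ, ℓN ≤ Real.log (N d * (1 + |y|) ^ 2) := by
      intro y
      apply Real.log_le_log hN0
      have h1 : 1 ≤ (1 + |y|) ^ 2 := one_le_pow₀ (by linarith [abs_nonneg y])
      nlinarith
    -- the zero free region
    have hzf : ∀ y : ℝ, |y| ≤ (X : ℝ) ^ κ → ∀ z : ℂ, e < z.re → |z.im - y| ≤ A →
        LL (gE (f d)) 0 z ≠ 0 := by
      intro y hy z hz1 hz2
      refine LL_ne T hQ hlam hsq hnf hff hgood hbad (by linarith) (hfree _ ?_ ?_)
      · have : (z + 1 / 2 : ℂ).re = z.re + 1 / 2 := by simp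
        rw [this]; linarith
      · have : (z + 1 / 2 : ℂ).im = z.im := by simp
        rw [this]
        calc |z.im| = |(z.im - y) + y| := by ring_nf
          _ ≤ |z.im - y| + |y| := abs_add_le _ _
          _ ≤ _ := by linarith
    have hmain : ∀ (l : ℝ) (z : ℂ), 0 < l → l ≤ t₁ → 3 * e ≤ l * ℓN → |z.im| ≤ (X : ℝ) ^ κ →
        LL (gE (f d)) l z = 0 → z.re = 0 ∧ deriv (LL (gE (f d)) l) z ≠ 0 := by
      intro l z hl0 hl1 hle hz hz0
      refine H1 (N d) (f d) w hnf hgood hbad z.im l e hl0 hl1 he0.le ?_ (hzf z.im hz) z rfl hz0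
      have := mul_le_mul_of_nonneg_left (hmono z.im) hl0.le
      linarith
    have hκc : (X : ℝ) ^ c' ≤ (X : ℝ) ^ κ :=
      Real.rpow_le_rpow_of_exponent_le hX1 (by linarith)
    refine ⟨fun l z hl1 hl2 hz hz0 => ?_, ?_⟩
    · have hl0 : 0 < l := lt_of_lt_of_le (by positivity) hl1
      have hll : 4 * e ≤ l * ℓN := by
        have h1 : η / L * (L / 2) ≤ l * ℓN := by
          apply mul_le_mul hl1 hNlo (by positivity) hl0.le
        have h2 : η / L * (L / 2) = η / 2 := by field_simp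
        linarith
      rcases le_total l t₁ with h | h
      · exact hmain l z hl0 h (by linarith) (hz.trans hκc) hz0
      · refine H2 (N d) (f d) w hnf hgood hbad l hl0 hl2 z hz0 ?_ ?_
        · have := hmono z.im
          linarith
        · have h1 := mul_le_mul_of_nonneg_left (hmono z.im) hl0.le
          have h2 : t₁ * (L / 2) ≤ l * ℓN := mul_le_mul h hNlo (by positivity) hl0.le
          have h3 : t₁ * (4 / t₁) ≤ t₁ * L := mul_le_mul_of_nonneg_left (by linarith) ht₁.le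
          have h4 : t₁ * (4 / t₁) = 4 := by field_simp
          linarith
    · intro l z hl hz
      set t := (1 - c') / ℓN with ht
      have hc'1 : c' ≤ 1 / 2 := by linarith
      have ht0 : 0 < t := by
        rw [ht]
        have : 0 < 1 - c' := by linarith
        positivity
      have ht1 : t ≤ t₁ := by
        rw [ht, div_le_iff₀ hℓN0]
        have h3 : t₁ * (4 / t₁) ≤ t₁ * L := mul_le_mul_of_nonneg_left (by linarith) ht₁.le
        have h4 : t₁ * (4 / t₁) = 4 := by field_simp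
        have h5 : t₁ * (L / 2) ≤ t₁ * ℓN := mul_le_mul_of_nonneg_left hNlo ht₁.le
        linarith
      have ht2 : t ≤ 1 := by
        rw [ht, div_le_iff₀ hℓN0]
        have : 0 < 4 / t₁ := by positivity
        linarith
      have htl : t * ℓN = 1 - c' := by rw [ht]; field_simp
      refine mono_one hnf hgood hbad ht0 hl (fun z hz => ?_) z hz
      rcases le_total |z.im| ((X : ℝ) ^ κ) with h | h
      · exact (hmain t z ht0 ht1 (by rw [htl]; linarith) h hz).1
      · refine (H3 (N d) (f d) w hnf hgood hbad t ht0 ht2 z hz ?_ ?_).1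
        · have := hmono z.im
          linarith
        · have h1 : ℓN + 2 * (κ * L) ≤ Real.log (N d * (1 + |z.im|) ^ 2) := by
            have h2 : ((X : ℝ) ^ κ) ^ 2 ≤ (1 + |z.im|) ^ 2 :=
              pow_le_pow_left₀ (by positivity) (by linarith) 2
            have h3 := Real.log_le_log (by positivity)
              (mul_le_mul_of_nonneg_left h2 hN0.le)
            rw [Real.log_mul hN0.ne' (by positivity), Real.log_pow, Real.log_rpow hX0] at h3
            push_cast at h3
            exact h3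
          have h2 := mul_le_mul_of_nonneg_left h1 ht0.le
          have h3 : (1 - c') / 3 ≤ t * L := by
            rw [ht, div_mul_eq_mul_div, div_le_div_iff₀ (by norm_num) hℓN0]
            have : 0 < 1 - c' := by linarith
            nlinarith
          have h4 : 2 * κ * ((1 - c') / 3) ≤ 2 * κ * (t * L) :=
            mul_le_mul_of_nonneg_left h3 (by linarith)
          refine le_trans ?_ h2
          have h5 : t * (ℓN + 2 * (κ * L)) = (1 - c') + 2 * κ * (t * L) := by
            rw [← htl]; ring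
          rw [h5]
          nlinarith
  · push Not at hbig
    refine ⟨sqf X, subset_rfl, ?_, fun d hd hdS => absurd hd hdS⟩
    have h1 := Pool.Agent.Y474.QTZ6.card_sqf (X := X) (by omega)
    refine h1.trans ?_
    have h2 : (X : ℝ) ^ c' ≤ Real.exp L1 := by
      rw [Real.rpow_def_of_pos hX0, ← hLd]
      apply Real.exp_le_exp.2
      have hc'1 : c' ≤ 1 := by linarith
      nlinarith
    have h3 : (X : ℝ) = (X : ℝ) ^ c' * (X : ℝ) ^ (1 - c') := by
      rw [← Real.rpow_add hX0]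
      norm_num
    calc 3 * (X : ℝ) = 3 * ((X : ℝ) ^ c' * (X : ℝ) ^ (1 - c')) := by rw [← h3]
      _ ≤ 3 * (Real.exp L1 * (X : ℝ) ^ (1 - c')) := by gcongr
      _ = 3 * Real.exp L1 * (X : ℝ) ^ (1 - c') := by ring
      _ ≤ _ := by
          gcongr
          exact le_max_right _ _

end Pool.Agent.H564.QH
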