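import Pool.Agent.H564.QH.B2

/-!
# A local law for the high derivatives of an `L`-function which has moderate size near a point
-/

set_option autoImplicit false

open Complex MeasureTheory Filter Topology Set
open scoped ComplexConjugate

namespace Pool.Agent.H564.QH

open H353.E H353.F

variable {C : ℝ} {Sg : ℝ → ℝ} {γ D Λ L : ℂ → ℂ}

/-- local size of an `L`-function in a window of size `w` -/
structure LocW (L : ℂ → ℂ) (y w M0 : ℝ) : Prop where
  diff : Differentiable ℂ L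
  pos : 0 < w
  one : 1 ≤ M0
  lo : ∀ s : ℂ, 1 / 2 + w / 4 ≤ s.re → |s.im - y| ≤ 3 * w → Real.exp (-M0) ≤ ‖L s‖
  up : ∀ s : ℂ, 1 / 2 ≤ s.re → |s.im - y| ≤ 3 * w → ‖L s‖ ≤ Real.exp M0

lemma LocW.toS {y w M0 : ℝ} (S : LocW L y w M0) {y' : ℝ} (h : |y' - y| ≤ 2 * w) :
    LocS L y' (w / 3) M0 := by
  have hw := S.pos
  have h2 : ∀ s : ℂ, |s.im - y'| ≤ w / 3 / 4 → |s.im - y| ≤ 3 * w := fun s hs => by
    have := abs_add_le (s.im - y') (y' - y)
    rw [sub_add_sub_cancel] at this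
    linarith
  exact
    { diff := S.diff
      pos := by linarith
      one := S.one
      lo := fun s h1 h3 => S.lo s (by linarith) (h2 s h3)
      up := fun s h1 h3 => S.up s h1 (h2 s h3) }

lemma lam_hasDeriv (gp : GP C Sg γ D) (hΛL : ∀ s : ℂ, 1 / 2 ≤ s.re → Λ s = γ (s + 1 / 2) * L s)
    (hd : Differentiable ℂ L) {z : ℂ} (hz : 1 / 2 < z.re) (h0 : L z ≠ 0) :
    HasDerivAt Λ (Λ z * (D (z + 1 / 2) + logDeriv L z)) z := by
  have hre2 : (z + 1 / 2).re = z.re + 1 / 2 := by simp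
  have h1 : HasDerivAt (fun s : ℂ => γ (s + 1 / 2) * L s)
      (γ (z + 1 / 2) * D (z + 1 / 2) * L z + γ (z + 1 / 2) * deriv L z) z := by
    have h2 := gp.der (z + 1 / 2) (by rw [hre2]; linarith)
    have h3 : HasDerivAt (fun s : ℂ => γ (s + 1 / 2)) (γ (z + 1 / 2) * D (z + 1 / 2)) z := by
      have h4 := h2.comp z ((hasDerivAt_id z).add_const (1 / 2))
      rw [mul_one] at h4
      exact h4
    exact h3.mul (hd z).hasDerivAt
  have h2 : Λ =ᶠ[𝓝 z] fun s : ℂ => γ (s + 1 / 2) * L s := by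
    have ho : IsOpen {s : ℂ | 1 / 2 < s.re} := isOpen_lt continuous_const Complex.continuous_re
    exact Filter.eventually_of_mem (ho.mem_nhds hz) fun s hs => hΛL s (le_of_lt hs)
  refine (h1.congr_of_eventuallyEq h2).congr_deriv ?_
  rw [hΛL z hz.le, logDeriv_apply]
  field_simp

/-- **the local structure for the `n`-th derivative** -/
theorem loc_deriv (gp : GP C Sg γ D) (hΛd : Differentiable ℂ Λ)
    (hΛL : ∀ s : ℂ, 1 / 2 ≤ s.re → Λ s = γ (s + 1 / 2) * L s)
    {ε : ℂ} (hε : ‖ε‖ = 1) (hfe : ∀ s : ℂ, Λ s = ε * conj (Λ (1 - conj s)))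
    {y w ℓ M0 : ℝ} {n : ℕ} (hC1 : 1 ≤ C) (hℓ : ℓ = (D (3 / 2 + y * I)).re) (hwℓ : w * ℓ = n)
    (hw1 : w ≤ 1) (S : LocW L y w M0) (hn : 1000000000000 ≤ (n : ℝ))
    (hnM : 2000000 * (100 * C + 14000 * M0) ≤ (n : ℝ)) :
    H353.F.Loc (fun s => Λ (1 / 2 + w * (s - 1 / 2)))
      (fun u => w * (D (1 / 2 + y * I + w * u + 1 / 2) + logDeriv L (1 / 2 + y * I + w * u)))
      n (1 / 2) (1 / 2 / 1000000) ‖γ (1 + y * I)‖ (y / w) (1 / w) := by
  have hw0 := S.pos
  have hM := S.one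
  have hC := gp.C_nonneg
  have hwc : (w : ℂ) ≠ 0 := by exact_mod_cast hw0.ne'
  have hn0 : (0 : ℝ) < n := by linarith
  have hww : w * (1 / w) = 1 := by field_simp
  set κ : ℝ := 1 / 2 / 1000000 with hκ
  have hκn : 100 * C + 14000 * M0 ≤ κ * n := by
    rw [hκ]; linarith
  have hcc : ∀ u : ℂ, (1 / 2 : ℂ) + w * (cc (y / w) + u - 1 / 2) = 1 / 2 + y * I + w * u := by
    intro u
    unfold cc
    push_cast
    field_simp
    ring
  have hzre : ∀ u : ℂ, (1 / 2 + y * I + w * u : ℂ).re = 1 / 2 + w * u.re := fun u => by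
    rw [add_re, Complex.re_ofReal_mul]
    simp
  have hzim : ∀ u : ℂ, (1 / 2 + y * I + w * u : ℂ).im = y + w * u.im := fun u => by
    rw [add_im, Complex.im_ofReal_mul]
    simp
  have hzw : ∀ u : ℂ, |u.im| ≤ 2 → |(1 / 2 + y * I + w * u : ℂ).im - y| ≤ 2 * w := fun u hu => by
    rw [hzim, add_sub_cancel_left, abs_mul, abs_of_pos hw0]
    nlinarith
  have hzw3 : ∀ u : ℂ, |u.im| ≤ 2 → |(1 / 2 + y * I + w * u : ℂ).im - y| ≤ 3 * w := fun u hu => by
    have := hzw u hu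
    linarith
  have hunorm : ∀ u : ℂ, |u.re| ≤ 1 / w + 2 → |u.im| ≤ 2 → ‖(w : ℂ) * u‖ ≤ 5 := fun u hu1 hu2 => by
    rw [norm_mul, Complex.norm_real, Real.norm_eq_abs, abs_of_pos hw0]
    have h5 := Complex.norm_le_abs_re_add_abs_im u
    calc w * ‖u‖ ≤ w * (1 / w + 4) := by
          apply mul_le_mul_of_nonneg_left _ hw0.le
          linarith
      _ = 1 + 4 * w := by rw [mul_add, hww]; ring
      _ ≤ 5 := by linarith
  have hs1 : (1 : ℝ) ≤ (3 / 2 + y * I : ℂ).re := by simp; norm_num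
  have hDl : ∀ z : ℂ, 1 ≤ z.re → ‖z - (3 / 2 + y * I)‖ ≤ 6 → ‖D z - ℓ‖ ≤ 7 * C := by
    intro z hz1 hz2
    have h4 := gp.lipD (ρ := 1) le_rfl hz1 hs1
    rw [div_one] at h4
    have h5 := gp.im _ hs1
    have h6 : ‖D (3 / 2 + y * I) - ℓ‖ ≤ C := by
      have e : D (3 / 2 + y * I) - ℓ = ((D (3 / 2 + y * I)).im : ℂ) * I := by
        rw [hℓ]
        apply Complex.ext <;> simp
      rw [e, norm_mul, norm_I, mul_one, Complex.norm_real]
      exact h5
    calc ‖D z - ℓ‖ = ‖(D z - D (3 / 2 + y * I)) + (D (3 / 2 + y * I) - ℓ)‖ := by ring_nf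
      _ ≤ ‖D z - D (3 / 2 + y * I)‖ + ‖D (3 / 2 + y * I) - ℓ‖ := norm_add_le _ _
      _ ≤ C * 6 + C := by
          refine add_le_add (h4.trans ?_) h6
          gcongr
      _ = 7 * C := by ring
  -- distances
  have hdist : ∀ u : ℂ, ∀ t ∈ Icc (0 : ℝ) 1, ‖(w : ℂ) * u‖ ≤ 5 →
      ‖(1 + y * I + t * (w * u) : ℂ) - (3 / 2 + y * I)‖ ≤ 6 := fun u t ht hu => by
    have e : (1 + y * I + t * (w * u) : ℂ) - (3 / 2 + y * I) = t * (w * u) - 1 / 2 := by ring
    rw [e]
    refine (norm_sub_le _ _).trans ?_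
    rw [norm_mul, Complex.norm_real, Real.norm_eq_abs, abs_of_nonneg ht.1]
    have h1 : t * ‖(w : ℂ) * u‖ ≤ 1 * 5 := mul_le_mul ht.2 hu (norm_nonneg _) zero_le_one
    have h2 : ‖(1 / 2 : ℂ)‖ = 1 / 2 := by norm_num
    rw [h2]
    linarith
  have hb : (1 + y * I : ℂ).re = 1 := by simp
  have hadd : ∀ u : ℂ, (1 / 2 + y * I + w * u + 1 / 2 : ℂ) = 1 + y * I + w * u := fun u => by ring
  -- the gamma factor
  have hγup : ∀ u : ℂ, 0 ≤ u.re → |u.re| ≤ 1 / w + 2 → |u.im| ≤ 2 →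
      ‖γ (1 + y * I + w * u)‖ ≤ ‖γ (1 + y * I)‖ * Real.exp (n * u.re + 35 * C) := by
    intro u h0 h1 h2
    have hu := hunorm u h1 h2
    have h3 := gam_move gp (s := 1 + y * I) (v := w * u) (ℓ := ℓ) (K := 7 * C) (by rw [hb])
      (by rw [add_re, hb, Complex.re_ofReal_mul]; nlinarith) (fun t ht => hDl _ (by
        rw [add_re, hb, Complex.re_ofReal_mul, Complex.re_ofReal_mul]
        have : 0 ≤ t * (w * u.re) := mul_nonneg ht.1 (mul_nonneg hw0.le h0)
        linarith) (hdist u t ht hu))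
    refine h3.trans (mul_le_mul_of_nonneg_left (Real.exp_le_exp.2 ?_) (norm_nonneg _))
    rw [Complex.re_ofReal_mul]
    have e : ℓ * (w * u.re) = n * u.re := by rw [← hwℓ]; ring
    rw [e]
    have : 7 * C * ‖(w : ℂ) * u‖ ≤ 7 * C * 5 := by gcongr
    linarith
  have hγlo : ∀ x : ℝ, 0 ≤ x → x ≤ 1 / w →
      ‖γ (1 + y * I)‖ * Real.exp (n * (x + 1) - 35 * C) ≤ ‖γ (1 + y * I + w * ((x + 1 : ℝ) : ℂ))‖ := by
    intro x h0 h1
    have hx2 : (0 : ℝ) ≤ x + 1 := by linarith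
    have hu := hunorm ((x + 1 : ℝ) : ℂ) (by rw [ofReal_re, abs_of_nonneg hx2]; linarith)
      (by rw [ofReal_im, abs_zero]; norm_num)
    have h3 := gam_move gp (s := 1 + y * I + w * ((x + 1 : ℝ) : ℂ)) (v := -(w * ((x + 1 : ℝ) : ℂ)))
      (ℓ := ℓ) (K := 7 * C) (by rw [add_re, hb, Complex.re_ofReal_mul, ofReal_re]; nlinarith)
      (by rw [add_neg_cancel_right, hb]) (fun t ht => by
        have e : (1 + y * I + w * ((x + 1 : ℝ) : ℂ) + t * -(w * ((x + 1 : ℝ) : ℂ)) : ℂ) =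
            1 + y * I + ((1 - t : ℝ) : ℂ) * (w * ((x + 1 : ℝ) : ℂ)) := by push_cast; ring
        rw [e]
        refine hDl _ ?_ (hdist _ _ ⟨by linarith [ht.2], by linarith [ht.1]⟩ hu)
        rw [add_re, hb, Complex.re_ofReal_mul, Complex.re_ofReal_mul, ofReal_re]
        have : 0 ≤ (1 - t) * (w * (x + 1)) := mul_nonneg (by linarith [ht.2]) (by positivity)
        linarith)
    rw [add_neg_cancel_right, neg_re, Complex.re_ofReal_mul, ofReal_re, norm_neg] at h3
    have e : ℓ * -(w * (x + 1)) = -(n * (x + 1)) := by rw [← hwℓ]; ring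
    rw [e] at h3
    have h4 : ‖γ (1 + y * I)‖ ≤ ‖γ (1 + y * I + w * ((x + 1 : ℝ) : ℂ))‖ *
        Real.exp (-(n * (x + 1)) + 35 * C) := by
      refine h3.trans (mul_le_mul_of_nonneg_left (Real.exp_le_exp.2 ?_) (norm_nonneg _))
      have : 7 * C * ‖(w : ℂ) * ((x + 1 : ℝ) : ℂ)‖ ≤ 7 * C * 5 := by gcongr
      linarith
    calc ‖γ (1 + y * I)‖ * Real.exp (n * (x + 1) - 35 * C)
        ≤ (‖γ (1 + y * I + w * ((x + 1 : ℝ) : ℂ))‖ * Real.exp (-(n * (x + 1)) + 35 * C)) *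
          Real.exp (n * (x + 1) - 35 * C) := by gcongr
      _ = ‖γ (1 + y * I + w * ((x + 1 : ℝ) : ℂ))‖ *
          Real.exp ((-(n * (x + 1)) + 35 * C) + (n * (x + 1) - 35 * C)) := by
          rw [Real.exp_add (-(n * (x + 1)) + 35 * C) (n * (x + 1) - 35 * C)]; ring
      _ = _ := by
          have : (-(n * (x + 1)) + 35 * C) + (n * (x + 1) - 35 * C) = 0 := by ring
          rw [this, Real.exp_zero, mul_one]
  -- `L` in the region
  have hreg : ∀ u : ℂ, 1 - 1 / 2 ≤ u.re → |u.im| ≤ 2 → 1 / 2 + w / 3 ≤ (1 / 2 + y * I + w * u : ℂ).re ∧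
      LocS L (1 / 2 + y * I + w * u : ℂ).im (w / 3) M0 := fun u h1 h2 => by
    refine ⟨?_, S.toS (hzw u h2)⟩
    rw [hzre]
    nlinarith
  have hup : ∀ u : ℂ, 0 ≤ u.re → |u.re| ≤ 1 / w + 2 → |u.im| ≤ 2 →
      ‖Λ (1 / 2 + y * I + w * u)‖ ≤ ‖γ (1 + y * I)‖ *
        Real.exp (n * max |u.re| (1 - 1 / 2) + κ * n) := by
    intro u h0 h1 h2
    have hz0 : (1 / 2 : ℝ) ≤ (1 / 2 + y * I + w * u : ℂ).re := by rw [hzre]; nlinarith
    rw [hΛL _ hz0, norm_mul, hadd]
    have h3 := S.up _ hz0 (hzw3 u h2)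
    calc ‖γ (1 + y * I + w * u)‖ * ‖L (1 / 2 + y * I + w * u)‖
        ≤ (‖γ (1 + y * I)‖ * Real.exp (n * u.re + 35 * C)) * Real.exp M0 :=
          mul_le_mul (hγup u h0 h1 h2) h3 (norm_nonneg _) (by positivity)
      _ = ‖γ (1 + y * I)‖ * Real.exp (n * u.re + 35 * C + M0) := by
          rw [Real.exp_add (n * u.re + 35 * C)]; ring
      _ ≤ _ := by
          apply mul_le_mul_of_nonneg_left _ (norm_nonneg _)
          apply Real.exp_le_exp.2
          have h5 : u.re ≤ max |u.re| (1 - 1 / 2) := (le_abs_self _).trans (le_max_left _ _)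
          have h6 : n * u.re ≤ n * max |u.re| (1 - 1 / 2) := mul_le_mul_of_nonneg_left h5 hn0.le
          linarith
  refine
    { diff := ?_, fe := ⟨ε, hε, fun s => ?_⟩, der := ?_, dP := ?_, ddP := ?_, up := ?_, lo := ?_,
      hG := norm_pos_iff.mpr (gp.ne _ (by rw [hb])), hδ := by norm_num, hδ' := by norm_num,
      hκ := by rw [hκ]; norm_num, hκ' := by rw [hκ], hX := by positivity, hn := hn,
      hnδ := by rw [show (10000 : ℝ) / (1 / 2) ^ 2 = 40000 by norm_num]; linarith }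
  · fun_prop
  · rw [hfe]
    congr 3
    rw [map_add, map_mul, map_sub, Complex.conj_ofReal]
    simp only [map_div₀, map_one, map_ofNat]
    ring_nf
  · intro u hu1 hu2 hu3
    obtain ⟨h1, h2⟩ := hreg u hu1 hu3
    have h4 := lam_hasDeriv gp hΛL S.diff (z := 1 / 2 + y * I + w * u) (by linarith)
      (h2.ne h1 rfl)
    have h5 : HasDerivAt (fun s : ℂ => (1 / 2 : ℂ) + w * (s - 1 / 2)) w (cc (y / w) + u) := by
      have := (((hasDerivAt_id (cc (y / w) + u)).sub_const (1 / 2)).const_mul (w : ℂ)).const_add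
        (1 / 2 : ℂ)
      simpa using this
    rw [← hcc u] at h4
    have h7 := HasDerivAt.comp (cc (y / w) + u) h4 h5
    refine h7.congr_deriv ?_
    show Λ (1 / 2 + w * (cc (y / w) + u - 1 / 2)) *
      (D (1 / 2 + w * (cc (y / w) + u - 1 / 2) + 1 / 2) +
        logDeriv L (1 / 2 + w * (cc (y / w) + u - 1 / 2))) * w =
      Λ (1 / 2 + w * (cc (y / w) + u - 1 / 2)) *
        (w * (D (1 / 2 + y * I + w * u + 1 / 2) + logDeriv L (1 / 2 + y * I + w * u)))
    rw [hcc]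
    ring
  · intro u hu1 hu2 hu3
    obtain ⟨h1, h2⟩ := hreg u hu1 hu3
    have hu0 : 0 ≤ u.re := by linarith
    have habs : |u.re| ≤ 1 / w + 2 := by rw [abs_of_nonneg hu0]; exact hu2
    have h4 := hDl (1 + y * I + w * u) (by rw [add_re, hb, Complex.re_ofReal_mul]; nlinarith) (by
      have := hdist u 1 ⟨zero_le_one, le_rfl⟩ (hunorm u habs hu3)
      rwa [ofReal_one, one_mul] at this)
    have h5 := h2.logDeriv_le (c := 1 / 2 + y * I + w * u) h1 rfl
      (Metric.mem_closedBall_self (by linarith))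
    have e : (w : ℂ) * (D (1 / 2 + y * I + w * u + 1 / 2) + logDeriv L (1 / 2 + y * I + w * u)) - n =
        w * ((D (1 + y * I + w * u) - ℓ) + logDeriv L (1 / 2 + y * I + w * u)) := by
      have : (n : ℂ) = w * ℓ := by
        have := congrArg (fun x : ℝ => (x : ℂ)) hwℓ
        simp only [ofReal_mul, ofReal_natCast] at this
        exact this.symm
      rw [this, hadd]
      ring
    show ‖(w : ℂ) * (D (1 / 2 + y * I + w * u + 1 / 2) + logDeriv L (1 / 2 + y * I + w * u)) - n‖ ≤ κ * n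
    rw [e, norm_mul, Complex.norm_real, Real.norm_eq_abs, abs_of_pos hw0]
    calc w * ‖(D (1 + y * I + w * u) - ℓ) + logDeriv L (1 / 2 + y * I + w * u)‖
        ≤ w * (7 * C + 96 * M0 / (w / 3)) := by
          apply mul_le_mul_of_nonneg_left _ hw0.le
          exact (norm_add_le _ _).trans (add_le_add h4 h5)
      _ = w * (7 * C) + 288 * M0 := by field_simp; ring
      _ ≤ 1 * (7 * C) + 288 * M0 := by gcongr
      _ ≤ κ * n := by linarith
  · intro u hu1 hu2 hu3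
    obtain ⟨h1, h2⟩ := hreg u hu1 hu3
    have hu0 : 0 ≤ u.re := by linarith
    obtain ⟨d, hd1, hd2⟩ := gp.dD (1 / 2 + y * I + w * u + 1 / 2) (by
      rw [hadd, add_re, hb, Complex.re_ofReal_mul]; nlinarith)
    have h5 := (h2.diff_log (c := 1 / 2 + y * I + w * u) h1 rfl
      (Metric.mem_closedBall_self (by linarith))).hasDerivAt
    have h6 := h2.deriv_le (c := 1 / 2 + y * I + w * u) h1 rfl
    have h7 : HasDerivAt (fun u : ℂ => (1 / 2 + y * I + w * u : ℂ)) w u := by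
      have := ((hasDerivAt_id u).const_mul (w : ℂ)).const_add (1 / 2 + y * I : ℂ)
      simpa using this
    have h7' : HasDerivAt (fun u : ℂ => (1 / 2 + y * I + w * u + 1 / 2 : ℂ)) w u := h7.add_const _
    have h8 := HasDerivAt.comp u hd1 h7'
    have h9 := HasDerivAt.comp u h5 h7
    have h10 := (h8.add h9).const_mul (w : ℂ)
    refine ⟨_, h10, ?_⟩
    have hC' : ‖d‖ ≤ C := by
      refine hd2.trans ?_
      rw [hadd, add_re, hb, Complex.re_ofReal_mul]
      have : 0 ≤ w * u.re := mul_nonneg hw0.le hu0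
      rw [div_le_iff₀ (by linarith)]
      nlinarith
    rw [norm_mul, ← add_mul, norm_mul, Complex.norm_real, Real.norm_eq_abs, abs_of_pos hw0]
    calc w * (‖d + deriv (logDeriv L) (1 / 2 + y * I + w * u)‖ * w)
        ≤ w * ((C + 1536 * M0 / (w / 3) ^ 2) * w) := by
          gcongr
          exact (norm_add_le _ _).trans (add_le_add hC' h6)
      _ = (w * w) * C + 13824 * M0 := by field_simp; ring
      _ ≤ 1 * C + 13824 * M0 := by
          gcongr
          nlinarith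
      _ ≤ κ * n := by linarith
  · intro u hu1 hu2
    show ‖Λ (1 / 2 + w * (cc (y / w) + u - 1 / 2))‖ ≤ _
    rw [hcc]
    rcases le_total 0 u.re with h | h
    · exact hup u h hu1 hu2
    · have h4 := hup (-conj u) (by simp [h]) (by simpa using hu1) (by simpa using hu2)
      have e1 : Λ (1 / 2 + y * I + w * u) = ε * conj (Λ (1 / 2 + y * I + w * (-conj u))) := by
        rw [hfe]
        congr 3
        simp only [map_add, map_mul, Complex.conj_ofReal, Complex.conj_I, map_div₀, map_one, map_ofNat]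
        ring
      rw [e1, norm_mul, hε, one_mul, Complex.norm_conj]
      have e2 : |(-conj u).re| = |u.re| := by simp
      rwa [e2] at h4
  · intro x hx0 hx1
    show _ ≤ ‖Λ (1 / 2 + w * (cc (y / w) + ((x + 1 : ℝ) : ℂ) - 1 / 2))‖
    rw [hcc]
    have hzr : (1 / 2 + y * I + w * ((x + 1 : ℝ) : ℂ) : ℂ).re = 1 / 2 + w * (x + 1) := by
      rw [hzre, ofReal_re]
    have hz1 : 1 / 2 + w / 4 ≤ (1 / 2 + y * I + w * ((x + 1 : ℝ) : ℂ) : ℂ).re := by
      rw [hzr]; nlinarith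
    have h3 := S.lo _ hz1 (hzw3 _ (by rw [ofReal_im, abs_zero]; norm_num))
    rw [hΛL _ (by linarith), norm_mul, hadd]
    calc ‖γ (1 + y * I)‖ * Real.exp (n * (x + 1) - κ * n)
        ≤ ‖γ (1 + y * I)‖ * Real.exp ((n * (x + 1) - 35 * C) + -M0) := by
          apply mul_le_mul_of_nonneg_left _ (norm_nonneg _)
          apply Real.exp_le_exp.2
          linarith
      _ = (‖γ (1 + y * I)‖ * Real.exp (n * (x + 1) - 35 * C)) * Real.exp (-M0) := by
          rw [Real.exp_add]; ring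
      _ ≤ _ := mul_le_mul (hγlo x hx0 hx1) h3 (Real.exp_pos _).le (norm_nonneg _)

end Pool.Agent.H564.QH
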