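import Pool.Agent.H564.QH.E1
import Pool.Agent.H564.QH.D3
import Pool.Graph.R_seed8.H353R7.G4

/-!
# The high derivatives of the completed L-function of a newform of weight 2
-/

set_option autoImplicit false

open Complex MeasureTheory Filter Topology Set MatrixGroups CongruenceSubgroup
open UpperHalfPlane hiding I
open scoped ComplexConjugate

namespace Pool.Agent.H564.QH

open H353.E H353.F Pool.Agent.H466.HF

/-- the zeros of all derivatives are in a strip -/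
theorem datum_strip {m : ℕ} (hm : 1 ≤ m) {N : ℝ} {μ : Fin m → ℂ} {α : Fin m → ℕ → ℂ} {ε : ℂ}
    {Λ : ℂ → ℂ} (d : DatumT 0 N μ α ε Λ) (n : ℕ) {s : ℂ}
    (hz : iteratedDeriv n (fun z => (N : ℂ) ^ (z / 2) * Λ z) s = 0) :
    -(1 / 2) ≤ s.re ∧ s.re ≤ 3 / 2 := by
  have hm' : (1 : ℝ) ≤ m := by exact_mod_cast hm
  obtain ⟨B1, hB1, hBc⟩ := euler_close m
  set C : ℝ := 6 * m with hC
  have hC1 : 1 ≤ C := by rw [hC]; linarith
  have hN := d.one_le
  have hN0 : 0 < N := by linarith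
  have hNc : (N : ℂ) ≠ 0 := by exact_mod_cast hN0.ne'
  set X : ℂ → ℂ := fun z => (N : ℂ) ^ (z / 2) * Λ z with hX
  have gp := gaf_GP hm hN d.re_le
  have hnorm : ∀ j, ∀ p : ℕ, p.Prime → ‖α j p‖ ≤ Real.sqrt p := fun j p hp => by
    refine (d.norm_le j p hp).trans ?_
    rw [Real.rpow_zero, Real.one_le_sqrt]
    exact_mod_cast hp.one_le
  have hXd : Differentiable ℂ X := by
    refine Differentiable.mul (fun z => ?_) d.entire
    exact (((hasDerivAt_id z).div_const 2).const_cpow (c := (N : ℂ)) (Or.inl hNc)).differentiableAt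
  have hXe : ∀ z : ℂ, 1 < z.re → X z = gaf N μ z * euler α z := fun z hz => by
    simp only [hX, gaf]
    rw [d.euler z (by linarith), mul_assoc]
    rfl
  have hclose : ∀ z : ℂ, 4 ≤ z.re → ‖X z - gaf N μ z‖ ≤ B1 * (1 / 2 : ℝ) ^ z.re * ‖gaf N μ z‖ :=
    fun z hz => by
      have e : X z - gaf N μ z = (euler α z - 1) * gaf N μ z := by
        rw [hXe z (by linarith)]
        ring
      rw [e, norm_mul]
      exact mul_le_mul_of_nonneg_right (hBc α hnorm z hz) (norm_nonneg _)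
  have hfe : ∀ z : ℂ, X z = ε * conj (X (1 - conj z)) := fun z => by
    simp only [hX]
    rw [map_mul, conj_cpow_real hN0]
    have e1 : conj ((1 - conj z) / 2) = (1 - z) / 2 := by
      rw [map_div₀, map_sub, Complex.conj_conj, map_one, map_ofNat]
    have e2 : (N : ℂ) ^ (z / 2) * (N : ℂ) ^ (1 / 2 - z) = (N : ℂ) ^ ((1 - z) / 2) := by
      rw [← cpow_add _ _ hNc]
      congr 1
      ring
    rw [e1, d.fe z, ← e2]
    ring
  have hbdd : ∃ M, ∀ z : ℂ, -3 ≤ z.re → z.re ≤ 4 → ‖X z‖ ≤ Real.exp (M * (1 + |z.im|)) := by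
    obtain ⟨M, hM⟩ := d.bdd (-3) 4
    refine ⟨Real.log (N ^ (2 : ℝ)) + M, fun z h1 h2 => ?_⟩
    simp only [hX]
    rw [norm_mul, Complex.norm_cpow_eq_rpow_re_of_pos hN0]
    have e : (z / 2).re = z.re / 2 := by
      rw [show (2 : ℂ) = ((2 : ℝ) : ℂ) by norm_num, Complex.div_ofReal_re]
    rw [e]
    have h3 : N ^ (z.re / 2) ≤ N ^ (2 : ℝ) := Real.rpow_le_rpow_of_exponent_le hN (by linarith)
    have h4 := hM z h1 h2
    have h5 : 0 < N ^ (2 : ℝ) := Real.rpow_pos_of_pos hN0 _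
    have h6 : 1 ≤ N ^ (2 : ℝ) := Real.one_le_rpow hN (by norm_num)
    refine (mul_le_mul h3 h4 (norm_nonneg _) h5.le).trans ?_
    rw [add_mul, Real.exp_add]
    refine mul_le_mul_of_nonneg_right ?_ (Real.exp_pos _).le
    have h7 := Real.log_nonneg h6
    have h8 := abs_nonneg z.im
    calc N ^ (2 : ℝ) = Real.exp (Real.log (N ^ (2 : ℝ))) := (Real.exp_log h5).symm
      _ ≤ Real.exp (Real.log (N ^ (2 : ℝ)) * (1 + |z.im|)) := by
        apply Real.exp_le_exp.mpr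
        nlinarith
  have L : LD (6 * m) ((1 + B1) * Real.exp (6 * m * 7)) (fun K => 4 * Real.exp (2 * |K| + 10)) X
      (gaf N μ) (gaD N μ) :=
    LD_of gp hC1 hB1 hXd hclose ⟨ε, d.norm_eq, hfe⟩ hbdd
  have hzer : ∀ z, X z = 0 → z.re ≤ 3 / 2 := fun z hz => by
    by_contra hcon
    push Not at hcon
    rw [hXe z (by linarith)] at hz
    rcases mul_eq_zero.mp hz with h | h
    · exact gp.ne z (by linarith) h
    · exact euler_ne hnorm hcon h
  have hp1 : ∀ j, 1 ≤ 1 + ‖μ j‖ := fun j => by linarith [norm_nonneg (μ j)]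
  have hcond1 : 1 ≤ N * ∏ j, (1 + ‖μ j‖) := by
    have h1 : 1 ≤ ∏ j, (1 + ‖μ j‖) := by
      refine Finset.prod_induction _ (fun x => (1 : ℝ) ≤ x) (fun a b ha hb => ?_) le_rfl fun j _ => ?_
      · nlinarith
      · linarith [norm_nonneg (μ j)]
    nlinarith
  have hDb : ∃ a k : ℝ, 0 ≤ a ∧ 0 ≤ k ∧ ∀ z : ℂ, 1 ≤ z.re →
      ‖gaD N μ z‖ ≤ a + k * Real.log (‖z‖ + 4) := by
    refine ⟨Real.log (N * ∏ j, (1 + ‖μ j‖)) + 7 * m, m, ?_, by linarith, fun z hz => ?_⟩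
    · have := Real.log_nonneg hcond1
      linarith
    · have := gaD_norm hN d.re_le hz
      linarith
  exact strip_zeros hC1 L hzer hDb n hz

section

variable {N : ℕ} [NeZero N] {f : CuspForm (Gamma0 N : Subgroup (GL (Fin 2) ℝ)) 2} {w : ℝ}

lemma X_eq : (fun z : ℂ => ((N : ℝ) : ℂ) ^ (z / 2) * LamD f z) =
    fun z => kn N * LL (gE f) 0 (z - 1 / 2) := by
  have h := xi_eq (N := N) (f := f)
  exact h

omit [NeZero N] in
lemma iter_shift (n : ℕ) (s : ℂ) : iteratedDeriv n (fun z => LL (gE f) 0 (z - 1 / 2)) s =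
    iteratedDeriv n (LL (gE f) 0) (s - 1 / 2) :=
  congrFun (iteratedDeriv_comp_sub_const n (LL (gE f) 0) (1 / 2)) s

lemma iter_X (n : ℕ) (s : ℂ) :
    iteratedDeriv n (fun z : ℂ => ((N : ℝ) : ℂ) ^ (z / 2) * LamD f z) s =
      kn N * iteratedDeriv n (LL (gE f) 0) (s - 1 / 2) := by
  rw [X_eq, iteratedDeriv_const_mul_field, iter_shift]

/-- **the local law for the derivatives, for newforms** -/
theorem newf_deriv (hf : W388.IsNewf N 2 f w)
    (hgood : ∀ p : ℕ, p.Prime → ¬ p ∣ N → |W388.lamf f p| ≤ 2)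
    (hbad : ∀ p : ℕ, p.Prime → p ∣ N → |W388.lamf f p| ≤ 1) {Lf : ℂ → ℂ}
    (hcomp : ∀ s : ℂ, 1 / 4 < s.re → LL (gE f) 0 (s - 1 / 2) = Complex.Gamma (s + 1 / 2) *
      ((2 * Real.pi / Real.sqrt N : ℝ) : ℂ) ^ (-(s + 1 / 2)) * Lf s)
    {n : ℕ} {z : ℂ} {ℓ M0 : ℝ} (hℓ : ℓ = (gaD (N : ℝ) mu1 (3 / 2 + z.im * I)).re) (hℓ0 : 0 < ℓ)
    (hnℓ : (n : ℝ) ≤ ℓ) (S : LocW Lf z.im (n / ℓ) M0) (hn : 1000000000000 ≤ (n : ℝ))
    (hnM : 2000000 * (100 * 12 + 14000 * M0) ≤ (n : ℝ))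
    (hz : iteratedDeriv n (LL (gE f) 0) z = 0) :
    z.re = 0 ∧ iteratedDeriv (n + 1) (LL (gE f) 0) z ≠ 0 := by
  obtain ⟨A, c, k⟩ := gE_kern f hf
  have hw1 : ‖(w : ℂ)‖ = 1 := by
    rcases hf.sign with h | h <;> rw [h] <;> simp
  have hd0 := k.differentiable 0
  have hsh0 : Differentiable ℂ fun s : ℂ => LL (gE f) 0 (s - 1 / 2) := hd0.comp (by fun_prop)
  set v : ℝ := n / ℓ with hv
  have hv0 : 0 < v := S.pos
  have hvc : (v : ℂ) ≠ 0 := by exact_mod_cast hv0.ne'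
  have hvℓ : v * ℓ = n := by rw [hv]; field_simp
  have hv1 : v ≤ 1 := by rw [hv, div_le_one hℓ0]; exact hnℓ
  have L := loc_deriv (gp1 (one_le_N (N := N))) (Λ := fun s => LL (gE f) 0 (s - 1 / 2)) (L := Lf)
    hsh0
    (fun s hs => by
      rw [hcomp s (by linarith), gaf1_eq])
    (ε := (w : ℂ)) hw1
    (fun s => by
      have e : (1 - conj s) - 1 / 2 = -conj (s - 1 / 2) := by
        rw [map_sub, map_div₀, map_one, map_ofNat]
        ring
      rw [e]
      exact LL_fe hf 0 (s - 1 / 2))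
    (y := z.im) (w := v) (ℓ := ℓ) (M0 := M0) (n := n) (by norm_num) hℓ hvℓ hv1 S hn hnM
  have e0 : z + 1 / 2 - 1 / 2 = z := by ring
  have hstrip := datum_strip (by norm_num : 1 ≤ 2) (datum_newf hf hgood hbad) n (s := z + 1 / 2) (by
    rw [iter_X, e0, hz, mul_zero])
  have hre : (z + 1 / 2 : ℂ).re = z.re + 1 / 2 := by simp
  rw [hre] at hstrip
  set s' : ℂ := 1 / 2 + z / v with hs'
  have hback : (1 / 2 : ℂ) + v * (s' - 1 / 2) = z + 1 / 2 := by
    rw [hs']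
    field_simp
    ring
  have hs're : s'.re - 1 / 2 = z.re / v := by
    rw [hs', add_re, Complex.div_ofReal_re]
    simp
  have hs'im : s'.im = z.im / v := by
    rw [hs', add_im, Complex.div_ofReal_im]
    simp
  have hsc : ∀ j : ℕ, iteratedDeriv j (fun s => (fun s => LL (gE f) 0 (s - 1 / 2))
      (1 / 2 + v * (s - 1 / 2))) s' = (v : ℂ) ^ j * iteratedDeriv j (LL (gE f) 0) z := fun j => by
    rw [scale_deriv hsh0, hback, iter_shift, e0]
  have h1 := L.zeros (s := s') hs'im (by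
    rw [hs're, abs_div, abs_of_pos hv0]
    apply div_le_div_of_nonneg_right _ hv0.le
    rw [abs_le]
    constructor <;> linarith) (by rw [hsc, hz, mul_zero])
  rw [hsc] at h1
  refine ⟨?_, right_ne_zero_of_mul h1.2⟩
  have h2 := h1.1
  have h3 : z.re / v = 0 := by rw [← hs're]; linarith
  rcases div_eq_zero_iff.1 h3 with h | h
  · exact h
  · exact absurd h hv0.ne'

lemma D1_le {N : ℝ} (hN : 1 ≤ N) (t : ℝ) :
    (gaD N mu1 (3 / 2 + t * I)).re ≤ Real.log N / 2 + Real.log (2 + |t|) + 10 := by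
  have h := gaD_re_le (m := 2) hN mu1_re t
  have hN0 : 0 < N := by linarith
  have ht := abs_nonneg t
  have h1 : ∏ j, (1 + ‖(t : ℂ) * I - mu1 j‖) ≤ (2 + |t|) ^ 2 := by
    rw [Fin.prod_univ_two, sq]
    have h2 : ∀ j, 1 + ‖(t : ℂ) * I - mu1 j‖ ≤ 2 + |t| := by
      intro j
      have h3 : ‖mu1 j‖ ≤ 1 := by
        unfold mu1
        split_ifs <;> simp
      have h4 := norm_sub_le ((t : ℂ) * I) (mu1 j)
      rw [norm_mul, Complex.norm_I, mul_one, Complex.norm_real, Real.norm_eq_abs] at h4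
      linarith
    exact mul_le_mul (h2 0) (h2 1) (by positivity) (by linarith)
  have h5 : Real.log (N * ∏ j, (1 + ‖(t : ℂ) * I - mu1 j‖)) ≤ Real.log (N * (2 + |t|) ^ 2) :=
    Real.log_le_log (by positivity) (mul_le_mul_of_nonneg_left h1 hN0.le)
  have h6 : Real.log (N * (2 + |t|) ^ 2) = Real.log N + 2 * Real.log (2 + |t|) := by
    rw [Real.log_mul hN0.ne' (by positivity), Real.log_pow]
    norm_num
  rw [h6] at h5
  push_cast at h
  linarith

end

end Pool.Agent.H564.QH
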