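import Pool.Agent.H564.QH.E2
import Pool.Agent.H564.QH.C5
import Pool.Agent.H564.MJ.Det2

/-!
# The local data of a newform of weight 2 for the deterministic theorem
-/

set_option autoImplicit false

open Complex MeasureTheory Filter Topology Set MatrixGroups CongruenceSubgroup
open UpperHalfPlane hiding I
open scoped ComplexConjugate

namespace Pool.Agent.H564.QH

open H353.E H353.F Pool.Agent.H466.HF Pool.Agent.H487

section

variable {N : ℕ} [NeZero N] {f : CuspForm (Gamma0 N : Subgroup (GL (Fin 2) ℝ)) 2} {w : ℝ}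

/-- the gamma factor -/
noncomputable def gg (N : ℕ) (z : ℂ) : ℂ :=
  Complex.Gamma z * ((2 * Real.pi / Real.sqrt N : ℝ) : ℂ) ^ (-z)

/-- the normalised gamma factor -/
noncomputable def gm (N : ℕ) (ℓ : ℝ) (s : ℂ) : ℂ := kn N * gg N (s + 1 / 2) * cexp (-(ℓ : ℂ) * s)

lemma gg_base : ((2 * Real.pi / Real.sqrt N : ℝ) : ℂ) ≠ 0 := by
  have hR := sqN_pos' (N := N)
  have hpi := Real.pi_pos
  have : 0 < 2 * Real.pi / Real.sqrt N := by positivity
  exact_mod_cast this.ne'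

lemma gg_diff {z : ℂ} (hz : 0 < z.re) : DifferentiableAt ℂ (gg N) z := by
  have h1 : DifferentiableAt ℂ Complex.Gamma z := Complex.differentiableAt_Gamma z fun m hm => by
    rw [hm] at hz
    simp only [neg_re, natCast_re] at hz
    have : (0 : ℝ) ≤ m := Nat.cast_nonneg m
    linarith
  exact h1.mul ((differentiableAt_id.neg).const_cpow (Or.inl (gg_base (N := N))))

lemma gg_ne {z : ℂ} (hz : 0 < z.re) : gg N z ≠ 0 :=
  mul_ne_zero (Complex.Gamma_ne_zero_of_re_pos hz) (by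
    rw [Complex.cpow_ne_zero_iff]
    exact Or.inl (gg_base (N := N)))

lemma gg_gp : GP 12 (fun K => 4 * Real.exp (2 * |K| + 10)) (gg N) (gaD (N : ℝ) mu1) := by
  have h := gp1 (one_le_N (N := N))
  have e : (fun z => (1 / 2 : ℂ) * gaf (N : ℝ) mu1 z) = gg N := funext fun z => gaf1_eq z
  rwa [e] at h

lemma half_re (s : ℂ) : (s + 1 / 2 : ℂ).re = s.re + 1 / 2 := by simp

lemma half_im (s : ℂ) : (s + 1 / 2 : ℂ).im = s.im := by simp

lemma gm_diff (ℓ : ℝ) {s : ℂ} (hs : 0 < s.re) : DifferentiableAt ℂ (gm N ℓ) s := by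
  have h1 : DifferentiableAt ℂ (gg N) (s + 1 / 2) := gg_diff (by rw [half_re]; linarith)
  have h2 : DifferentiableAt ℂ (fun s : ℂ => gg N (s + 1 / 2)) s :=
    DifferentiableAt.comp (g := gg N) (f := fun s : ℂ => s + 1 / 2) s h1 (by fun_prop)
  exact (h2.const_mul _).mul (by fun_prop)

lemma gm_ne (ℓ : ℝ) {s : ℂ} (hs : 0 < s.re) : gm N ℓ s ≠ 0 :=
  mul_ne_zero (mul_ne_zero (kn_ne N) (gg_ne (by rw [half_re]; linarith))) (Complex.exp_ne_zero _)

lemma gm_lg (ℓ : ℝ) {s : ℂ} (hs : 1 / 2 ≤ s.re) :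
    logDeriv (gm N ℓ) s = gaD (N : ℝ) mu1 (s + 1 / 2) - ℓ := by
  have h1 := (gg_gp (N := N)).der (s + 1 / 2) (by rw [half_re]; linarith)
  have h2 : HasDerivAt (fun s : ℂ => gg N (s + 1 / 2))
      (gg N (s + 1 / 2) * gaD (N : ℝ) mu1 (s + 1 / 2)) s := by
    have := h1.comp s ((hasDerivAt_id s).add_const (1 / 2))
    rwa [mul_one] at this
  have h3 : HasDerivAt (fun z : ℂ => cexp (-(ℓ : ℂ) * z)) (cexp (-(ℓ : ℂ) * s) * (-(ℓ : ℂ) * 1)) s :=
    ((hasDerivAt_id s).const_mul (-(ℓ : ℂ))).cexp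
  have h4 := (h2.const_mul (kn N)).mul h3
  have h5 : HasDerivAt (gm N ℓ) (gm N ℓ s * (gaD (N : ℝ) mu1 (s + 1 / 2) - ℓ)) s := by
    refine h4.congr_deriv ?_
    unfold gm
    ring
  rw [logDeriv_apply, h5.deriv, mul_div_cancel_left₀ _ (gm_ne (N := N) ℓ (by linarith))]

lemma gaD_box {t : ℝ} {s : ℂ} (h1 : 1 / 2 ≤ s.re) (h2 : s.re ≤ 2) (h3 : |s.im - t| ≤ 2) :
    ‖gaD (N : ℝ) mu1 (s + 1 / 2) - (gaD (N : ℝ) mu1 (3 / 2 + t * I)).re‖ ≤ 48 := by
  have gp := gg_gp (N := N)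
  have a1 := gp.lipD (ρ := 1) le_rfl (s := s + 1 / 2) (t := 3 / 2 + t * I)
    (by rw [half_re]; linarith) (by simp; norm_num)
  have a2 : ‖s + 1 / 2 - (3 / 2 + t * I)‖ ≤ 3 := by
    refine (Complex.norm_le_abs_re_add_abs_im _).trans ?_
    have e1 : (s + 1 / 2 - (3 / 2 + t * I)).re = s.re - 1 := by simp; ring
    have e2 : (s + 1 / 2 - (3 / 2 + t * I)).im = s.im - t := by simp
    rw [e1, e2]
    have : |s.re - 1| ≤ 1 := abs_le.2 ⟨by linarith, by linarith⟩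
    linarith
  have a3 := gp.im (3 / 2 + t * I) (by simp; norm_num)
  set D0 := gaD (N : ℝ) mu1 (3 / 2 + t * I) with hD0
  have e3 : D0 - (D0.re : ℂ) = (D0.im : ℂ) * I := by
    apply Complex.ext <;> simp
  have a4 : ‖D0 - (D0.re : ℂ)‖ ≤ 12 := by
    rw [e3, norm_mul, Complex.norm_I, mul_one, Complex.norm_real]
    exact a3
  have e4 : gaD (N : ℝ) mu1 (s + 1 / 2) - (D0.re : ℂ) =
      (gaD (N : ℝ) mu1 (s + 1 / 2) - D0) + (D0 - (D0.re : ℂ)) := by ring
  rw [e4]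
  refine (norm_add_le _ _).trans ?_
  have a5 : (12 : ℝ) / 1 * ‖s + 1 / 2 - (3 / 2 + t * I)‖ ≤ 36 := by
    rw [div_one]
    linarith
  linarith

lemma gm_move {t : ℝ} {s u : ℂ} (h1 : 1 / 2 ≤ s.re) (h2 : s.re ≤ 2) (h3 : |s.im - t| ≤ 2)
    (k1 : 1 / 2 ≤ u.re) (k2 : u.re ≤ 2) (k3 : |u.im - t| ≤ 2) :
    ‖gm N (gaD (N : ℝ) mu1 (3 / 2 + t * I)).re s‖ ≤
      Real.exp 300 * ‖gm N (gaD (N : ℝ) mu1 (3 / 2 + t * I)).re u‖ := by
  set ℓ := (gaD (N : ℝ) mu1 (3 / 2 + t * I)).re with hℓ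
  have hm := gam_move (gg_gp (N := N)) (s := u + 1 / 2) (v := s - u) (ℓ := ℓ) (K := 48)
    (by rw [half_re]; linarith) (by
      have : (u + 1 / 2 + (s - u) : ℂ).re = s.re + 1 / 2 := by simp; ring
      rw [this]; linarith) (fun τ hτ => by
      have e : u + 1 / 2 + (τ : ℂ) * (s - u) = (u + (τ : ℂ) * (s - u)) + 1 / 2 := by ring
      rw [e]
      have r1 : (u + (τ : ℂ) * (s - u)).re = (1 - τ) * u.re + τ * s.re := by simp; ring
      have r2 : (u + (τ : ℂ) * (s - u)).im - t = (1 - τ) * (u.im - t) + τ * (s.im - t) := by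
        simp; ring
      have t0 := hτ.1
      have t1 := hτ.2
      refine gaD_box ?_ ?_ ?_
      · rw [r1]; nlinarith
      · rw [r1]; nlinarith
      · rw [r2]
        obtain ⟨b1, b2⟩ := abs_le.1 h3
        obtain ⟨b3, b4⟩ := abs_le.1 k3
        rw [abs_le]
        constructor <;> nlinarith)
  have e1 : u + 1 / 2 + (s - u) = s + 1 / 2 := by ring
  rw [e1] at hm
  have e2 : (s - u).re = s.re - u.re := by simp
  have a1 : ‖s - u‖ ≤ 11 / 2 := by
    refine (Complex.norm_le_abs_re_add_abs_im _).trans ?_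
    have c1 : |(s - u).re| ≤ 3 / 2 := by
      rw [e2, abs_le]
      constructor <;> linarith
    have c2 : |(s - u).im| ≤ 4 := by
      obtain ⟨b1, b2⟩ := abs_le.1 h3
      obtain ⟨b3, b4⟩ := abs_le.1 k3
      rw [sub_im, abs_le]
      constructor <;> linarith
    linarith
  unfold gm
  rw [norm_mul, norm_mul, norm_mul, norm_mul, Complex.norm_exp, Complex.norm_exp]
  have e3 : ∀ z : ℂ, (-(ℓ : ℂ) * z).re = -(ℓ * z.re) := fun z => by simp
  rw [e3, e3]
  calc ‖kn N‖ * ‖gg N (s + 1 / 2)‖ * Real.exp (-(ℓ * s.re))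
      ≤ ‖kn N‖ * (‖gg N (u + 1 / 2)‖ * Real.exp (ℓ * (s.re - u.re) + 300)) * Real.exp (-(ℓ * s.re)) := by
        gcongr
        refine hm.trans ?_
        rw [e2]
        gcongr
        linarith
    _ = ‖kn N‖ * ‖gg N (u + 1 / 2)‖ * (Real.exp (ℓ * (s.re - u.re) + 300) * Real.exp (-(ℓ * s.re))) := by
        ring
    _ = _ := by
        rw [← Real.exp_add]
        have : ℓ * (s.re - u.re) + 300 + -(ℓ * s.re) = 300 + -(ℓ * u.re) := by ring
        rw [this, Real.exp_add]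
        ring

lemma comp_ext (hf : W388.IsNewf N 2 f w) {Lf : ℂ → ℂ} (hd : Differentiable ℂ Lf)
    (hcomp : ∀ s : ℂ, 1 / 4 < s.re → LL (gE f) 0 (s - 1 / 2) = Complex.Gamma (s + 1 / 2) *
      ((2 * Real.pi / Real.sqrt N : ℝ) : ℂ) ^ (-(s + 1 / 2)) * Lf s) {s : ℂ} (hs : 0 < s.re) :
    LL (gE f) 0 (s - 1 / 2) = gg N (s + 1 / 2) * Lf s := by
  obtain ⟨A, c, k⟩ := gE_kern f hf
  have hd0 := k.differentiable 0
  set U : Set ℂ := {s | 0 < s.re} with hU
  have hUo : IsOpen U := isOpen_lt continuous_const Complex.continuous_re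
  have hUc : IsPreconnected U := (convex_halfSpace_re_gt 0).isPreconnected
  have h1 : AnalyticOnNhd ℂ (fun s : ℂ => LL (gE f) 0 (s - 1 / 2)) U := by
    have : Differentiable ℂ fun s : ℂ => LL (gE f) 0 (s - 1 / 2) := hd0.comp (by fun_prop)
    exact this.differentiableOn.analyticOnNhd hUo
  have h2 : AnalyticOnNhd ℂ (fun s : ℂ => gg N (s + 1 / 2) * Lf s) U := by
    refine DifferentiableOn.analyticOnNhd (fun z hz => ?_) hUo
    have hz' : 0 < z.re := hz
    have h1 : DifferentiableAt ℂ (gg N) (z + 1 / 2) := gg_diff (by rw [half_re]; linarith)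
    have h2 : DifferentiableAt ℂ (fun s : ℂ => gg N (s + 1 / 2)) z :=
      DifferentiableAt.comp (g := gg N) (f := fun s : ℂ => s + 1 / 2) z h1 (by fun_prop)
    exact (h2.mul (hd z)).differentiableWithinAt
  have h3 : (fun s : ℂ => LL (gE f) 0 (s - 1 / 2)) =ᶠ[𝓝 (1 : ℂ)] fun s => gg N (s + 1 / 2) * Lf s := by
    have hmem : {s : ℂ | 1 / 4 < s.re} ∈ 𝓝 (1 : ℂ) :=
      (isOpen_lt continuous_const Complex.continuous_re).mem_nhds (by simp; norm_num)
    filter_upwards [hmem] with z hz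
    exact hcomp z hz
  exact h1.eqOn_of_preconnected_of_eventuallyEq h2 hUc (by simp [hU]) h3 hs

/-- **the local data of a newform** -/
theorem dt_newf (hf : W388.IsNewf N 2 f w) {Lf : ℂ → ℂ} (hd : Differentiable ℂ Lf)
    (hcomp : ∀ s : ℂ, 1 / 4 < s.re → LL (gE f) 0 (s - 1 / 2) = Complex.Gamma (s + 1 / 2) *
      ((2 * Real.pi / Real.sqrt N : ℝ) : ℂ) ^ (-(s + 1 / 2)) * Lf s) (t : ℝ) :
    MJ.Dt (NB.xi (N : ℝ) (LamD f)) Lf (gm N (gaD (N : ℝ) mu1 (3 / 2 + t * I)).re)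
      (2 * (gaD (N : ℝ) mu1 (3 / 2 + t * I)).re) t 300 := by
  set ℓ := (gaD (N : ℝ) mu1 (3 / 2 + t * I)).re with hℓ
  refine ⟨hd, fun s hs => ?_, fun s hs => gm_diff ℓ hs, fun s hs => gm_ne ℓ hs,
    fun s u h1 h2 h3 h4 h5 h6 => gm_move h1 h2 h3 h4 h5 h6, fun s h1 h2 h3 => ?_⟩
  · rw [xi_eq]
    simp only
    rw [comp_ext hf hd hcomp hs]
    unfold gm
    have e : cexp (((2 * ℓ : ℝ) : ℂ) / 2 * s) * cexp (-(ℓ : ℂ) * s) = 1 := by
      rw [← Complex.exp_add, ← Complex.exp_zero]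
      congr 1
      push_cast
      ring
    calc kn N * (gg N (s + 1 / 2) * Lf s)
        = kn N * (gg N (s + 1 / 2) * Lf s) * (cexp (((2 * ℓ : ℝ) : ℂ) / 2 * s) * cexp (-(ℓ : ℂ) * s)) := by
          rw [e, mul_one]
      _ = _ := by ring
  · rw [gm_lg ℓ h1]
    exact (gaD_box h1 h2 h3).trans (by norm_num)

lemma cond_le (y : ℝ) : Real.log (NB.cond (N : ℝ) mu2 y) ≤ Real.log N + 2 * Real.log (2 + |y|) + 2 := by
  have hN1 := one_le_N (N := N)
  have hN0 : (0 : ℝ) < N := by linarith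
  have hy := abs_nonneg y
  have h2 : ∏ j, (1 + ‖(y : ℂ) * I - mu2 j‖) ≤ (2 * (2 + |y|)) ^ 2 := by
    rw [Fin.prod_univ_two, sq]
    have h3 : ∀ j, 1 + ‖(y : ℂ) * I - mu2 j‖ ≤ 2 * (2 + |y|) := by
      intro j
      have h3 : ‖mu2 j‖ ≤ 3 / 2 := by
        unfold mu2
        split_ifs <;> norm_num
      have h4 := norm_sub_le ((y : ℂ) * I) (mu2 j)
      rw [norm_mul, Complex.norm_I, mul_one, Complex.norm_real, Real.norm_eq_abs] at h4
      linarith
    exact mul_le_mul (h3 0) (h3 1) (by positivity) (by linarith)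
  have h5 : Real.log (NB.cond (N : ℝ) mu2 y) ≤ Real.log (N * (2 * (2 + |y|)) ^ 2) := by
    unfold NB.cond
    have hp : 0 < ∏ j, (1 + ‖(y : ℂ) * I - mu2 j‖) := Finset.prod_pos fun j _ => by positivity
    exact Real.log_le_log (by positivity) (mul_le_mul_of_nonneg_left h2 hN0.le)
  have h6 : Real.log (N * (2 * (2 + |y|)) ^ 2) =
      Real.log N + 2 * (Real.log 2 + Real.log (2 + |y|)) := by
    rw [Real.log_mul hN0.ne' (by positivity), Real.log_pow,
      Real.log_mul (by norm_num) (by positivity)]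
    norm_num
  have h7 := Real.log_two_lt_d9
  linarith

lemma log_two_abs (y : ℝ) : Real.log (2 + |y|) ≤ Real.log (1 + |y|) + 7 / 10 := by
  have hy := abs_nonneg y
  have h1 : Real.log (2 + |y|) ≤ Real.log (2 * (1 + |y|)) := by
    apply Real.log_le_log (by linarith)
    linarith
  rw [Real.log_mul (by norm_num) (by linarith)] at h1
  have := Real.log_two_lt_d9
  linarith

lemma log_cnd (y : ℝ) : Real.log (N * (1 + |y|) ^ 2) = Real.log N + 2 * Real.log (1 + |y|) := by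
  have hN1 := one_le_N (N := N)
  have hN0 : (0 : ℝ) < N := by linarith
  have hy := abs_nonneg y
  rw [Real.log_mul hN0.ne' (by positivity), Real.log_pow]
  norm_num

/-- the two logarithmic conductors -/
lemma cond_cmp (y : ℝ) : |2 * (1 / 2 * Real.log (NB.cond (N : ℝ) mu2 y)) -
    2 * (gaD (N : ℝ) mu1 (3 / 2 + y * I)).re| ≤ 300 := by
  have hN1 := one_le_N (N := N)
  have hN0 : (0 : ℝ) < N := by linarith
  have hy := abs_nonneg y
  have h1 := D1_ge hN1 y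
  have h2 := D1_le hN1 y
  have h3 := cond_le (N := N) y
  have h4 : Real.log (N * (1 + |y|) ^ 2) ≤ Real.log (NB.cond (N : ℝ) mu2 y) :=
    Real.log_le_log (by positivity) (cond_ge y)
  have h5 := log_two_abs y
  rw [log_cnd] at h1 h4
  rw [abs_le]
  constructor <;> linarith

lemma D1_cmp (y : ℝ) : |2 * (gaD (N : ℝ) mu1 (3 / 2 + y * I)).re - Real.log (N * (1 + |y|) ^ 2)| ≤ 25 := by
  have hN1 := one_le_N (N := N)
  have h1 := D1_ge hN1 y
  have h2 := D1_le hN1 y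
  have h5 := log_two_abs y
  rw [log_cnd] at h1 ⊢
  rw [abs_le]
  constructor <;> linarith

end

lemma lm_nearA {X : ℕ} (hX : 3 ≤ X) {A : ℝ} (hA : 0 ≤ A) {t t' : ℝ} (h : |t' - t| ≤ A) :
    lm X t' ≤ (1 + 2 * Real.log (1 + A)) * lm X t := by
  have h1 := lm_ge hX t
  have ht := abs_nonneg t
  have h2 : Real.log (2 + |t'|) ≤ Real.log ((1 + A) * (2 + |t|)) := by
    apply Real.log_le_log (by have := abs_nonneg t'; linarith)
    have h3 := abs_sub_abs_le_abs_sub t' t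
    nlinarith
  rw [Real.log_mul (by linarith) (by linarith)] at h2
  have h3 : 0 ≤ Real.log (1 + A) := Real.log_nonneg (by linarith)
  have h4 : Real.log (1 + A) ≤ 2 * Real.log (1 + A) * lm X t := by nlinarith
  have e : (1 + 2 * Real.log (1 + A)) * lm X t = lm X t + 2 * Real.log (1 + A) * lm X t := by ring
  rw [e]
  unfold lm at h1 h4 ⊢
  linarith

end Pool.Agent.H564.QH
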